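import Pool.Agent.Work.MP_8d5be4_oa.Interface

set_option autoImplicit false

namespace Pool.OA

open Filter Pool.AutRed

theorem ARI_sub (lam : ℝ) (s t : ℤ × ℤ) : ESC_l lam (s - t) = ESC_l lam s - ESC_l lam t := by
  simp only [ESC_l, Prod.fst_sub, Prod.snd_sub]
  push_cast
  ring

theorem ARI_pow {m : ℝ} (hm : |m| < 1 / 3) {n : ℕ} (hn : 0 < n) : |m ^ n| < 1 / 3 := by
  rw [abs_pow]
  obtain ⟨n, rfl⟩ := Nat.exists_eq_succ_of_ne_zero hn.ne'
  rw [pow_succ]
  have h1 : |m| ^ n ≤ 1 := pow_le_one₀ (abs_nonneg m) (by linarith)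
  nlinarith [abs_nonneg m]

theorem ARI_main {K : ℕ} (hK : 3 ≤ K) {k i j : ℕ} (hi : 0 < i) (hik : i < k) (s : ℤ × ℤ) {e : ℝ}
    (he : e = 1 ∨ e = -1) {lam : ℝ} (hlam : (K : ℝ) < lam) (hq : lam ^ 2 = K * lam + 1)
    (h1 : (1 - lam ^ k) * ESC_l lam s = e * (lam ^ (j + 1) * (1 - lam ^ i)))
    (h2 : (1 - (K - lam) ^ k) * ESC_l (K - lam) s =
      e * ((K - lam) ^ (j + 1) * (1 - (K - lam) ^ i))) : False := by
  have hKr : (3 : ℝ) ≤ K := by exact_mod_cast hK
  obtain ⟨mu, hmu⟩ : ∃ mu : ℝ, mu = K - lam := ⟨_, rfl⟩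
  rw [← hmu] at h2
  have hl3 : 3 < lam := by linarith
  have hlm : lam * mu = -1 := by
    rw [hmu]
    linear_combination -hq
  have hmabs : |mu| < 1 / 3 := by
    have h3 : |lam| * |mu| = 1 := by rw [← abs_mul, hlm]; simp
    rw [abs_of_pos (by linarith : (0 : ℝ) < lam)] at h3
    by_contra hc
    push Not at hc
    nlinarith
  have hmi := abs_lt.1 (ARI_pow hmabs hi)
  have hmk := abs_lt.1 (ARI_pow hmabs (lt_trans hi hik))
  have hli : 3 < lam ^ i := by
    have : lam ^ 1 ≤ lam ^ i := pow_le_pow_right₀ (by linarith) hi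
    linarith [pow_one lam]
  have hlk : 3 * lam ^ i ≤ lam ^ k := by
    have h3 : lam ^ (i + 1) ≤ lam ^ k := pow_le_pow_right₀ (by linarith) hik
    have h4 : lam ^ (i + 1) = lam ^ i * lam := pow_succ _ _
    nlinarith
  -- the integer
  obtain ⟨q, hqd⟩ : ∃ q : ℤ, (q : ℝ) = ESC_l lam s * ESC_l mu s := by
    refine ⟨-(s.1) ^ 2 + K * s.1 * s.2 + s.2 ^ 2, ?_⟩
    have h5 : mu = K - lam := hmu
    simp only [ESC_l]
    push_cast
    have h6 : lam * mu = -1 := hlm
    have h7 : lam + mu = K := by rw [h5]; ring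
    linear_combination (-(s.1 : ℝ) ^ 2) * h6 - (s.1 : ℝ) * s.2 * h7
  have hprod : (1 - lam ^ k) * (1 - mu ^ k) * q =
      (lam * mu) ^ (j + 1) * ((1 - lam ^ i) * (1 - mu ^ i)) := by
    have he2 : e * e = 1 := by rcases he with rfl | rfl <;> norm_num
    have h3 : ((1 - lam ^ k) * ESC_l lam s) * ((1 - mu ^ k) * ESC_l mu s) =
      (e * (lam ^ (j + 1) * (1 - lam ^ i))) * (e * (mu ^ (j + 1) * (1 - mu ^ i))) := by
      rw [h1, h2]
    rw [hqd, mul_pow]
    linear_combination h3 + (lam ^ (j + 1) * (1 - lam ^ i)) * (mu ^ (j + 1) * (1 - mu ^ i)) * he2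
  have habs : |(1 - lam ^ k) * (1 - mu ^ k) * q| = |(1 - lam ^ i) * (1 - mu ^ i)| := by
    rw [hprod, abs_mul, hlm, abs_pow, abs_neg, abs_one, one_pow, one_mul]
  rw [abs_mul, abs_mul, abs_mul, abs_of_neg (by linarith : 1 - lam ^ k < 0),
    abs_of_pos (by linarith [hmk.2] : 0 < 1 - mu ^ k),
    abs_of_neg (by linarith : 1 - lam ^ i < 0),
    abs_of_pos (by linarith [hmi.2] : 0 < 1 - mu ^ i)] at habs
  have hpi : 0 < -(1 - lam ^ i) * (1 - mu ^ i) :=
    mul_pos (by linarith) (by linarith [hmi.2])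
  have hlt : -(1 - lam ^ i) * (1 - mu ^ i) < -(1 - lam ^ k) * (1 - mu ^ k) := by
    have h3 : -(1 - lam ^ i) * (1 - mu ^ i) ≤ (lam ^ i - 1) * (4 / 3) := by
      have : -(1 - lam ^ i) = lam ^ i - 1 := by ring
      rw [this]
      exact mul_le_mul_of_nonneg_left (by linarith [hmi.1]) (by linarith)
    have h4 : (lam ^ k - 1) * (2 / 3) ≤ -(1 - lam ^ k) * (1 - mu ^ k) := by
      have : -(1 - lam ^ k) = lam ^ k - 1 := by ring
      rw [this]
      exact mul_le_mul_of_nonneg_left (by linarith [hmk.2]) (by linarith)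
    linarith
  have hq1 : q = 0 ∨ 1 ≤ |(q : ℝ)| := by
    by_cases h : q = 0
    · exact Or.inl h
    · right
      have := Int.one_le_abs h
      exact_mod_cast this
  rcases hq1 with h | h
  · rw [h, Int.cast_zero, abs_zero, mul_zero] at habs
    exact hpi.ne habs
  · have h5 : 0 < -(1 - lam ^ k) * (1 - mu ^ k) := hpi.trans hlt
    have h6 := mul_le_mul_of_nonneg_left h h5.le
    rw [habs, mul_one] at h6
    linarith

theorem p_ARI : Stmt_ARI := by
  intro K hK k i j hi hik s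
  obtain ⟨lam, hlam, hq, -⟩ := blk_IRR K (by omega)
  have hq' : (K - lam) ^ 2 = K * (K - lam) + 1 := by linear_combination hq
  have he : ∀ m : ℝ, ESC_l m ((1 : ℤ), (0 : ℤ)) = m := by
    intro m
    simp [ESC_l]
  constructor
  · intro h
    refine ARI_main hK hi hik s (Or.inl rfl) hlam hq (j := j) ?_ ?_
    · have h1 := congrArg (ESC_l lam) h
      rw [ARI_sub, ARI_sub, ESC_l_iter hq, ESC_l_iter hq, ESC_l_iter hq, he, pow_add] at h1
      linear_combination h1
    · have h1 := congrArg (ESC_l (K - lam)) h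
      rw [ARI_sub, ARI_sub, ESC_l_iter hq', ESC_l_iter hq', ESC_l_iter hq', he, pow_add] at h1
      linear_combination h1
  · intro h
    refine ARI_main hK hi hik s (Or.inr rfl) hlam hq (j := j) ?_ ?_
    · have h1 := congrArg (ESC_l lam) h
      rw [ARI_sub, ARI_sub, ESC_l_iter hq, ESC_l_iter hq, ESC_l_iter hq, he, pow_add] at h1
      linear_combination h1
    · have h1 := congrArg (ESC_l (K - lam)) h
      rw [ARI_sub, ARI_sub, ESC_l_iter hq', ESC_l_iter hq', ESC_l_iter hq', he, pow_add] at h1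
      linear_combination h1

end Pool.OA
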