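import Pool.Agent.Work.MP_8d5be4_oa.Interface
set_option autoImplicit false
open Filter Pool.AutRed
namespace Pool.OA

theorem AUT_inj {A : Type} {p : ℕ} : Function.Injective (gA A p) :=
  FreeGroup.map_injective (Sum.inl_injective.comp Sum.inl_injective)

theorem AUT_half (hC : Stmt_COM) {A : Type} [DecidableEq A] {p : ℕ} (x : A)
    (c : MulAut (GG A p)) (g₁ g₂ : GG A p) (d₁ d₂ : FreeGroup A → FreeGroup A)
    (h₁ : ∀ h, c (gA A p h) = g₁ * gA A p (d₁ h) * g₁⁻¹)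
    (h₂ : ∀ h, c⁻¹ (gA A p h) = g₂ * gA A p (d₂ h) * g₂⁻¹) :
    ∃ f : FreeGroup A, ∀ h, d₁ (d₂ h) = f * h * f⁻¹ := by
  have key : ∀ h, (c g₂ * g₁)⁻¹ * gA A p h * ((c g₂ * g₁)⁻¹)⁻¹ = gA A p (d₁ (d₂ h)) := by
    intro h
    have e1 : gA A p h = c (c⁻¹ (gA A p h)) := by rw [MulAut.apply_inv_self]
    have e2 : c (c⁻¹ (gA A p h)) = c g₂ * (g₁ * gA A p (d₁ (d₂ h)) * g₁⁻¹) * (c g₂)⁻¹ := by
      rw [h₂, map_mul, map_mul, map_inv, h₁]
    rw [e1, e2]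
    group
  obtain ⟨f, hf⟩ := mln hC (A := A) (J := (A ⊕ Fin (p + 1)) ⊕ Bool) (ι := Sum.inl ∘ Sum.inl)
    (Sum.inl_injective.comp Sum.inl_injective) (f₁ := FreeGroup.of x) (FreeGroup.of_ne_one x)
    (key (FreeGroup.of x))
  refine ⟨f, fun h => ?_⟩
  apply AUT_inj (p := p)
  have hf' : (c g₂ * g₁)⁻¹ = gA A p f := hf
  rw [← key h, hf', map_mul, map_mul, map_inv]

theorem AUT_hom {A : Type} {p : ℕ} (c : MulAut (GG A p)) (g₁ : GG A p)
    (d₁ : FreeGroup A → FreeGroup A)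
    (h₁ : ∀ h, c (gA A p h) = g₁ * gA A p (d₁ h) * g₁⁻¹) (x y : FreeGroup A) :
    d₁ (x * y) = d₁ x * d₁ y := by
  apply AUT_inj (p := p)
  have e : ∀ h, gA A p (d₁ h) = g₁⁻¹ * c (gA A p h) * g₁ := by
    intro h; rw [h₁]; group
  rw [map_mul, e, e, e, map_mul, map_mul]
  group

theorem p_AUT (hC : Stmt_COM) (hF : Stmt_FAC) : Stmt_AUT := by
  intro A _ _ p K hK a b w w' ha hb c hc
  rcases isEmpty_or_nonempty A with hA | ⟨⟨x⟩⟩
  · refine ⟨1, 1, fun h => ?_⟩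
    have : h = 1 := Subsingleton.elim _ _
    subst this
    simp
  obtain ⟨g₂, h₂⟩ := hF A p K hK a b w w' ha c hc
  obtain ⟨g₁, h₁⟩ := hF A p K hK b a w' w hb c⁻¹ (by rw [← hc]; group)
  rw [inv_inv] at h₁
  choose d₂ h₂ using h₂
  choose d₁ h₁ using h₁
  obtain ⟨f, hf⟩ := AUT_half hC x c g₁ g₂ d₁ d₂ h₁ h₂
  obtain ⟨f', hf'⟩ := AUT_half hC x c⁻¹ g₂ g₁ d₂ d₁ h₂ (by rw [inv_inv]; exact h₁)
  have hbij : Function.Bijective d₁ := by
    constructor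
    · intro y z hyz
      have e := hf' y
      rw [hyz, hf' z] at e
      have : f' * z = f' * y := mul_right_cancel e
      exact (mul_left_cancel this).symm
    · intro y
      refine ⟨d₂ (f⁻¹ * y * f), ?_⟩
      rw [hf]
      group
  refine ⟨g₁, MulEquiv.ofBijective (MonoidHom.mk' d₁ (AUT_hom c g₁ d₁ h₁)) hbij, fun h => ?_⟩
  exact h₁ h

end Pool.OA
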