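import Pool.Agent.Work.MP_8d5be4_oa.Interface

/-!
Row MP_8d5be4_al, THEOREM OA, block AXL: pieces of the axis are reached.
-/

set_option autoImplicit false
set_option linter.unusedSectionVars false

open Filter Pool.AutRed

namespace Pool.OA

section

variable {J : Type} [DecidableEq J]

theorem AXL_pow (L : List (J × Bool)) (m : ℕ) :
    (FreeGroup.mk (List.replicate m L).flatten : FreeGroup J) = FreeGroup.mk L ^ m := by
  induction m with
  | zero => rw [pow_zero, FreeGroup.one_eq_mk]; rfl
  | succ m ih =>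
    rw [pow_succ', ← ih, FreeGroup.mul_mk, List.replicate_succ, List.flatten_cons]

theorem AXL_conj_pow (g u : FreeGroup J) (m : ℕ) : (g * u * g⁻¹) ^ m = g * u ^ m * g⁻¹ := by
  rw [conj_pow]

theorem AXL_len (L : List (J × Bool)) (hL : L ≠ []) (m : ℕ) :
    m ≤ (List.replicate m L).flatten.length := by
  induction m with
  | zero => simp
  | succ m ih =>
    rw [List.replicate_succ, List.flatten_cons, List.length_append]
    have := List.length_pos_of_ne_nil hL
    omega

end

theorem p_AXL (hGEO : Stmt_GEO) (hCAN : Stmt_CAN) : Stmt_AXL := by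
  intro J _ w n P Y R g hcyc hps hx
  obtain ⟨h1, h2, h3, h4, h5, h6⟩ := blk_RCH J w
  by_cases hL : P ++ Y ++ R = []
  · have hY : Y = [] := by
      have := List.append_eq_nil_iff.1 hL
      exact (List.append_eq_nil_iff.1 this.1).2
    subst hY
    exact Relation.ReflTransGen.refl
  set L := P ++ Y ++ R with hLdef
  obtain ⟨i, hi⟩ : ∃ i : ℕ, i = g.norm + 1 := ⟨_, rfl⟩
  obtain ⟨Z, hZ⟩ : ∃ Z : List (J × Bool), Z = (List.replicate i L).flatten := ⟨_, rfl⟩
  have hpsx : ps w (g * FreeGroup.mk L * g⁻¹) = 0 := by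
    rw [ps_mul, ps_mul, ps_inv, hps]
    simp
  have hpow : ∀ m : ℕ, Reach w n ((g * FreeGroup.mk L * g⁻¹) ^ m) := by
    intro m
    induction m with
    | zero => rw [pow_zero]; exact Relation.ReflTransGen.refl
    | succ m ih =>
      rw [pow_succ']
      exact h2 n _ _ hx hpsx ih
  have hword : Z ++ L ++ Z = (List.replicate (2 * i + 1) L).flatten := by
    have e : 2 * i + 1 = i + (1 + i) := by ring
    have e1 : (List.replicate 1 L).flatten = L := by simp
    rw [e, List.replicate_add i (1 + i), List.flatten_append, List.replicate_add 1 i,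
      List.flatten_append, e1, ← hZ, List.append_assoc]
  have hred : FreeGroup.IsReduced (Z ++ L ++ Z) := by
    rw [hword]
    exact (hcyc.flatten_replicate _).isReduced
  have hm : FreeGroup.mk (Z ++ L ++ Z) = FreeGroup.mk L ^ (2 * i + 1) := by
    rw [hword, AXL_pow]
  have hZlen : i ≤ Z.length := hZ ▸ AXL_len L hL i
  have key : ∀ L₁ L₂ : List (J × Bool), L₁ ++ L₂ = Z ++ L ++ Z → Z.length ≤ L₁.length →
      Z.length ≤ L₂.length → Reach w n (g * FreeGroup.mk L₁) := by
    intro L₁ L₂ hLL hl1 hl2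
    have hc := hCAN J g g⁻¹ L₁ L₂ (by rw [hLL]; exact hred) (by omega)
      (by rw [FreeGroup.norm_inv_eq]; omega)
    have e1 : g * FreeGroup.mk L₁ * (FreeGroup.mk L₂ * g⁻¹) =
        (g * FreeGroup.mk L * g⁻¹) ^ (2 * i + 1) := by
      rw [AXL_conj_pow, ← hm, ← hLL, ← FreeGroup.mul_mk]
      group
    rw [e1] at hc
    have hr := hGEO J w n _ (hpow (2 * i + 1)) _ _ hc
    rwa [FreeGroup.mk_toWord] at hr
  have r1 := key (Z ++ P) (Y ++ R ++ Z) (by simp [hLdef, List.append_assoc])
    (by simp only [List.length_append]; omega) (by simp only [List.length_append]; omega)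
  have r2 := key (Z ++ P ++ Y) (R ++ Z) (by simp [hLdef, List.append_assoc])
    (by simp only [List.length_append]; omega) (by simp only [List.length_append]; omega)
  have r3 := h4 n _ _ r1 r2
  have e : (g * FreeGroup.mk (Z ++ P))⁻¹ * (g * FreeGroup.mk (Z ++ P ++ Y)) = FreeGroup.mk Y := by
    rw [← FreeGroup.mul_mk (L₁ := Z ++ P) (L₂ := Y)]
    group
  rwa [e] at r3

end Pool.OA
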