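import Pool.Agent.Work.MP_8d5be4_oa.Interface

/-!
Row MP_8d5be4_al, THEOREM OA, block CAN: no cancellation in the middle.
-/

set_option autoImplicit false
set_option linter.unusedSectionVars false

open Filter Pool.AutRed

namespace Pool.OA

section

variable {J : Type} [DecidableEq J]

theorem CAN_app {L₁ L₂ : List (J × Bool)} : FreeGroup.IsReduced (L₁ ++ L₂) ↔
    FreeGroup.IsReduced L₁ ∧ FreeGroup.IsReduced L₂ ∧
      ∀ x ∈ L₁.getLast?, ∀ y ∈ L₂.head?, x.1 = y.1 → x.2 = y.2 :=
  List.isChain_append

theorem CAN_toWord {L : List (J × Bool)} (h : FreeGroup.IsReduced L) :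
    FreeGroup.toWord (FreeGroup.mk L) = L := by
  rw [FreeGroup.toWord_mk, h.reduce_eq]

theorem CAN_inv (a : J × Bool) : (FreeGroup.mk ([(a.1, !a.2)] ++ [a]) : FreeGroup J) = 1 := by
  rw [FreeGroup.one_eq_mk]
  apply Quot.sound
  have := @FreeGroup.Red.Step.not J [] [] a.1 (!a.2)
  simpa using this

theorem CAN_inv' (a : J × Bool) : (FreeGroup.mk ([a] ++ [(a.1, !a.2)]) : FreeGroup J) = 1 := by
  rw [FreeGroup.one_eq_mk]
  apply Quot.sound
  have := @FreeGroup.Red.Step.not J [] [] a.1 a.2
  simpa using this

/-- One letter at the end of a reduced word. -/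
theorem CAN_snoc (g : FreeGroup J) (a : J × Bool) :
    FreeGroup.toWord (g * FreeGroup.mk [a]) = FreeGroup.toWord g ++ [a] ∨
      FreeGroup.toWord g = FreeGroup.toWord (g * FreeGroup.mk [a]) ++ [(a.1, !a.2)] := by
  have hr : FreeGroup.IsReduced (FreeGroup.toWord g) := FreeGroup.isReduced_toWord
  have hg : FreeGroup.mk (FreeGroup.toWord g) = g := FreeGroup.mk_toWord
  generalize FreeGroup.toWord g = L at hr hg
  subst hg
  rcases List.eq_nil_or_concat L with h | ⟨L', c, h⟩
  · subst h
    left
    rw [FreeGroup.mul_mk, CAN_toWord (by simp)]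
  · subst h
    rw [List.concat_eq_append] at hr ⊢
    by_cases hc : c = (a.1, !a.2)
    · right
      have h1 := (CAN_app.1 hr).1
      have h2 : (FreeGroup.mk (L' ++ [c]) : FreeGroup J) * FreeGroup.mk [a] = FreeGroup.mk L' := by
        rw [← FreeGroup.mul_mk, mul_assoc, hc, FreeGroup.mul_mk (L₁ := [(a.1, !a.2)]), CAN_inv,
          mul_one]
      rw [h2, CAN_toWord h1, hc]
    · left
      have h1 : FreeGroup.IsReduced ((L' ++ [c]) ++ [a]) := by
        refine CAN_app.2 ⟨hr, by simp, ?_⟩
        intro x hx y hy hxy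
        simp at hx hy
        subst hx hy
        by_contra hne
        refine hc (Prod.ext hxy ?_)
        cases h4 : c.2 <;> cases h5 : a.2 <;> simp_all
      rw [FreeGroup.mul_mk, CAN_toWord h1]

/-- One letter at the beginning of a reduced word. -/
theorem CAN_cons (g : FreeGroup J) (a : J × Bool) :
    FreeGroup.toWord (FreeGroup.mk [a] * g) = a :: FreeGroup.toWord g ∨
      FreeGroup.toWord g = (a.1, !a.2) :: FreeGroup.toWord (FreeGroup.mk [a] * g) := by
  have hr : FreeGroup.IsReduced (FreeGroup.toWord g) := FreeGroup.isReduced_toWord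
  have hg : FreeGroup.mk (FreeGroup.toWord g) = g := FreeGroup.mk_toWord
  generalize FreeGroup.toWord g = L at hr hg
  subst hg
  rcases L with - | ⟨c, L'⟩
  · left
    rw [FreeGroup.mul_mk, List.append_nil, CAN_toWord (by simp)]
  · by_cases hc : c = (a.1, !a.2)
    · right
      have hr' : FreeGroup.IsReduced ([c] ++ L') := hr
      have h1 := (CAN_app.1 hr').2.1
      have h2 : (FreeGroup.mk [a] : FreeGroup J) * FreeGroup.mk (c :: L') = FreeGroup.mk L' := by
        have h3 : (FreeGroup.mk (c :: L') : FreeGroup J) = FreeGroup.mk [c] * FreeGroup.mk L' := by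
          rw [FreeGroup.mul_mk]
          rfl
        rw [h3, ← mul_assoc, hc, FreeGroup.mul_mk (L₁ := [a]), CAN_inv', one_mul]
      rw [h2, CAN_toWord h1, hc]
    · left
      have h1 : FreeGroup.IsReduced ([a] ++ (c :: L')) := by
        refine CAN_app.2 ⟨by simp, hr, ?_⟩
        intro x hx y hy hxy
        simp at hx hy
        subst hx hy
        by_contra hne
        refine hc (Prod.ext hxy.symm ?_)
        cases h4 : c.2 <;> cases h5 : a.2 <;> simp_all
      rw [FreeGroup.mul_mk, CAN_toWord h1]
      rfl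

theorem CAN_left (L : List (J × Bool)) (hL : FreeGroup.IsReduced L) :
    ∀ W : List (J × Bool), ∃ U V : List (J × Bool),
      FreeGroup.toWord (FreeGroup.mk W * FreeGroup.mk L) = U ++ V ∧ V <:+ L ∧
        L.length ≤ V.length + W.length := by
  intro W
  induction W with
  | nil =>
    refine ⟨[], L, ?_, List.suffix_rfl, by simp⟩
    rw [← FreeGroup.one_eq_mk, one_mul, CAN_toWord hL]
    rfl
  | cons a W ih =>
    obtain ⟨U, V, h1, h2, h3⟩ := ih
    have h4 : (FreeGroup.mk (a :: W) : FreeGroup J) * FreeGroup.mk L =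
        FreeGroup.mk [a] * (FreeGroup.mk W * FreeGroup.mk L) := by
      rw [← mul_assoc, FreeGroup.mul_mk (L₁ := [a])]
      rfl
    rw [h4]
    rcases CAN_cons (FreeGroup.mk W * FreeGroup.mk L) a with h5 | h5
    · exact ⟨a :: U, V, by rw [h5, h1]; rfl, h2, by simp only [List.length_cons]; omega⟩
    · rw [h1] at h5
      rcases U with - | ⟨u, U'⟩
      · simp only [List.nil_append] at h5
        refine ⟨[], _, (List.nil_append _).symm, ?_, ?_⟩
        · refine List.IsSuffix.trans ?_ h2
          rw [h5]
          exact List.suffix_cons _ _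
        · rw [h5] at h3
          simp only [List.length_cons] at h3 ⊢
          omega
      · simp only [List.cons_append] at h5
        exact ⟨U', V, (List.cons.inj h5).2.symm, h2, by simp only [List.length_cons]; omega⟩

theorem CAN_right (L : List (J × Bool)) (hL : FreeGroup.IsReduced L) :
    ∀ W : List (J × Bool), ∃ U V : List (J × Bool),
      FreeGroup.toWord (FreeGroup.mk L * FreeGroup.mk W) = V ++ U ∧ V <+: L ∧
        L.length ≤ V.length + W.length := by
  intro W
  induction W using List.reverseRecOn with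
  | nil =>
    refine ⟨[], L, ?_, List.prefix_rfl, by simp⟩
    rw [← FreeGroup.one_eq_mk, mul_one, CAN_toWord hL, List.append_nil]
  | append_singleton W a ih =>
    obtain ⟨U, V, h1, h2, h3⟩ := ih
    have h4 : (FreeGroup.mk L : FreeGroup J) * FreeGroup.mk (W ++ [a]) =
        FreeGroup.mk L * FreeGroup.mk W * FreeGroup.mk [a] := by
      rw [mul_assoc, FreeGroup.mul_mk (L₁ := W)]
    rw [h4]
    rcases CAN_snoc (FreeGroup.mk L * FreeGroup.mk W) a with h5 | h5
    · exact ⟨U ++ [a], V, by rw [h5, h1, List.append_assoc], h2,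
        by simp only [List.length_append, List.length_cons, List.length_nil]; omega⟩
    · rw [h1] at h5
      rcases List.eq_nil_or_concat U with hU | ⟨U', u, hU⟩
      · subst hU
        rw [List.append_nil] at h5
        refine ⟨[], _, (List.append_nil _).symm, ?_, ?_⟩
        · refine List.IsPrefix.trans ?_ h2
          rw [h5]
          exact List.prefix_append _ _
        · rw [h5] at h3
          simp only [List.length_append, List.length_cons, List.length_nil] at h3 ⊢
          omega
      · rw [hU, List.concat_eq_append, ← List.append_assoc] at h5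
        have h6 := (List.append_inj' h5 rfl).1
        exact ⟨U', V, h6.symm, h2,
          by simp only [List.length_append, List.length_cons, List.length_nil]; omega⟩

end

theorem p_CAN : Stmt_CAN := by
  intro J _ g h L₁ L₂ hL hg hh
  obtain ⟨hL1, hL2, hj⟩ := CAN_app.1 hL
  obtain ⟨U, V, h1, h2, h3⟩ := CAN_left L₁ hL1 (FreeGroup.toWord g)
  obtain ⟨U', V', h1', h2', h3'⟩ := CAN_right L₂ hL2 (FreeGroup.toWord h)
  rw [FreeGroup.mk_toWord] at h1 h1'
  have hV : V ≠ [] := by
    rintro rfl
    have : g.norm = (FreeGroup.toWord g).length := rfl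
    simp only [List.length_nil] at h3
    omega
  have hV' : V' ≠ [] := by
    rintro rfl
    have : h.norm = (FreeGroup.toWord h).length := rfl
    simp only [List.length_nil] at h3'
    omega
  have r1 : FreeGroup.IsReduced (U ++ V) := h1 ▸ FreeGroup.isReduced_toWord
  have r2 : FreeGroup.IsReduced (V' ++ U') := h1' ▸ FreeGroup.isReduced_toWord
  have r3 : FreeGroup.IsReduced ((U ++ V) ++ (V' ++ U')) := by
    refine CAN_app.2 ⟨r1, r2, ?_⟩
    intro x hx y hy
    refine hj x ?_ y ?_
    · obtain ⟨T, hT⟩ := h2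
      rw [← hT, List.getLast?_append_of_ne_nil _ hV]
      rwa [List.getLast?_append_of_ne_nil _ hV] at hx
    · obtain ⟨T, hT⟩ := h2'
      rw [← hT, List.head?_append_of_ne_nil _ hV']
      rwa [List.head?_append_of_ne_nil _ hV'] at hy
  rw [h1, h1']
  have e1 : g * FreeGroup.mk L₁ = FreeGroup.mk (U ++ V) := by
    rw [← h1, FreeGroup.mk_toWord]
  have e2 : FreeGroup.mk L₂ * h = FreeGroup.mk (V' ++ U') := by
    rw [← h1', FreeGroup.mk_toWord]
  rw [e1, e2, FreeGroup.mul_mk, CAN_toWord r3]

end Pool.OA
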