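import Pool.Agent.Work.MP_8d5be4_oa.Interface
set_option autoImplicit false
open Filter Pool.AutRed
namespace Pool.OA

theorem p_CHR (hF : Stmt_FXL) : Stmt_CHR := by
  intro J _ _ θ j u
  induction u using snoc_ind with
  | h1 =>
    intro κ
    simp
  | hs g m ih =>
    intro κ
    rw [map_mul, fx_mul, ih]
    simp only [fx_mul, Finset.sum_add_distrib]
    congr 1
    rw [Finset.sum_eq_single m]
    · rw [fx_of, if_pos rfl]
      simp
    · intro k _ hk
      rw [fx_of, if_neg (Ne.symm hk)]
    · intro h; exact absurd (Finset.mem_univ m) h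
  | hi g m ih =>
    intro κ
    rw [map_mul, fx_mul, ih]
    simp only [fx_mul, Finset.sum_add_distrib]
    congr 1
    rw [Finset.sum_eq_single m]
    · rw [fx_inv, fx_of, if_pos rfl, map_inv, fx_inv]
      simp [mul_assoc]
    · intro k _ hk
      rw [fx_inv, fx_of, if_neg (Ne.symm hk)]
      simp
    · intro h; exact absurd (Finset.mem_univ m) h

end Pool.OA
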