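import Pool.Agent.Work.MP_8d5be4_oa.Interface

set_option autoImplicit false

open Filter Pool.AutRed

namespace Pool.OA

theorem p_CJD : Stmt_CJD := by
  intro A p K a b d g w w' hd hw
  have hd' : ∀ h, d⁻¹ (a h) = g * b (d⁻¹ h) * g⁻¹ := by
    intro h
    have h1 := DFunLike.congr_fun hd (d⁻¹ h)
    rw [MulAut.mul_apply, MulAut.mul_apply, MulAut.apply_inv_self, MulAut.mul_apply,
      MulAut.conj_apply] at h1
    exact h1
  have g1 : gp b g 1 = g := by simp [gp]
  obtain ⟨E, E1, E2, E3⟩ : ∃ E : GG A p →* GG A p, (∀ h, E (gA A p h) = gA A p (d⁻¹ h)) ∧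
      (∀ j : Fin (p + 2), E (SS A p j) = gA A p (gp b g j.val) * SS A p j) ∧
      (∀ c, E (g2 A p c) = g2 A p c) := by
    refine ⟨mkHom ((gA A p).comp (d⁻¹ : MulAut (FreeGroup A)).toMonoidHom)
      (fun i => gA A p (gp b g (i.val + 1)) * SS A p i.succ) (g2 A p), ?_, ?_, ?_⟩
    · intro h; rw [mkHom_gA]; rfl
    · intro j
      refine Fin.cases ?_ (fun i => ?_) j
      · rw [SS_zero, map_one]
        show 1 = gA A p (gp b g 0) * 1
        rw [gp, map_one, mul_one]
      · rw [mkHom_S]; rfl
    · intro c; rw [mkHom_g2]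
  obtain ⟨F, F1, F2', F3⟩ : ∃ F : GG A p →* GG A p, (∀ h, F (gA A p h) = gA A p (d h)) ∧
      (∀ j : Fin (p + 2), F (SS A p j) = (gA A p (d (gp b g j.val)))⁻¹ * SS A p j) ∧
      (∀ c, F (g2 A p c) = g2 A p c) := by
    refine ⟨mkHom ((gA A p).comp d.toMonoidHom)
      (fun i => (gA A p (d (gp b g (i.val + 1))))⁻¹ * SS A p i.succ) (g2 A p), ?_, ?_, ?_⟩
    · intro h; rw [mkHom_gA]; rfl
    · intro j
      refine Fin.cases ?_ (fun i => ?_) j
      · rw [SS_zero, map_one]
        show 1 = (gA A p (d (gp b g 0)))⁻¹ * 1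
        rw [gp, map_one, map_one, inv_one, mul_one]
      · rw [mkHom_S]; rfl
    · intro c; rw [mkHom_g2]
  have FE : F.comp E = MonoidHom.id _ := by
    refine gg_ext ?_ ?_ ?_
    · intro h
      rw [MonoidHom.comp_apply, E1, F1, MulAut.apply_inv_self, MonoidHom.id_apply]
    · intro j
      rw [MonoidHom.comp_apply, E2, map_mul, F1, F2', MonoidHom.id_apply]
      group
    · intro c
      rw [MonoidHom.comp_apply, E3, F3, MonoidHom.id_apply]
  have EF : E.comp F = MonoidHom.id _ := by
    refine gg_ext ?_ ?_ ?_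
    · intro h
      rw [MonoidHom.comp_apply, F1, E1, MulAut.inv_apply_self, MonoidHom.id_apply]
    · intro j
      rw [MonoidHom.comp_apply, F2', map_mul, map_inv, E1, E2, MulAut.inv_apply_self,
        MonoidHom.id_apply]
      group
    · intro c
      rw [MonoidHom.comp_apply, F3, E3, MonoidHom.id_apply]
  have h1v : ((1 : Fin (p + 2)) : ℕ) = 1 := rfl
  have main : E.comp (dHom K a w) = (dHom K b w').comp E := by
    refine gg_ext ?_ ?_ ?_
    · intro h
      rw [MonoidHom.comp_apply, dHom_gA, map_mul, map_mul, map_inv, E1, E2, h1v, g1,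
        MonoidHom.comp_apply, E1, dHom_gA, hd']
      simp only [map_mul, map_inv]
      group
    · intro j
      refine Fin.cases ?_ (fun i => ?_) j
      · rw [SS_zero, map_one, map_one]
      · rw [MonoidHom.comp_apply, dHom_S, map_mul, map_inv, E2, h1v, g1, MonoidHom.comp_apply, E2,
          map_mul, dHom_gA, dHom_S]
        refine Fin.lastCases ?_ (fun i => ?_) i
        · have hv : ((Fin.last p).succ : ℕ) = p + 1 := rfl
          rw [SN_last, SN_last, hv, map_mul, map_inv, E1, E3, hw]
          have hg : gp b g (p + 2) = g * b (gp b g (p + 1)) := rfl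
          rw [hg]
          simp only [map_mul]
          group
        · have hv : ((i.castSucc).succ : ℕ) = i.val + 1 := rfl
          have hv2 : ((i.succ.succ : Fin (p + 2)) : ℕ) = i.val + 2 := rfl
          rw [SN_castSucc, SN_castSucc, hv, E2, hv2]
          have hg : gp b g (i.val + 2) = g * b (gp b g (i.val + 1)) := rfl
          rw [hg]
          simp only [map_mul]
          group
    · intro c
      rw [MonoidHom.comp_apply, dHom_g2, E3, MonoidHom.comp_apply, E3, dHom_g2]
  refine ⟨MonoidHom.toMulEquiv E F FE EF, ?_⟩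
  refine MulEquiv.ext (fun x => ?_)
  rw [MulAut.mul_apply, MulAut.mul_apply]
  exact DFunLike.congr_fun main x

end Pool.OA
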