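import Pool.Agent.Work.MP_8d5be4_oa.Interface

/-!
Row MP_8d5be4_al, THEOREM OA, block CLS: a twisted class with nonzero coefficient in the ball.
-/

set_option autoImplicit false

open Filter Pool.AutRed

namespace Pool.OA

/-- The twisted conjugacy relation. -/
def CLS_setoid {J : Type} (θ : MulAut (FreeGroup J)) : Setoid (FreeGroup J) where
  r t t' := ∃ s : FreeGroup J, t' = θ s * t * s⁻¹
  iseqv := by
    refine ⟨fun t => ⟨1, by simp⟩, ?_, ?_⟩
    · rintro t t' ⟨s, rfl⟩
      exact ⟨s⁻¹, by rw [map_inv]; group⟩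
    · rintro t t' t'' ⟨s, rfl⟩ ⟨s', rfl⟩
      exact ⟨s' * s, by rw [map_mul]; group⟩

/-- Representatives of the twisted classes. -/
noncomputable def CLS_r {J : Type} (θ : MulAut (FreeGroup J)) (t : FreeGroup J) : FreeGroup J :=
  (Quotient.mk (CLS_setoid θ) t).out

theorem CLS_r_rel {J : Type} (θ : MulAut (FreeGroup J)) (t : FreeGroup J) :
    ∃ s : FreeGroup J, t = θ s * CLS_r θ t * s⁻¹ :=
  @Quotient.mk_out _ (CLS_setoid θ) t

theorem CLS_r_eq {J : Type} (θ : MulAut (FreeGroup J)) {t t' : FreeGroup J}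
    (h : ∃ s : FreeGroup J, t' = θ s * t * s⁻¹) : CLS_r θ t = CLS_r θ t' := by
  have h' : (Quotient.mk (CLS_setoid θ) t) = Quotient.mk (CLS_setoid θ) t' :=
    @Quotient.sound _ (CLS_setoid θ) _ _ h
  unfold CLS_r
  rw [h']

theorem CLS_ind_r {J : Type} [DecidableEq J] (θ : MulAut (FreeGroup J)) (u : FreeGroup J) :
    ind θ (CLS_r θ u) = ind θ u := by
  funext t
  have key : (∃ s : FreeGroup J, t = θ s * CLS_r θ u * s⁻¹) ↔
      (∃ s : FreeGroup J, t = θ s * u * s⁻¹) := by
    constructor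
    · intro h
      exact (CLS_setoid θ).trans ((CLS_setoid θ).symm (CLS_r_rel θ u)) h
    · intro h
      exact (CLS_setoid θ).trans (CLS_r_rel θ u) h
  unfold ind
  by_cases h : ∃ s : FreeGroup J, t = θ s * u * s⁻¹
  · rw [if_pos (key.mpr h), if_pos h]
  · rw [if_neg (fun h' => h (key.mp h')), if_neg h]

theorem CLS_finite (J : Type) [Fintype J] [DecidableEq J] (N : ℕ) :
    Set.Finite {g : FreeGroup J | g.norm ≤ N} := by
  have h1 : Set.Finite {l : List (J × Bool) | l.length ≤ N} := List.finite_length_le _ N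
  exact Set.Finite.of_finite_image (h1.subset (by
    rintro l ⟨g, hg, rfl⟩
    exact hg)) (FreeGroup.toWord_injective.injOn)

theorem p_CLS (hFXL : Stmt_FXL) : Stmt_CLS := by
  intro J _ _ θ
  have h1 : ∀ κ κ' : FreeGroup J → ℤ, (∀ g : FreeGroup J, g.norm ≤ nrm θ → κ g = κ' g) →
      Lk κ θ = Lk κ' θ := by
    intro κ κ' h
    unfold Lk
    have h0 : κ 1 = κ' 1 := h 1 (by simp)
    rw [h0]
    congr 1
    refine Finset.sum_congr rfl fun i _ => ?_
    obtain ⟨_, _, _, h4, _⟩ := hFXL J i (θ (FreeGroup.of i))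
    refine h4 κ κ' fun g hg => h g (hg.trans ?_)
    exact Finset.le_sup (f := fun j => (FreeGroup.toWord (θ (FreeGroup.of j))).length)
      (Finset.mem_univ i)
  refine ⟨h1, ?_⟩
  intro hne
  classical
  have hfin := CLS_finite J (nrm θ)
  by_contra hcon
  push Not at hcon
  apply hne
  have hLkeq : Lk (fun _ => 1) θ =
      Lk (fun g => ∑ q ∈ hfin.toFinset.image (CLS_r θ), ind θ q g) θ := by
    refine h1 _ _ fun g hg => ?_
    rw [Finset.sum_eq_single (CLS_r θ g)]
    · rw [CLS_ind_r]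
      unfold ind
      rw [if_pos ⟨1, by simp⟩]
    · intro q hq hqg
      obtain ⟨u, _, rfl⟩ := Finset.mem_image.mp hq
      rw [CLS_ind_r]
      unfold ind
      rw [if_neg]
      intro h
      exact hqg (CLS_r_eq θ h)
    · intro h
      exact absurd (Finset.mem_image_of_mem _ (hfin.mem_toFinset.mpr hg)) h
  have hsum : Lk (fun g => ∑ q ∈ hfin.toFinset.image (CLS_r θ), ind θ q g) θ =
      ∑ q ∈ hfin.toFinset.image (CLS_r θ), Lk (ind θ q) θ := by
    unfold Lk
    rw [Finset.sum_sub_distrib]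
    congr 1
    rw [Finset.sum_comm]
    refine Finset.sum_congr rfl fun i _ => ?_
    exact (hFXL J i (θ (FreeGroup.of i))).2.2.1 _ _ _
  rw [hLkeq, hsum]
  refine Finset.sum_eq_zero fun q hq => ?_
  obtain ⟨u, hu, rfl⟩ := Finset.mem_image.mp hq
  rw [CLS_ind_r]
  exact hcon u (hfin.mem_toFinset.mp hu)

end Pool.OA
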