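import Pool.Agent.Work.MP_8d5be4_oa.Interface

/-! # COM: products of two conjugates of elements of a free factor -/

set_option autoImplicit false

open Filter Pool.AutRed

namespace Pool.OA

theorem COM_split1 {X : Type} (P : X → Prop) : ∀ L : List X, (∃ x ∈ L, ¬ P x) →
    ∃ (α : List X) (x : X) (τ : List X), L = α ++ x :: τ ∧ (∀ y ∈ α, P y) ∧ ¬ P x := by
  intro L
  induction L with
  | nil =>
    rintro ⟨x, hx, _⟩
    exact absurd hx List.not_mem_nil
  | cons a L ih =>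
    intro h
    by_cases ha : P a
    · have h' : ∃ x ∈ L, ¬ P x := by
        obtain ⟨x, hx, hPx⟩ := h
        rcases List.mem_cons.1 hx with rfl | hx
        · exact absurd ha hPx
        · exact ⟨x, hx, hPx⟩
      obtain ⟨α, x, τ, h1, h2, h3⟩ := ih h'
      refine ⟨a :: α, x, τ, by rw [h1]; rfl, ?_, h3⟩
      intro y hy
      rcases List.mem_cons.1 hy with rfl | hy
      · exact ha
      · exact h2 y hy
    · exact ⟨[], a, L, rfl, fun y hy => absurd hy List.not_mem_nil, ha⟩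

theorem COM_split {X : Type} (P : X → Prop) (L : List X) (h : ∃ x ∈ L, ¬ P x) :
    ∃ (α γ β : List X), L = α ++ γ ++ β ∧ (∀ y ∈ α, P y) ∧ (∀ y ∈ β, P y) ∧
      (∃ x τ, γ = x :: τ ∧ ¬ P x) ∧ ∃ y τ, γ = τ ++ [y] ∧ ¬ P y := by
  obtain ⟨α, x, τ, h1, h2, h3⟩ := COM_split1 P L h
  obtain ⟨β, y, σ, h4, h5, h6⟩ := COM_split1 P (x :: τ).reverse ⟨x, by simp, h3⟩
  have h7 : x :: τ = (σ.reverse ++ [y]) ++ β.reverse := by
    have h8 := congrArg List.reverse h4
    rw [List.reverse_reverse] at h8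
    rw [h8]
    simp
  refine ⟨α, σ.reverse ++ [y], β.reverse, ?_, h2, fun z hz => h5 z (List.mem_reverse.1 hz), ?_,
    ⟨y, σ.reverse, rfl, h6⟩⟩
  · rw [h1, h7]
    simp
  · cases hσ : σ.reverse with
    | nil =>
      rw [hσ] at h7
      simp only [List.nil_append, List.cons_append, List.cons.injEq] at h7
      exact ⟨x, [], by rw [h7.1]; rfl, h3⟩
    | cons z ζ =>
      rw [hσ] at h7
      simp only [List.cons_append, List.cons.injEq] at h7
      exact ⟨x, ζ ++ [y], by rw [h7.1]; rfl, h3⟩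

theorem COM_lift {A J : Type} (ι : A → J) : ∀ L : List (J × Bool),
    (∀ p ∈ L, p.1 ∈ Set.range ι) → ∃ a : FreeGroup A, FreeGroup.map ι a = FreeGroup.mk L := by
  intro L
  induction L with
  | nil =>
    intro _
    exact ⟨1, by rw [map_one]; rfl⟩
  | cons p L ih =>
    intro h
    obtain ⟨a, ha⟩ := ih fun q hq => h q (List.mem_cons_of_mem p hq)
    obtain ⟨b, hb⟩ := h p List.mem_cons_self
    refine ⟨FreeGroup.mk [(b, p.2)] * a, ?_⟩
    rw [map_mul, ha, FreeGroup.map.mk]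
    simp only [List.map_cons, List.map_nil, hb]
    rw [FreeGroup.mul_mk]
    rfl

/-- the weight of one letter -/
def COM_w {J : Type} [DecidableEq J] (j₀ : J) : J → ℤ × ℤ := fun j => if j = j₀ then (1, 0) else 0

theorem COM_ps0 {A J : Type} [DecidableEq J] (ι : A → J) (j₀ : J) (h : ∀ a, ι a ≠ j₀)
    (f : FreeGroup A) : ps (COM_w j₀) (FreeGroup.map ι f) = 0 := by
  have h0 : ∀ a, COM_w j₀ (ι a) = 0 := fun a => if_neg (h a)
  induction f using snoc_ind with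
  | h1 => rw [map_one, ps_one]
  | hs g j ih => rw [map_mul, ps_mul, ih, FreeGroup.map.of, ps_of, h0, add_zero]
  | hi g j ih =>
    rw [map_mul, ps_mul, ih, map_inv, ps_inv, FreeGroup.map.of, ps_of, h0, neg_zero, add_zero]

theorem COM_reach {A J : Type} [DecidableEq J] (ι : A → J) (j₀ : J) (h : ∀ a, ι a ≠ j₀)
    (f : FreeGroup A) : Reach (COM_w j₀) 0 (FreeGroup.map ι f) := by
  have hb : ∀ f : FreeGroup A, Bx 0 (ps (COM_w j₀) (FreeGroup.map ι f)) := by
    intro f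
    rw [COM_ps0 ι j₀ h f]
    exact bx_zero 0
  induction f using snoc_ind with
  | h1 =>
    rw [map_one]
    exact Relation.ReflTransGen.refl
  | hs g j ih =>
    refine Relation.ReflTransGen.tail ih ⟨hb g, hb _, ι j, Or.inl ?_⟩
    rw [map_mul, FreeGroup.map.of]
  | hi g j ih =>
    refine Relation.ReflTransGen.tail ih ⟨hb g, hb _, ι j, Or.inr ?_⟩
    rw [map_mul, map_inv, FreeGroup.map.of, inv_mul_cancel_right]

theorem COM_app {J : Type} {L₁ L₂ : List (J × Bool)} (h1 : FreeGroup.IsReduced L₁)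
    (h2 : FreeGroup.IsReduced L₂) (h : ∀ x ∈ L₁.getLast?, ∀ y ∈ L₂.head?, x.1 ≠ y.1) :
    FreeGroup.IsReduced (L₁ ++ L₂) := by
  unfold FreeGroup.IsReduced at h1 h2 ⊢
  rw [List.isChain_append]
  exact ⟨h1, h2, fun x hx y hy hxy => absurd hxy (h x hx y hy)⟩

theorem COM_cyc {J : Type} [DecidableEq J] (S : J → Prop) (u₁ u₂ γ : List (J × Bool))
    (h1 : FreeGroup.IsReduced u₁) (h2 : FreeGroup.IsReduced u₂) (hγ : FreeGroup.IsReduced γ)
    (n1 : u₁ ≠ []) (n2 : u₂ ≠ []) (hu1 : ∀ p ∈ u₁, S p.1) (hu2 : ∀ p ∈ u₂, S p.1)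
    (hx : ∃ x τ, γ = x :: τ ∧ ¬ S x.1) (hy : ∃ y τ, γ = τ ++ [y] ∧ ¬ S y.1) :
    FreeGroup.IsCyclicallyReduced (u₁ ++ γ ++ u₂ ++ FreeGroup.invRev γ) := by
  obtain ⟨x, τ, hx1, hx2⟩ := hx
  obtain ⟨y, σ, hy1, hy2⟩ := hy
  have gh : γ.head? = some x := by rw [hx1]; rfl
  have gl : γ.getLast? = some y := by rw [hy1]; simp
  have ih : (FreeGroup.invRev γ).head? = some (y.1, !y.2) := by
    rw [hy1]
    simp [FreeGroup.invRev]
  have il : (FreeGroup.invRev γ).getLast? = some (x.1, !x.2) := by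
    rw [hx1]
    simp [FreeGroup.invRev]
  have hinv : FreeGroup.IsReduced (FreeGroup.invRev γ) := by
    have h3 := FreeGroup.isReduced_toWord (x := (FreeGroup.mk γ)⁻¹)
    rwa [FreeGroup.toWord_inv, FreeGroup.toWord_mk, hγ.reduce_eq] at h3
  have g0 : γ ≠ [] := by rw [hx1]; exact List.cons_ne_nil _ _
  have r1 : FreeGroup.IsReduced (u₁ ++ γ) := by
    refine COM_app h1 hγ fun a ha b hb hab => ?_
    rw [gh, Option.mem_def, Option.some.injEq] at hb
    apply hx2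
    rw [hb, ← hab]
    exact hu1 a (List.mem_of_mem_getLast? ha)
  have r2 : FreeGroup.IsReduced (u₁ ++ γ ++ u₂) := by
    refine COM_app r1 h2 fun a ha b hb hab => ?_
    rw [List.getLast?_append_of_ne_nil _ g0, gl, Option.mem_def, Option.some.injEq] at ha
    apply hy2
    rw [ha, hab]
    exact hu2 b (List.mem_of_mem_head? hb)
  have r3 : FreeGroup.IsReduced (u₁ ++ γ ++ u₂ ++ FreeGroup.invRev γ) := by
    refine COM_app r2 hinv fun a ha b hb hab => ?_
    rw [List.getLast?_append_of_ne_nil _ n2] at ha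
    rw [ih, Option.mem_def, Option.some.injEq] at hb
    apply hy2
    have h3 : b.1 = y.1 := by rw [← hb]
    rw [← h3, ← hab]
    exact hu2 a (List.mem_of_mem_getLast? ha)
  refine ⟨r3, fun a ha b hb hab => ?_⟩
  exfalso
  have i0 : FreeGroup.invRev γ ≠ [] := by
    intro h
    rw [h] at ih
    simp at ih
  rw [List.getLast?_append_of_ne_nil _ i0, il, Option.mem_def, Option.some.injEq] at ha
  rw [List.append_assoc, List.append_assoc, List.head?_append_of_ne_nil _ n1] at hb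
  apply hx2
  have h3 : a.1 = x.1 := by rw [← ha]
  rw [← h3, hab]
  exact hu1 b (List.mem_of_mem_head? hb)

theorem p_COM (hAXL : Stmt_AXL) : Stmt_COM := by
  intro A J _ _ ι hι f₁ f₂ f₃ g h hf1 hf2 H
  by_cases hall : ∀ p ∈ FreeGroup.toWord g, p.1 ∈ Set.range ι
  · obtain ⟨a, ha⟩ := COM_lift ι _ hall
    exact ⟨a, by rw [ha, FreeGroup.mk_toWord]⟩
  exfalso
  push Not at hall
  obtain ⟨α, γ, β, e1, hα, hβ, hγ1, hγ2⟩ :=
    COM_split (fun p : J × Bool => p.1 ∈ Set.range ι) (FreeGroup.toWord g) hall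
  obtain ⟨a₁, ha₁⟩ := COM_lift ι α hα
  obtain ⟨b₁, hb₁⟩ := COM_lift ι β hβ
  have hg : g = FreeGroup.map ι a₁ * FreeGroup.mk γ * FreeGroup.map ι b₁ := by
    conv_lhs => rw [← FreeGroup.mk_toWord (x := g), e1]
    rw [← FreeGroup.mul_mk, ← FreeGroup.mul_mk, ha₁, hb₁]
  have hγr : FreeGroup.IsReduced γ := by
    have h1 : FreeGroup.IsReduced (FreeGroup.toWord g) := FreeGroup.isReduced_toWord
    rw [e1] at h1
    exact List.IsChain.right_of_append (List.IsChain.left_of_append h1)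
  have hn1 : a₁⁻¹ * f₁ * a₁ ≠ 1 := by
    intro h1
    apply hf1
    have h2 := congrArg (fun t => a₁ * t * a₁⁻¹) h1
    simpa [mul_assoc] using h2
  have hn2 : b₁ * f₂ * b₁⁻¹ ≠ 1 := by
    intro h1
    apply hf2
    have h2 := congrArg (fun t => b₁⁻¹ * t * b₁) h1
    simpa [mul_assoc] using h2
  have hwd : ∀ f : FreeGroup A, ∀ p ∈ FreeGroup.toWord (FreeGroup.map ι f),
      p.1 ∈ Set.range ι := by
    intro f p hp
    rw [NRM_map ι hι, List.mem_map] at hp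
    obtain ⟨q, -, rfl⟩ := hp
    exact ⟨q.1, rfl⟩
  have hne : ∀ f : FreeGroup A, f ≠ 1 → FreeGroup.toWord (FreeGroup.map ι f) ≠ [] := by
    intro f hf h1
    rw [FreeGroup.toWord_eq_nil_iff] at h1
    apply hf
    apply FreeGroup.map_injective hι
    rw [h1, map_one]
  have hcyc := COM_cyc (fun j => j ∈ Set.range ι)
    (FreeGroup.toWord (FreeGroup.map ι (a₁⁻¹ * f₁ * a₁)))
    (FreeGroup.toWord (FreeGroup.map ι (b₁ * f₂ * b₁⁻¹))) γ FreeGroup.isReduced_toWord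
    FreeGroup.isReduced_toWord hγr (hne _ hn1) (hne _ hn2) (hwd _) (hwd _) hγ1 hγ2
  obtain ⟨⟨j₀, e⟩, τ, hγ3, hj₀⟩ := hγ1
  have hj : ∀ a, ι a ≠ j₀ := fun a ha => hj₀ ⟨a, ha⟩
  set R : List (J × Bool) := τ ++ FreeGroup.toWord (FreeGroup.map ι (b₁ * f₂ * b₁⁻¹)) ++
    FreeGroup.invRev γ with hR
  have hW : FreeGroup.toWord (FreeGroup.map ι (a₁⁻¹ * f₁ * a₁)) ++ γ ++
      FreeGroup.toWord (FreeGroup.map ι (b₁ * f₂ * b₁⁻¹)) ++ FreeGroup.invRev γ =
      FreeGroup.toWord (FreeGroup.map ι (a₁⁻¹ * f₁ * a₁)) ++ [(j₀, e)] ++ R := by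
    rw [hR, hγ3]
    simp
  have hmk : FreeGroup.mk (FreeGroup.toWord (FreeGroup.map ι (a₁⁻¹ * f₁ * a₁)) ++ [(j₀, e)] ++
      R) = (FreeGroup.map ι a₁)⁻¹ * (h * FreeGroup.map ι f₃ * h⁻¹) * FreeGroup.map ι a₁ := by
    rw [← hW, ← FreeGroup.mul_mk, ← FreeGroup.mul_mk, ← FreeGroup.mul_mk, FreeGroup.mk_toWord,
      FreeGroup.mk_toWord, ← FreeGroup.inv_mk, ← H, hg]
    simp only [map_mul, map_inv]
    group
  rw [hW] at hcyc
  have hq : (h⁻¹ * FreeGroup.map ι a₁) * FreeGroup.mk (FreeGroup.toWord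
      (FreeGroup.map ι (a₁⁻¹ * f₁ * a₁)) ++ [(j₀, e)] ++ R) * (h⁻¹ * FreeGroup.map ι a₁)⁻¹ =
      FreeGroup.map ι f₃ := by
    rw [hmk]
    group
  have hps : ps (COM_w j₀) (FreeGroup.mk (FreeGroup.toWord
      (FreeGroup.map ι (a₁⁻¹ * f₁ * a₁)) ++ [(j₀, e)] ++ R)) = 0 := by
    rw [hmk]
    simp only [ps_mul, ps_inv, COM_ps0 ι j₀ hj]
    abel
  have hreach := hAXL J (COM_w j₀) 0 _ _ _ (h⁻¹ * FreeGroup.map ι a₁) hcyc hps
    (by rw [hq]; exact COM_reach ι j₀ hj f₃)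
  have hbx := (blk_RCH J (COM_w j₀)).1 _ _ hreach
  have h1 := hbx.1
  cases e
  · have h2 : FreeGroup.mk [(j₀, false)] = (FreeGroup.of j₀)⁻¹ := by
      rw [mk_cons_false]
      exact mul_one _
    rw [h2, ps_inv, ps_of, COM_w, if_pos rfl] at h1
    norm_num at h1
  · have h2 : FreeGroup.mk [(j₀, true)] = FreeGroup.of j₀ := rfl
    rw [h2, ps_of, COM_w, if_pos rfl] at h1
    norm_num at h1

end Pool.OA
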