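import Pool.Agent.Work.MP_8d5be4_oa.Interface

/-!
Row MP_8d5be4_al, THEOREM OA: block DAT (the data of the reduction).
-/

set_option autoImplicit false

open Filter Pool.AutRed

namespace Pool.OA

theorem DAT_comm {H : Type*} [Group H] (b : MulAut H) (x : H) :
    b * MulAut.conj x = MulAut.conj (b x) * b := by
  ext t
  simp [MulAut.mul_apply, MulAut.conj_apply]

theorem DAT_pow {H : Type*} [Group H] (b : MulAut H) (g : H) (k : ℕ) :
    (MulAut.conj g * b) ^ k = MulAut.conj (gp b g k) * b ^ k := by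
  induction k with
  | zero => simp [gp]
  | succ k ih =>
    rw [pow_succ', ih, gp, map_mul, pow_succ' b k]
    calc MulAut.conj g * b * (MulAut.conj (gp b g k) * b ^ k)
        = MulAut.conj g * (b * MulAut.conj (gp b g k)) * b ^ k := by simp only [mul_assoc]
      _ = _ := by rw [DAT_comm]; simp only [mul_assoc]

theorem DAT_gp {H : Type*} [Group H] (b : MulAut H) (g s : H) (k : ℕ) :
    gp b (s⁻¹ * g * b s) k = s⁻¹ * gp b g k * (b ^ k) s := by
  induction k with
  | zero => simp [gp]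
  | succ k ih =>
    rw [gp, ih, gp, pow_succ' b k, MulAut.mul_apply, map_mul, map_mul, map_inv]
    group

theorem DAT_conj_pow {H : Type*} [Group H] (a d : H) (k : ℕ) :
    d⁻¹ * a ^ k * d = (d⁻¹ * a * d) ^ k := by
  induction k with
  | zero => simp
  | succ k ih =>
    rw [pow_succ, pow_succ, ← ih]
    group

theorem DAT_det (hMAT : Stmt_MAT) (n : ℕ) (a : MulAut (FreeGroup (Fin n))) :
    (mat a).det ≠ 0 := by
  obtain ⟨h1, h2, _⟩ := hMAT (Fin n)
  have h := h1 a a⁻¹
  rw [mul_inv_cancel, h2] at h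
  have h' := congrArg Matrix.det h
  rw [Matrix.det_one, Matrix.det_mul] at h'
  intro h0
  rw [h0, mul_zero] at h'
  exact one_ne_zero h'

theorem p_DAT (hNIE : Stmt_NIE) (hMAT : Stmt_MAT) (hTRK : Stmt_TRK) (hNMP : Stmt_NMP) :
    Stmt_DAT := by
  intro n hn a b d g h
  obtain ⟨k, hk1, hk2, hk3⟩ := hTRK n hn (mat a) (DAT_det hMAT n a)
  have hL : Lk (fun _ => 1) (a ^ k) ≠ 0 := by
    rw [Lk_one, (hMAT (Fin n)).2.2 a k]
    intro h0
    exact hk3 (by linarith)
  have hc : d⁻¹ * a ^ k * d = MulAut.conj (gp b g k) * b ^ k := by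
    rw [DAT_conj_pow, h, DAT_pow]
  obtain ⟨u, v, s, hu, hv, huv⟩ := hNIE (Fin n) (a ^ k) (b ^ k) d (gp b g k) hc hL
  refine ⟨k, d * MulAut.conj s, s⁻¹ * g * b s, u⁻¹, v⁻¹, hk1, hk2, ?_, ?_, ?_, ?_⟩
  · calc (d * MulAut.conj s)⁻¹ * a * (d * MulAut.conj s)
        = (MulAut.conj s)⁻¹ * (d⁻¹ * a * d) * MulAut.conj s := by group
      _ = (MulAut.conj s)⁻¹ * MulAut.conj g * (b * MulAut.conj s) := by
          rw [h]; simp only [mul_assoc]
      _ = _ := by
          have e1 : MulAut.conj (s⁻¹ * g * b s) =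
              (MulAut.conj s)⁻¹ * MulAut.conj g * MulAut.conj (b s) := by
            rw [map_mul MulAut.conj, map_mul MulAut.conj, map_inv MulAut.conj]
          rw [DAT_comm b s, e1]
          simp only [mul_assoc]
  · have h1 : (d * MulAut.conj s)⁻¹ u⁻¹ = s⁻¹ * (d⁻¹ u)⁻¹ * s := by
      rw [mul_inv_rev, MulAut.mul_apply, map_inv, ← map_inv MulAut.conj s, MulAut.conj_apply]
      simp
    rw [h1, DAT_gp]
    have h2 : d⁻¹ u = gp b g k * ((b ^ k) s * v * s⁻¹) := by
      rw [← huv]; group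
    rw [h2]
    group
  · rw [FreeGroup.norm_inv_eq]
    exact hu.trans (hNMP (Fin n) a k)
  · rw [FreeGroup.norm_inv_eq]
    exact hv.trans (hNMP (Fin n) b k)

end Pool.OA
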