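import Pool.Agent.Work.MP_8d5be4_oa.Interface

set_option autoImplicit false

namespace Pool.OA

open Filter Pool.AutRed

section
variable {A : Type} {p : ℕ}

theorem DPK_jA (K : ℕ) (a : MulAut (FreeGroup A)) (w : FreeGroup A) (m : ℕ) (h : FreeGroup A) :
    (⇑(dP p K a w))^[m] (jA A p h) = jA A p ((a ^ m) h) := by
  induction m generalizing h with
  | zero => simp
  | succ m ih =>
    rw [Function.iterate_succ_apply, dP_jA, ih, pow_succ, MulAut.mul_apply]

theorem DPK_j2 (K : ℕ) (a : MulAut (FreeGroup A)) (w : FreeGroup A) (m : ℕ) (c : F2) :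
    (⇑(dP p K a w))^[m] (j2 A p c) = j2 A p ((psi K ^ m) c) := by
  induction m generalizing c with
  | zero => simp
  | succ m ih =>
    rw [Function.iterate_succ_apply, dP_j2, ih, pow_succ, MulAut.mul_apply]

theorem DPK_E (K : ℕ) (a : MulAut (FreeGroup A)) (w : FreeGroup A) (j : ℕ) (m : ℕ)
    (hj : j < p + 2) (hm : j + m < p + 2) :
    (⇑(dP p K a w))^[m] (EE A p ⟨j, hj⟩) = EE A p ⟨j + m, hm⟩ := by
  induction m with
  | zero => rfl
  | succ m ih =>
    have h1 : j + m < p + 2 := by omega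
    have h2 : j + m < p + 1 := by omega
    rw [Function.iterate_succ_apply', ih h1]
    exact dP_E_castSucc K a w ⟨j + m, h2⟩

theorem DPK_full (K : ℕ) (a : MulAut (FreeGroup A)) (w : FreeGroup A) (j : Fin (p + 2)) :
    (⇑(dP p K a w))^[p + 2] (EE A p j) =
      (jA A p ((a ^ j.val) w))⁻¹ * EE A p j * j2 A p ((psi K ^ j.val) xx) := by
  obtain ⟨j, hj⟩ := j
  have h1 : p + 2 = j + (1 + (p + 1 - j)) := by omega
  have h2 : (⇑(dP p K a w))^[p + 1 - j] (EE A p ⟨j, hj⟩) = EE A p (Fin.last (p + 1)) := by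
    rw [DPK_E K a w j (p + 1 - j) hj (by omega)]
    congr 1
    apply Fin.ext
    show j + (p + 1 - j) = p + 1
    omega
  have h3 : (⇑(dP p K a w))^[j] (EE A p 0) = EE A p ⟨j, hj⟩ := by
    have h4 := DPK_E (A := A) K a w 0 j (by omega : 0 < p + 2) (by omega)
    rw [show (0 : Fin (p + 2)) = ⟨0, by omega⟩ from rfl, h4]
    congr 1
    apply Fin.ext
    show 0 + j = j
    omega
  have h5 : (⇑(dP p K a w))^[j + (1 + (p + 1 - j))] (EE A p ⟨j, hj⟩) =
      (jA A p ((a ^ j) w))⁻¹ * EE A p ⟨j, hj⟩ * j2 A p ((psi K ^ j) xx) := by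
    rw [Function.iterate_add_apply, Function.iterate_add_apply, h2, Function.iterate_one,
      dP_E_last, iterate_map_mul, iterate_map_mul, iterate_map_inv, h3, DPK_jA, DPK_j2]
  rw [← h1] at h5
  exact h5

end

theorem p_DPK : Stmt_DPK := by
  intro A p K a w b
  rw [bP, iterate_map_mul, iterate_map_mul, iterate_map_mul, iterate_map_inv, DPK_full, DPK_full,
    DPK_jA, DPK_j2, tr]
  simp only [map_mul, map_inv, mul_inv_rev, inv_inv, mul_assoc]

end Pool.OA
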