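import Pool.Agent.Work.MP_8d5be4_oa.Interface
set_option autoImplicit false
open Filter Pool.AutRed
namespace Pool.OA

theorem p_DYI (hD : Stmt_DYN) : Stmt_DYI := by
  intro A p K a w b L hb i
  induction i with
  | zero => exact ⟨b, L, 1, hb, rfl, rfl, rfl, by simp⟩
  | succ i ih =>
    obtain ⟨b', L', z, hC, hy, hj, hl, he⟩ := ih
    obtain ⟨b'', L'', z', hC', hj', hl', hy', he'⟩ := hD A p K a w b' L' hC
    refine ⟨b'', L'', (⇑(dP p K a w))^[p + 2] z * z', hC', ?_, hj'.trans hj, hl'.trans hl, ?_⟩
    · rw [hy', hj, hl, hy, Function.iterate_succ_apply']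
    · have h1 : (p + 2) * (i + 1) = (p + 2) + (p + 2) * i := by ring
      rw [h1, Function.iterate_add_apply, he, iterate_map_mul, iterate_map_mul, iterate_map_inv,
        he']
      group

end Pool.OA
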