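import Pool.Agent.Work.MP_8d5be4_oa.Interface

/-!
Row MP_8d5be4_al, THEOREM OA: block DYN, the period of the dynamics on cyclically good lists of
blocks.
-/

set_option autoImplicit false

open Filter Pool.AutRed

namespace Pool.OA

section
variable {A : Type} {p : ℕ}

/-- The new block. -/
def DYN_nb (K : ℕ) (a : MulAut (FreeGroup A)) (w : FreeGroup A) (q : Fin (p + 2)) (b : Blk A p) :
    Blk A p :=
  ⟨(a ^ q.val) w * ((a ^ (p + 2)) b.f * ((a ^ b.j.val) w)⁻¹), b.j, tr K p b.j b.l b.y, b.l⟩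

/-- The new list of blocks. -/
def DYN_nx (K : ℕ) (a : MulAut (FreeGroup A)) (w : FreeGroup A) :
    Fin (p + 2) → List (Blk A p) → List (Blk A p)
  | _, [] => []
  | q, b :: L => DYN_nb K a w q b :: DYN_nx K a w b.l L

/-- The `l` of the last block (`q` for the empty list). -/
def DYN_q : Fin (p + 2) → List (Blk A p) → Fin (p + 2)
  | q, [] => q
  | _, b :: L => DYN_q b.l L

theorem DYN_key (hD : Stmt_DPK) (K : ℕ) (a : MulAut (FreeGroup A)) (w : FreeGroup A)
    (L : List (Blk A p)) : ∀ q : Fin (p + 2),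
    jA A p ((a ^ q.val) w) * (⇑(dP p K a w))^[p + 2] (vP L) =
      vP (DYN_nx K a w q L) * jA A p ((a ^ (DYN_q q L).val) w) := by
  induction L with
  | nil =>
    intro q
    simp only [vP_nil, DYN_nx, DYN_q, one_mul, iterate_map_one, mul_one]
  | cons b L ih =>
    intro q
    rw [vP_cons, iterate_map_mul, hD, DYN_nx, vP_cons, DYN_q, mul_assoc (bP _), ← ih b.l, DYN_nb,
      bP]
    simp only [map_mul, map_inv, mul_assoc]

/-- The new `f` at an equal turn is trivial only if the old one is. -/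
theorem DYN_f (K : ℕ) (a : MulAut (FreeGroup A)) (w : FreeGroup A) {q : Fin (p + 2)}
    {b : Blk A p} (h : q = b.j) (h1 : (DYN_nb K a w q b).f = 1) : b.f = 1 := by
  subst h
  have h2 : (a ^ b.j.val) w * ((a ^ (p + 2)) b.f * ((a ^ b.j.val) w)⁻¹) = 1 := h1
  rw [← mul_assoc, conj_eq_one_iff] at h2
  exact (EmbeddingLike.map_eq_one_iff (f := a ^ (p + 2))).1 h2

theorem DYN_Vn (K : ℕ) (a : MulAut (FreeGroup A)) (w : FreeGroup A) (q : Fin (p + 2))
    {b : Blk A p} (h : Vn b) : Vn (DYN_nb K a w q b) := by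
  rintro ⟨h1, h2⟩
  have h3 : b.j = b.l := h1
  have h4 : tr K p b.j b.l b.y = 1 := h2
  rw [← h3, tr, conj_eq_one_iff] at h4
  exact h ⟨h3, (EmbeddingLike.map_eq_one_iff (f := psi K ^ (p + 2))).1 h4⟩

theorem DYN_vn (K : ℕ) (a : MulAut (FreeGroup A)) (w : FreeGroup A) (L : List (Blk A p)) :
    ∀ q : Fin (p + 2), (∀ b ∈ L, Vn b) → ∀ b ∈ DYN_nx K a w q L, Vn b := by
  induction L with
  | nil =>
    intro q _ b hb
    simp [DYN_nx] at hb
  | cons b L ih =>
    intro q h c hc
    rw [DYN_nx, List.mem_cons] at hc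
    rcases hc with rfl | hc
    · exact DYN_Vn K a w q (h b List.mem_cons_self)
    · exact ih b.l (fun d hd => h d (List.mem_cons_of_mem _ hd)) c hc

theorem DYN_An (K : ℕ) (a : MulAut (FreeGroup A)) (w : FreeGroup A) (q : Fin (p + 2))
    {b c : Blk A p} (h : An b c) : An (DYN_nb K a w q b) (DYN_nb K a w b.l c) := by
  rintro ⟨h1, h2⟩
  have h3 : b.l = c.j := h1
  exact h ⟨h3, DYN_f K a w h3 h2⟩

theorem DYN_chain (K : ℕ) (a : MulAut (FreeGroup A)) (w : FreeGroup A) (L : List (Blk A p)) :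
    ∀ q : Fin (p + 2), L.IsChain An → (DYN_nx K a w q L).IsChain An := by
  induction L with
  | nil =>
    intro q _
    simp [DYN_nx]
  | cons b L ih =>
    intro q h
    cases L with
    | nil => simp [DYN_nx]
    | cons c L =>
      rw [List.isChain_cons_cons] at h
      have h2 := ih b.l h.2
      rw [DYN_nx]
      rw [DYN_nx] at h2 ⊢
      rw [List.isChain_cons_cons]
      exact ⟨DYN_An K a w q h.1, h2⟩

theorem DYN_last (K : ℕ) (a : MulAut (FreeGroup A)) (w : FreeGroup A) (L : List (Blk A p)) :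
    ∀ (q : Fin (p + 2)) (b : Blk A p),
      (∀ c ∈ (DYN_nx K a w q (b :: L)).getLast?, c.l = DYN_q b.l L) ∧
      ∃ c ∈ (b :: L).getLast?, c.l = DYN_q b.l L := by
  induction L with
  | nil =>
    intro q b
    refine ⟨?_, b, by simp, rfl⟩
    intro c hc
    simp only [DYN_nx, List.getLast?_singleton, Option.mem_def, Option.some.injEq] at hc
    subst hc
    rfl
  | cons d L ih =>
    intro q b
    obtain ⟨h1, c, hc, h2⟩ := ih b.l d
    refine ⟨?_, c, ?_, h2⟩
    · intro e he
      refine h1 e ?_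
      simpa [DYN_nx, List.getLast?_cons_cons] using he
    · rw [List.getLast?_cons_cons]
      exact hc

theorem DYN_CG (K : ℕ) (a : MulAut (FreeGroup A)) (w : FreeGroup A) (b : Blk A p)
    (L : List (Blk A p)) (h : CG (b :: L)) : CG (DYN_nx K a w (DYN_q b.l L) (b :: L)) where
  ne := by simp [DYN_nx]
  vn := DYN_vn K a w _ _ h.vn
  chain := DYN_chain K a w _ _ h.chain
  cyc := by
    obtain ⟨h1, c, hc, h2⟩ := DYN_last K a w L (DYN_q b.l L) b
    have h3 : An c b := h.cyc c hc b (by simp)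
    intro d hd e he
    have h4 : d.l = DYN_q b.l L := h1 d hd
    have h5 : DYN_nb K a w (DYN_q b.l L) b = e := by
      simpa [DYN_nx] using he
    subst h5
    rintro ⟨h6, h7⟩
    have h8 : DYN_q b.l L = b.j := by rw [← h4]; exact h6
    exact h3 ⟨by rw [h2, h8], DYN_f K a w h8 h7⟩

end

/-- Block DYN. -/
theorem p_DYN (hD : Stmt_DPK) : Stmt_DYN := by
  intro A p K a w b L h
  refine ⟨DYN_nb K a w (DYN_q b.l L) b, DYN_nx K a w b.l L,
    (jA A p ((a ^ (DYN_q b.l L).val) w))⁻¹, ?_, rfl, rfl, rfl, ?_⟩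
  · have := DYN_CG K a w b L h
    rwa [DYN_nx] at this
  · have h1 := DYN_key hD K a w (b :: L) (DYN_q b.l L)
    have h2 : DYN_q (DYN_q b.l L) (b :: L) = DYN_q b.l L := by rw [DYN_q]
    rw [h2, DYN_nx] at h1
    rw [inv_inv, mul_assoc, ← h1, inv_mul_cancel_left]

end Pool.OA
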