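import Pool.Agent.Work.MP_8d5be4_oa.Interface

set_option autoImplicit false

namespace Pool.OA

open Filter Pool.AutRed

theorem ELL_it {A : Type} {p : ℕ} (K : ℕ) (b : MulAut (FreeGroup A)) (w : FreeGroup A)
    (z : GG A p) (m : ℕ) :
    ∃ u : GP A p, eta A p ((dA p K b w ^ m) z) = u * (⇑(dP p K b w))^[m] (eta A p z) * u⁻¹ := by
  induction m with
  | zero => exact ⟨1, by simp⟩
  | succ m ih =>
    obtain ⟨u, hu⟩ := ih
    refine ⟨(eta A p (SS A p 1))⁻¹ * dP p K b w u, ?_⟩
    rw [pow_succ', MulAut.mul_apply, eta_dA, hu, map_mul, map_mul, map_inv,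
      ← Function.iterate_succ_apply' (⇑(dP p K b w)) m]
    group

theorem p_ELL (h1 : Stmt_TEP) (h2 : Stmt_TEL) (h3 : Stmt_AXL) (h4 : Stmt_RED) (h5 : Stmt_EXB)
    (h6 : Stmt_DYI) (h7 : Stmt_RET) (h8 : Stmt_RJ2) : Stmt_ELL := by
  intro A _ p K hK M σ hM b w z n hyp
  rcases h5 A p z with h | h | ⟨L, h0, hCG, hz⟩
  · exact Or.inl h
  · exact Or.inr h
  exfalso
  cases L with
  | nil => exact hCG.ne rfl
  | cons b0 L0 =>
    have key : ∀ i : ℕ, Reach w2 (2 * n) ((tr K p b0.j b0.l)^[i] b0.y) := by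
      intro i
      obtain ⟨b', L', z', hCG', hy', hj', hl', hd⟩ := h6 A p K b w b0 L0 hCG i
      obtain ⟨u, hu⟩ := ELL_it K b w z ((p + 2) * i)
      obtain ⟨hps, h, hR⟩ := hyp ((p + 2) * i)
      have e1 : eta A p (h * (dA p K b w ^ ((p + 2) * i)) z * h⁻¹) =
          (eta A p h * u * (⇑(dP p K b w))^[(p + 2) * i] (eta A p h0) * z') * vP (b' :: L') *
            (eta A p h * u * (⇑(dP p K b w))^[(p + 2) * i] (eta A p h0) * z')⁻¹ := by
        rw [map_mul, map_mul, map_inv, hu, hz, map_mul, map_mul, map_inv, eta_vG,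
          iterate_map_mul, iterate_map_mul, iterate_map_inv, hd]
        group
      have e2 := h7 A p K M σ n _ hR
      have e3 : ps (wP A p K M σ) (eta A p (h * (dA p K b w ^ ((p + 2) * i)) z * h⁻¹)) = 0 := by
        rw [ps_eta, ps_mul, ps_mul, ps_inv, hps]
        abel
      rw [e1] at e2 e3
      obtain ⟨P, R, hPR⟩ := wds_split b' L'
      have e4 : vP (b' :: L') = FreeGroup.mk (P ++ wy b' ++ R) := by
        rw [← hPR, mk_wds]
      rw [e4] at e2 e3
      have e5 : ps (wP A p K M σ) (FreeGroup.mk (P ++ wy b' ++ R)) = 0 := by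
        rw [ps_mul, ps_mul, ps_inv] at e3
        have := e3
        abel_nf at this
        simpa using this
      have e6 : FreeGroup.IsCyclicallyReduced (P ++ wy b' ++ R) := by
        rw [← hPR]
        exact h4 A p (b' :: L') hCG'
      have e7 := h3 _ (wP A p K M σ) n P (wy b') R _ e6 e5 e2
      rw [mk_wy] at e7
      have e8 := h8 A p K M σ (2 * n) b'.y hM e7
      rw [hy'] at e8
      exact e8
    have hV : ¬ (b0.j = b0.l ∧ b0.y = 1) := hCG.vn b0 (by simp)
    obtain ⟨i, hi⟩ := (te h1 h2 hK hV (2 * n)).exists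
    exact hi (key i)

end Pool.OA
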