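import Pool.Agent.Work.MP_8d5be4_oa.Interface

set_option autoImplicit false

namespace Pool.OA

open Filter Pool.AutRed

theorem ESK_diff {K k : ℕ} {T : ℤ × ℤ → ℤ × ℤ}
    (hT : ∀ s t, T s - T t = (TT K 0)^[k] (s - t)) (s : ℤ × ℤ) (i : ℕ) :
    T^[i + 1] s - T^[i] s = (TT K 0)^[k * i] (T s - s) := by
  induction i with
  | zero => simp
  | succ i ih =>
    rw [Function.iterate_succ_apply' T (i + 1), Function.iterate_succ_apply' T i, hT,
      ← Function.iterate_succ_apply' T i, ih, ← Function.iterate_add_apply,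
      show k + k * i = k * (i + 1) by ring]

theorem p_ESK : Stmt_ESK := by
  intro K hK k hk T hT s hne n
  obtain ⟨lam, hlam, hq, hirr⟩ := blk_IRR K hK
  have hKr : (1 : ℝ) ≤ K := by exact_mod_cast hK
  have hl1 : 1 < lam := by linarith
  have hD : T s - s ≠ 0 := sub_ne_zero.mpr hne
  have hlD : ESC_l lam (T s - s) ≠ 0 := fun h => hD (hirr _ h)
  have hinj : Function.Injective (fun i : ℕ => T^[i] s) := by
    intro i j hij
    have hij' : T^[i] s = T^[j] s := hij
    have h1 : T^[i + 1] s = T^[j + 1] s := by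
      rw [Function.iterate_succ_apply', Function.iterate_succ_apply', hij']
    have h2 := ESK_diff hT s i
    have h3 := ESK_diff hT s j
    rw [hij', h1, h3] at h2
    have h4 := congrArg (ESC_l lam) h2
    rw [ESC_l_iter hq, ESC_l_iter hq] at h4
    have h5 : lam ^ (k * j) = lam ^ (k * i) := mul_right_cancel₀ hlD h4
    have h6 : k * j = k * i := (pow_right_injective₀ (by linarith) hl1.ne') h5
    exact (Nat.eq_of_mul_eq_mul_left (by omega) h6).symm
  have ht : Tendsto (fun i : ℕ => T^[i] s) atTop cofinite := by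
    rw [← Nat.cofinite_eq_atTop]
    exact hinj.tendsto_cofinite
  have hf := (bx_finite n).compl_mem_cofinite
  exact ht.eventually hf

end Pool.OA
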