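import Pool.Agent.Work.MP_8d5be4_oa.Interface

set_option autoImplicit false

open Filter Pool.AutRed

namespace Pool.OA

/-- the three cases -/
def EXB_P (A : Type) (p : ℕ) (z : GG A p) : Prop :=
  (∃ (f : FreeGroup A) (h : GG A p), z = h * gA A p f * h⁻¹) ∨
  (∃ (y : F2) (h : GG A p), z = h * g2 A p y * h⁻¹) ∨
  (∃ (L : List (Blk A p)) (h : GG A p), CG L ∧ z = h * vG L * h⁻¹)

theorem EXB_conj {A : Type} {p : ℕ} (z z' g : GG A p) (hz : z' = g * z * g⁻¹)
    (h : EXB_P A p z) : EXB_P A p z' := by
  subst hz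
  rcases h with ⟨f, h, rfl⟩ | ⟨y, h, rfl⟩ | ⟨L, h, hL, rfl⟩
  · exact Or.inl ⟨f, g * h, by group⟩
  · exact Or.inr (Or.inl ⟨y, g * h, by group⟩)
  · exact Or.inr (Or.inr ⟨L, g * h, hL, by group⟩)

theorem EXB_gA {A : Type} {p : ℕ} (f : FreeGroup A) : EXB_P A p (gA A p f) :=
  Or.inl ⟨f, 1, by group⟩

/-- absorbing an element of `F_A` in the next block -/
theorem EXB_abs {A : Type} {p : ℕ} (f : FreeGroup A) (b : Blk A p) :
    gA A p f * bG b = bG ⟨f * b.f, b.j, b.y, b.l⟩ := by
  simp only [bG, map_mul]
  group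

theorem EXB_join {A : Type} {p : ℕ} (b b' : Blk A p) (h1 : b.l = b'.j) (h2 : b'.f = 1) :
    bG b * bG b' = bG ⟨b.f, b.j, b.y * b'.y, b'.l⟩ := by
  simp only [bG, map_mul, h1, h2, map_one]
  group

theorem EXB_main {A : Type} {p : ℕ} (n : ℕ) : ∀ L : List (Blk A p), L.length = n →
    EXB_P A p (vG L) := by
  induction n using Nat.strong_induction_on with
  | _ n ih =>
    intro L hn
    by_cases hne : L = []
    · subst hne
      rw [vG_nil, ← map_one (gA A p)]
      exact EXB_gA 1
    by_cases hcg : CG L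
    · exact Or.inr (Or.inr ⟨L, 1, hcg, by group⟩)
    by_cases hvn : ∀ b ∈ L, Vn b
    · by_cases hch : L.IsChain An
      · -- the cyclic condition fails
        have hcyc : ¬ ∀ b ∈ L.getLast?, ∀ b' ∈ L.head?, An b b' := fun h =>
          hcg ⟨hne, hvn, hch, h⟩
        push Not at hcyc
        obtain ⟨b, hb, b', hb', hA⟩ := hcyc
        rw [An, not_not] at hA
        obtain ⟨L', hL'⟩ : ∃ L', L = L' ++ [b] := by
          refine ⟨L.dropLast, ?_⟩
          exact (List.dropLast_append_getLast? b hb).symm
        subst hL'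
        rcases L' with _ | ⟨c, L''⟩
        · -- one block
          simp only [List.nil_append, List.head?_cons, Option.mem_def, Option.some.injEq] at hb'
          subst hb'
          simp only [List.nil_append, vG_cons, vG_nil, mul_one]
          refine Or.inr (Or.inl ⟨b.y, SS A p b.j, ?_⟩)
          rw [bG, hA.2, map_one, one_mul, ← hA.1]
        · simp only [List.cons_append, List.head?_cons, Option.mem_def,
            Option.some.injEq] at hb'
          subst hb'
          have h1 := ih (L''.length + 1) (by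
            rw [← hn]; simp) (⟨b.f, b.j, b.y * c.y, c.l⟩ :: L'') (by simp)
          rw [vG_cons, ← EXB_join b c hA.1 hA.2] at h1
          refine EXB_conj _ _ (bG b)⁻¹ ?_ h1
          rw [vG_append, vG_cons, vG_cons, vG_nil]
          group
      · rw [List.isChain_iff_forall_rel_of_append_cons_cons] at hch
        push Not at hch
        obtain ⟨b, b', L₁, L₂, hL, hA⟩ := hch
        rw [An, not_not] at hA
        subst hL
        have h1 := ih (L₁ ++ ⟨b.f, b.j, b.y * b'.y, b'.l⟩ :: L₂).length (by
          rw [← hn]; simp) (L₁ ++ ⟨b.f, b.j, b.y * b'.y, b'.l⟩ :: L₂) rfl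
        rw [vG_append, vG_cons, ← EXB_join b b' hA.1 hA.2] at h1
        rw [vG_append, vG_cons, vG_cons, ← mul_assoc (bG b)]
        exact h1
    · push Not at hvn
      obtain ⟨b, hb, hV⟩ := hvn
      rw [Vn, not_not] at hV
      obtain ⟨L₁, L₂, rfl⟩ := List.append_of_mem hb
      have hbG : bG b = gA A p b.f := by
        rw [bG, hV.2, hV.1, map_one]
        group
      have h1 : EXB_P A p (bG b * vG (L₂ ++ L₁)) := by
        rcases hL : L₂ ++ L₁ with _ | ⟨b', L'⟩
        · rw [vG_nil, mul_one, hbG]
          exact EXB_gA _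
        · rw [vG_cons, ← mul_assoc, hbG, EXB_abs]
          have h2 := ih (L'.length + 1) (by
            have := congrArg List.length hL
            rw [← hn]
            simp only [List.length_append, List.length_cons] at this ⊢
            omega) (⟨b.f * b'.f, b'.j, b'.y, b'.l⟩ :: L') (by simp)
          rw [vG_cons] at h2
          exact h2
      refine EXB_conj _ _ (vG L₁) ?_ h1
      rw [vG_append, vG_append, vG_cons]
      group

theorem p_EXB (hEXG : Stmt_EXG) : Stmt_EXB := by
  intro A p z
  obtain ⟨L, f, rfl⟩ := hEXG A p z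
  have h1 : EXB_P A p (gA A p f * vG L) := by
    rcases L with _ | ⟨b, L'⟩
    · rw [vG_nil, mul_one]; exact EXB_gA f
    · rw [vG_cons, ← mul_assoc, EXB_abs, ← vG_cons]
      exact EXB_main _ _ rfl
  exact EXB_conj _ _ (gA A p f)⁻¹ (by group) h1

end Pool.OA
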