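import Pool.Agent.Work.MP_8d5be4_oa.Interface

/-! Row MP_8d5be4_al, THEOREM OA: block EXG. -/

set_option autoImplicit false

open Filter Pool.AutRed

namespace Pool.OA

/-- The elements `vG L * gA f`. -/
def ExS (A : Type) (p : ℕ) (z : GG A p) : Prop :=
  ∃ (L : List (Blk A p)) (f : FreeGroup A), z = vG L * gA A p f

theorem exS_block {A : Type} {p : ℕ} {z : GG A p} (hz : ExS A p z) (w : GG A p)
    (hw : ∀ f : FreeGroup A, ∃ b : Blk A p, bG b = gA A p f * w) : ExS A p (z * w) := by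
  obtain ⟨L, f, rfl⟩ := hz
  obtain ⟨b, hb⟩ := hw f
  refine ⟨L ++ [b], 1, ?_⟩
  rw [vG_append, vG_cons, vG_nil, hb, map_one, mul_one, mul_one, mul_assoc]

theorem exS_f {A : Type} {p : ℕ} {z : GG A p} (hz : ExS A p z) (g : FreeGroup A) :
    ExS A p (z * gA A p g) := by
  obtain ⟨L, f, rfl⟩ := hz
  exact ⟨L, f * g, by rw [map_mul, mul_assoc]⟩

theorem exS_pos {A : Type} {p : ℕ} {z : GG A p} (hz : ExS A p z)
    (j : (A ⊕ Fin (p + 1)) ⊕ Bool) : ExS A p (z * FreeGroup.of j) := by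
  rcases j with ((x | i) | c)
  · have h : (FreeGroup.of (Sum.inl (Sum.inl x)) : GG A p) = gA A p (FreeGroup.of x) :=
      (iA_of x).symm
    rw [h]
    exact exS_f hz _
  · refine exS_block hz _ (fun f => ⟨⟨f, i.succ, 1, 0⟩, ?_⟩)
    simp only [bG, SS_succ, SS_zero, map_one, mul_one, inv_one]
  · have h : (FreeGroup.of (Sum.inr c) : GG A p) = g2 A p (FreeGroup.of c) := (i2_of c).symm
    rw [h]
    refine exS_block hz _ (fun f => ⟨⟨f, 0, FreeGroup.of c, 0⟩, ?_⟩)
    simp only [bG, SS_zero, mul_one, inv_one]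

theorem exS_neg {A : Type} {p : ℕ} {z : GG A p} (hz : ExS A p z)
    (j : (A ⊕ Fin (p + 1)) ⊕ Bool) : ExS A p (z * (FreeGroup.of j)⁻¹) := by
  rcases j with ((x | i) | c)
  · have h : (FreeGroup.of (Sum.inl (Sum.inl x)) : GG A p) = gA A p (FreeGroup.of x) :=
      (iA_of x).symm
    rw [h, ← map_inv]
    exact exS_f hz _
  · refine exS_block hz _ (fun f => ⟨⟨f, 0, 1, i.succ⟩, ?_⟩)
    simp only [bG, SS_succ, SS_zero, map_one, mul_one]
  · have h : (FreeGroup.of (Sum.inr c) : GG A p) = g2 A p (FreeGroup.of c) := (i2_of c).symm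
    rw [h, ← map_inv]
    refine exS_block hz _ (fun f => ⟨⟨f, 0, (FreeGroup.of c)⁻¹, 0⟩, ?_⟩)
    simp only [bG, SS_zero, mul_one, inv_one]

theorem p_EXG : Stmt_EXG := by
  intro A p z
  change ExS A p z
  induction z using snoc_ind with
  | h1 => exact ⟨[], 1, by rw [vG_nil, map_one, mul_one]⟩
  | hs g j ih => exact exS_pos ih j
  | hi g j ih => exact exS_neg ih j

end Pool.OA
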