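import Pool.Agent.Work.MP_8d5be4_oa.Interface

set_option autoImplicit false

open Filter Pool.AutRed

namespace Pool.OA

theorem FAC_ex {A : Type} [DecidableEq A] (x y : A) :
    ex x (FreeGroup.of y) = Multiplicative.ofAdd (if y = x then (1 : ℤ) else 0) := by
  simp [ex]

theorem FAC_exx {A : Type} [DecidableEq A] (x : A) : ex x (FreeGroup.of x) ≠ 1 := by
  rw [FAC_ex, if_pos rfl]
  intro h
  have h1 := congrArg Multiplicative.toAdd h
  simp at h1

theorem p_FAC (hSGM : Stmt_SGM) (hELL : Stmt_ELL) (hSLW : Stmt_SLW) (hNON : Stmt_NON)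
    (hCOM : Stmt_COM) : Stmt_FAC := by
  intro A _ _ p K hK a b w w' ha c hc
  rcases isEmpty_or_nonempty A with hA | ⟨⟨x₀⟩⟩
  · refine ⟨1, fun h => ⟨1, ?_⟩⟩
    have h1 : h = 1 := Subsingleton.elim _ _
    rw [h1, map_one, map_one]
    group
  obtain ⟨M, σ, hM, hVV⟩ := hSGM K (by omega) (p + 2) (by omega)
  obtain ⟨h1, ⟨n, h2⟩, h3⟩ := hSLW A p K (by omega) M σ hVV a b w w' ha c hc
  have key : ∀ h : FreeGroup A, (∃ x, ex x h ≠ 1) →
      ∃ (f : FreeGroup A) (g : GG A p), c⁻¹ (gA A p h) = g * gA A p f * g⁻¹ := by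
    rintro h ⟨x, hx⟩
    have hell := hELL A p K hK M σ hM b w' (c⁻¹ (gA A p h)) n (fun i => by
      obtain ⟨q, hq⟩ := h3 i h
      refine ⟨?_, q, ?_⟩
      · have h4 := congrArg (ps (wD A p K M σ)) hq
        rw [h1 ((a ^ i) h), ps_mul, ps_mul, ps_inv] at h4
        have h5 : ps (wD A p K M σ) q + ps (wD A p K M σ) ((dA p K b w' ^ i) (c⁻¹ (gA A p h))) +
            -ps (wD A p K M σ) q = ps (wD A p K M σ) ((dA p K b w' ^ i) (c⁻¹ (gA A p h))) := by
          abel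
        rwa [h5] at h4
      · rw [hq]
        exact h2 _)
    rcases hell with ⟨f, g, hfg⟩ | ⟨y, q, hyq⟩
    · exact ⟨f, g, hfg⟩
    · exact absurd hyq (hNON A p K M σ hM c h x (h1 h) hx y q)
  choose f g hfg using fun x : A => key (FreeGroup.of x) ⟨x, FAC_exx x⟩
  have hf1 : ∀ x, f x ≠ 1 := by
    intro x hx
    have h4 := hfg x
    rw [hx, map_one, mul_one, mul_inv_cancel] at h4
    have h5 : gA A p (FreeGroup.of x) = 1 := by
      have h6 := congrArg c h4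
      rwa [map_one, MulAut.apply_inv_self] at h6
    have h6 : FreeGroup.of x = 1 := iA_injective A (Fin (p + 1)) (by rw [h5, map_one])
    exact FreeGroup.of_ne_one x h6
  have hι : Function.Injective (Sum.inl ∘ Sum.inl : A → (A ⊕ Fin (p + 1)) ⊕ Bool) :=
    Sum.inl_injective.comp Sum.inl_injective
  have hall : ∀ x : A, ∃ f' : FreeGroup A,
      c⁻¹ (gA A p (FreeGroup.of x)) = g x₀ * gA A p f' * (g x₀)⁻¹ := by
    intro x
    by_cases hx : x = x₀
    · subst hx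
      exact ⟨f x, hfg x⟩
    · have hex : ex x₀ (FreeGroup.of x₀ * FreeGroup.of x) ≠ 1 := by
        rw [map_mul, FAC_ex, FAC_ex, if_pos rfl, if_neg hx]
        intro h
        have h1 := congrArg Multiplicative.toAdd h
        simp at h1
      obtain ⟨f₃, h', h4⟩ := key _ ⟨x₀, hex⟩
      rw [map_mul, map_mul, hfg x₀, hfg x] at h4
      have h5 : FreeGroup.map (Sum.inl ∘ Sum.inl : A → (A ⊕ Fin (p + 1)) ⊕ Bool) (f x₀) *
          (((g x₀)⁻¹ * g x) * FreeGroup.map (Sum.inl ∘ Sum.inl) (f x) * ((g x₀)⁻¹ * g x)⁻¹) =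
          ((g x₀)⁻¹ * h') * FreeGroup.map (Sum.inl ∘ Sum.inl) f₃ * ((g x₀)⁻¹ * h')⁻¹ := by
        have e1 : FreeGroup.map (Sum.inl ∘ Sum.inl : A → (A ⊕ Fin (p + 1)) ⊕ Bool) (f x₀) *
          (((g x₀)⁻¹ * g x) * FreeGroup.map (Sum.inl ∘ Sum.inl) (f x) * ((g x₀)⁻¹ * g x)⁻¹) =
          (g x₀)⁻¹ * (g x₀ * gA A p (f x₀) * (g x₀)⁻¹ * (g x * gA A p (f x) * (g x)⁻¹)) *
            g x₀ := by
          show gA A p (f x₀) * (((g x₀)⁻¹ * g x) * gA A p (f x) * ((g x₀)⁻¹ * g x)⁻¹) = _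
          group
        rw [e1, h4]
        show _ = ((g x₀)⁻¹ * h') * gA A p f₃ * ((g x₀)⁻¹ * h')⁻¹
        group
      obtain ⟨f', hf'⟩ := hCOM A _ _ hι (f x₀) (f x) f₃ _ _ (hf1 x₀) (hf1 x) h5
      have h6 : (g x₀)⁻¹ * g x = gA A p f' := hf'
      have h7 : g x = g x₀ * gA A p f' := by
        rw [← h6]
        group
      refine ⟨f' * f x * f'⁻¹, ?_⟩
      rw [hfg x, h7, map_mul, map_mul, map_inv]
      group
  choose F hF using hall
  refine ⟨g x₀, fun h => ?_⟩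
  induction h using snoc_ind with
  | h1 =>
    refine ⟨1, ?_⟩
    rw [map_one, map_one]
    group
  | hs h j ih =>
    obtain ⟨f', hf'⟩ := ih
    refine ⟨f' * F j, ?_⟩
    rw [map_mul, map_mul, hf', hF j, map_mul]
    group
  | hi h j ih =>
    obtain ⟨f', hf'⟩ := ih
    refine ⟨f' * (F j)⁻¹, ?_⟩
    rw [map_mul, map_mul, map_inv, map_inv, hf', hF j, map_mul, map_inv]
    group

end Pool.OA
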