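import Pool.Agent.Work.MP_8d5be4_oa.Interface

/-!
Row MP_8d5be4_al, THEOREM OA, block FUB: the Fubini rule for the functionals `fx`.
-/

set_option autoImplicit false

open Filter Pool.AutRed

namespace Pool.OA

theorem FUB_zero (hF : Stmt_FXL) {J : Type} [DecidableEq J] (k : J) (v : FreeGroup J) :
    fx k v (fun _ => (0 : ℤ)) = 0 := by
  have h := (hF J k v).2.2.2.2 0
  rw [h, zero_mul]

theorem FUB_neg (hF : Stmt_FXL) {J : Type} [DecidableEq J] (k : J) (v : FreeGroup J)
    (κ : FreeGroup J → ℤ) : fx k v (fun s => -κ s) = -fx k v κ := by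
  have h := (hF J k v).2.1 (-1) κ
  simpa only [neg_mul, one_mul] using h

theorem FUB_add (hF : Stmt_FXL) {J : Type} [DecidableEq J] (k : J) (v : FreeGroup J)
    (κ κ' : FreeGroup J → ℤ) : fx k v (fun s => κ s + κ' s) = fx k v κ + fx k v κ' :=
  (hF J k v).1 κ κ'

/-- Block FUB. -/
theorem p_FUB (hFXL : Stmt_FXL) : Stmt_FUB := by
  intro J _ i k u v
  induction u using FreeGroup.induction_on with
  | C1 =>
    intro κ
    simp only [fx_one]
    exact (FUB_zero hFXL k v).symm
  | of x =>
    intro κ
    simp only [fx_of]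
    by_cases hx : x = i
    · simp only [hx, if_true]
    · simp only [hx, if_false]
      exact (FUB_zero hFXL k v).symm
  | inv_of x ih =>
    intro κ
    simp only [fx_inv]
    rw [FUB_neg hFXL k v]
    congr 1
    exact ih (fun g => κ ((FreeGroup.of x)⁻¹ * g))
  | mul a b iha ihb =>
    intro κ
    simp only [fx_mul]
    rw [FUB_add hFXL k v]
    congr 1
    · exact iha κ
    · exact ihb (fun g => κ (a * g))

end Pool.OA
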