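import Pool.Agent.Work.MP_8d5be4_oa.Interface

set_option autoImplicit false

open Filter Pool.AutRed

namespace Pool.OA

theorem p_FUN (_hFXL : Stmt_FXL) : Stmt_FUN := by
  intro J _ _ u
  induction u using snoc_ind with
  | h1 =>
    intro κ
    simp
  | hs g j ih =>
    intro κ
    have e : ∀ i : J, fx i (g * FreeGroup.of j) (fun t => κ (t * FreeGroup.of i) - κ t) =
        fx i g (fun t => κ (t * FreeGroup.of i) - κ t) +
          (if j = i then κ (g * FreeGroup.of i) - κ g else 0) := by
      intro i
      rw [fx_mul, fx_of]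
      simp only [mul_one]
    rw [Finset.sum_congr rfl fun i _ => e i, Finset.sum_add_distrib, ih κ,
      Finset.sum_ite_eq Finset.univ j, if_pos (Finset.mem_univ j)]
    ring
  | hi g j ih =>
    intro κ
    have e : ∀ i : J, fx i (g * (FreeGroup.of j)⁻¹) (fun t => κ (t * FreeGroup.of i) - κ t) =
        fx i g (fun t => κ (t * FreeGroup.of i) - κ t) -
          (if j = i then κ (g * (FreeGroup.of j)⁻¹ * FreeGroup.of i) -
            κ (g * (FreeGroup.of j)⁻¹) else 0) := by
      intro i
      rw [fx_mul, fx_inv, fx_of]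
      simp only [mul_one, sub_eq_add_neg, mul_assoc]
    rw [Finset.sum_congr rfl fun i _ => e i, Finset.sum_sub_distrib, ih κ,
      Finset.sum_ite_eq Finset.univ j, if_pos (Finset.mem_univ j)]
    rw [inv_mul_cancel_right]
    ring

end Pool.OA
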