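import Pool.Agent.Work.MP_8d5be4_oa.Interface

/-!
Row MP_8d5be4_al, THEOREM OA, block FXL: linearity of the Fox functionals.
-/

set_option autoImplicit false

namespace Pool.OA

open Filter Pool.AutRed

section

variable {J : Type} [DecidableEq J]

theorem FXL_add (i : J) (L : List (J × Bool)) : ∀ κ κ' : FreeGroup J → ℤ,
    fxL i L (fun g => κ g + κ' g) = fxL i L κ + fxL i L κ' := by
  induction L with
  | nil => intro κ κ'; simp [fxL]
  | cons a t ih =>
    intro κ κ'
    obtain ⟨x, b⟩ := a
    cases b
    · have h := ih (fun g => κ ((FreeGroup.of x)⁻¹ * g)) (fun g => κ' ((FreeGroup.of x)⁻¹ * g))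
      simp only [fxL] at h ⊢
      rw [h]
      split_ifs <;> ring
    · have h := ih (fun g => κ (FreeGroup.of x * g)) (fun g => κ' (FreeGroup.of x * g))
      simp only [fxL] at h ⊢
      rw [h]
      split_ifs <;> ring

theorem FXL_smul (i : J) (m : ℤ) (L : List (J × Bool)) : ∀ κ : FreeGroup J → ℤ,
    fxL i L (fun g => m * κ g) = m * fxL i L κ := by
  induction L with
  | nil => intro κ; simp [fxL]
  | cons a t ih =>
    intro κ
    obtain ⟨x, b⟩ := a
    cases b
    · have h := ih (fun g => κ ((FreeGroup.of x)⁻¹ * g))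
      simp only [fxL] at h ⊢
      rw [h]
      split_ifs <;> ring
    · have h := ih (fun g => κ (FreeGroup.of x * g))
      simp only [fxL] at h ⊢
      rw [h]
      split_ifs <;> ring

theorem FXL_congr (i : J) (L : List (J × Bool)) : ∀ κ κ' : FreeGroup J → ℤ,
    (∀ g : FreeGroup J, g.norm ≤ L.length → κ g = κ' g) → fxL i L κ = fxL i L κ' := by
  induction L with
  | nil => intro κ κ' _; simp [fxL]
  | cons a t ih =>
    intro κ κ' H
    obtain ⟨x, b⟩ := a
    have hone : (FreeGroup.of x).norm = 1 := FreeGroup.norm_of x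
    cases b
    · have h := ih (fun g => κ ((FreeGroup.of x)⁻¹ * g)) (fun g => κ' ((FreeGroup.of x)⁻¹ * g))
        (fun g hg => H _ (by
          have h1 := FreeGroup.norm_mul_le (FreeGroup.of x)⁻¹ g
          rw [FreeGroup.norm_inv_eq, hone] at h1
          simp only [List.length_cons]
          omega))
      have h2 : κ (FreeGroup.of x)⁻¹ = κ' (FreeGroup.of x)⁻¹ := H _ (by
        rw [FreeGroup.norm_inv_eq, hone]
        simp only [List.length_cons]
        omega)
      simp only [fxL]
      rw [h, h2]
    · have h := ih (fun g => κ (FreeGroup.of x * g)) (fun g => κ' (FreeGroup.of x * g))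
        (fun g hg => H _ (by
          have h1 := FreeGroup.norm_mul_le (FreeGroup.of x) g
          rw [hone] at h1
          simp only [List.length_cons]
          omega))
      have h2 : κ 1 = κ' 1 := H _ (by rw [FreeGroup.norm_one]; omega)
      simp only [fxL]
      rw [h, h2]

end

/-- FXL. -/
theorem p_FXL : Stmt_FXL := by
  intro J _ i u
  have hu : FreeGroup.mk u.toWord = u := FreeGroup.mk_toWord
  have hfx : ∀ κ : FreeGroup J → ℤ, fx i u κ = fxL i u.toWord κ := by
    intro κ
    conv_lhs => rw [← hu]
    rfl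
  have h1 : ∀ κ κ' : FreeGroup J → ℤ,
      fx i u (fun g => κ g + κ' g) = fx i u κ + fx i u κ' := by
    intro κ κ'
    rw [hfx, hfx, hfx]
    exact FXL_add i _ κ κ'
  have h2 : ∀ (m : ℤ) (κ : FreeGroup J → ℤ), fx i u (fun g => m * κ g) = m * fx i u κ := by
    intro m κ
    rw [hfx, hfx]
    exact FXL_smul i m _ κ
  refine ⟨h1, h2, ?_, ?_, ?_⟩
  · intro Q S κ
    classical
    induction S using Finset.induction with
    | empty =>
      simp only [Finset.sum_empty]
      have h := h2 0 (fun _ => 0)
      simpa using h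
    | insert a S ha ih =>
      rw [Finset.sum_insert ha, ← ih, ← h1]
      congr 1
      funext g
      rw [Finset.sum_insert ha]
  · intro κ κ' H
    rw [hfx, hfx]
    exact FXL_congr i _ κ κ' H
  · intro m
    have h := h2 m (fun _ => 1)
    simpa using h

end Pool.OA
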