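import Pool.Agent.Work.MP_8d5be4_oa.Interface

/-!
Row MP_8d5be4_al, THEOREM OA, block GEO: the prefixes of the word of a reached element are reached.
-/

set_option autoImplicit false
set_option linter.unusedSectionVars false

open Filter Pool.AutRed

namespace Pool.OA

section

variable {J : Type} [DecidableEq J]

theorem GEO_app {L₁ L₂ : List (J × Bool)} : FreeGroup.IsReduced (L₁ ++ L₂) ↔
    FreeGroup.IsReduced L₁ ∧ FreeGroup.IsReduced L₂ ∧
      ∀ x ∈ L₁.getLast?, ∀ y ∈ L₂.head?, x.1 = y.1 → x.2 = y.2 :=
  List.isChain_append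

theorem GEO_toWord {L : List (J × Bool)} (h : FreeGroup.IsReduced L) :
    FreeGroup.toWord (FreeGroup.mk L) = L := by
  rw [FreeGroup.toWord_mk, h.reduce_eq]

/-- One letter at the end of a reduced word. -/
theorem GEO_snoc (g : FreeGroup J) (a : J × Bool) :
    FreeGroup.toWord (g * FreeGroup.mk [a]) = FreeGroup.toWord g ++ [a] ∨
      FreeGroup.toWord g = FreeGroup.toWord (g * FreeGroup.mk [a]) ++ [(a.1, !a.2)] := by
  have hr : FreeGroup.IsReduced (FreeGroup.toWord g) := FreeGroup.isReduced_toWord
  have hg : FreeGroup.mk (FreeGroup.toWord g) = g := FreeGroup.mk_toWord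
  generalize FreeGroup.toWord g = L at hr hg
  subst hg
  rcases List.eq_nil_or_concat L with h | ⟨L', c, h⟩
  · subst h
    left
    rw [FreeGroup.mul_mk, GEO_toWord (by simp)]
  · subst h
    rw [List.concat_eq_append] at hr ⊢
    by_cases hc : c = (a.1, !a.2)
    · right
      have h1 := (GEO_app.1 hr).1
      have h2 : (FreeGroup.mk (L' ++ [c]) : FreeGroup J) * FreeGroup.mk [a] = FreeGroup.mk L' := by
        rw [← FreeGroup.mul_mk, mul_assoc, hc, FreeGroup.mul_mk (L₁ := [(a.1, !a.2)])]
        have h3 : (FreeGroup.mk ([(a.1, !a.2)] ++ [a]) : FreeGroup J) = 1 := by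
          rw [FreeGroup.one_eq_mk]
          apply Quot.sound
          have := @FreeGroup.Red.Step.not J [] [] a.1 (!a.2)
          simpa using this
        rw [h3, mul_one]
      rw [h2, GEO_toWord h1, hc]
    · left
      have h1 : FreeGroup.IsReduced ((L' ++ [c]) ++ [a]) := by
        refine GEO_app.2 ⟨hr, by simp, ?_⟩
        intro x hx y hy hxy
        simp at hx hy
        subst hx hy
        by_contra hne
        refine hc (Prod.ext hxy ?_)
        cases h4 : c.2 <;> cases h5 : a.2 <;> simp_all
      rw [FreeGroup.mul_mk, GEO_toWord h1]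

/-- A step, in terms of one letter. -/
theorem GEO_step {w : J → ℤ × ℤ} {n : ℕ} {g h : FreeGroup J} (H : Step w n g h) :
    ∃ a : J × Bool, h = g * FreeGroup.mk [a] := by
  obtain ⟨-, -, j, h1 | h1⟩ := H
  · exact ⟨(j, true), h1⟩
  · refine ⟨(j, false), ?_⟩
    have h2 : (FreeGroup.mk [(j, false)] : FreeGroup J) = (FreeGroup.of j)⁻¹ := by
      simp [FreeGroup.of, FreeGroup.inv_mk, FreeGroup.invRev]
    rw [h2, h1, mul_assoc, mul_inv_cancel, mul_one]

end

theorem p_GEO : Stmt_GEO := by
  intro J _ w n g hg
  unfold Reach at hg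
  induction hg with
  | refl =>
    intro U V h
    rw [FreeGroup.toWord_one] at h
    have hU : U = [] := (List.append_eq_nil_iff.1 h.symm).1
    subst hU
    exact Relation.ReflTransGen.refl
  | @tail g h hgp hs ih =>
    intro U V hUV
    obtain ⟨a, ha⟩ := GEO_step hs
    rcases GEO_snoc g a with h1 | h1
    · rw [← ha, hUV] at h1
      rcases List.eq_nil_or_concat V with h2 | ⟨V', c, h2⟩
      · subst h2
        rw [List.append_nil] at hUV
        rw [← hUV, FreeGroup.mk_toWord]
        exact hgp.tail hs
      · rw [h2, List.concat_eq_append, ← List.append_assoc] at h1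
        have h3 := (List.append_inj' h1 rfl).1
        exact ih U V' h3.symm
    · rw [← ha, hUV, List.append_assoc] at h1
      exact ih U _ h1

end Pool.OA
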