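import Pool.Agent.Work.MP_8d5be4_oa.Interface

set_option autoImplicit false

namespace Pool.OA

open Filter Pool.AutRed

theorem p_IN1 (h1 : Stmt_FXL) (h2 : Stmt_CHR) (h3 : Stmt_FUB) : Stmt_IN1 := by
  intro J _ _ θ c κ hκ
  have hz : ∀ (i : J) (u : FreeGroup J), fx i u (fun _ => (0 : ℤ)) = 0 := by
    intro i u
    have := (h1 J i u).2.2.2.2 0
    rw [this, zero_mul]
  have hS : ∀ (i : J) (u : FreeGroup J) (κ : J → FreeGroup J → ℤ),
      fx i u (fun g => ∑ q : J, κ q g) = ∑ q : J, fx i u (κ q) := by
    intro i u κ
    exact (h1 J i u).2.2.1 J Finset.univ κ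
  have hinv : ∀ r t s : FreeGroup J, κ (θ r * t * c s) = κ (t * (c s * r)) := by
    intro r t s
    have := hκ r (t * (c s * r))
    rw [← this]
    congr 1
    group
  have key : ∑ i : J, fx i ((c⁻¹ * θ * c) (FreeGroup.of i)) (fun t => κ (c t)) =
      ∑ i : J, fx i (θ (FreeGroup.of i)) κ := by
    calc ∑ i : J, fx i ((c⁻¹ * θ * c) (FreeGroup.of i)) (fun t => κ (c t))
        = ∑ i : J, ∑ k : J, ∑ l : J, fx k (θ (FreeGroup.of l)) (fun t =>
            fx i (c⁻¹ (FreeGroup.of k)) (fun s =>
              fx l (c (FreeGroup.of i)) (fun r => κ (t * (c s * r))))) := by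
          refine Finset.sum_congr rfl (fun i _ => ?_)
          have e1 := h2 J (c⁻¹ : MulAut (FreeGroup J)).toMonoidHom i (θ (c (FreeGroup.of i)))
            (fun t => κ (c t))
          have e2 : (c⁻¹ * θ * c) (FreeGroup.of i) =
              (c⁻¹ : MulAut (FreeGroup J)).toMonoidHom (θ (c (FreeGroup.of i))) := rfl
          rw [e2, e1]
          refine Finset.sum_congr rfl (fun k _ => ?_)
          have e3 : (fun t : FreeGroup J => fx i ((c⁻¹ : MulAut (FreeGroup J)).toMonoidHom
              (FreeGroup.of k)) (fun s => κ (c ((c⁻¹ : MulAut (FreeGroup J)).toMonoidHom t * s)))) =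
              (fun t : FreeGroup J => fx i (c⁻¹ (FreeGroup.of k)) (fun s => κ (t * c s))) := by
            funext t
            have e4 : (fun s : FreeGroup J =>
                κ (c ((c⁻¹ : MulAut (FreeGroup J)).toMonoidHom t * s))) =
                (fun s : FreeGroup J => κ (t * c s)) := by
              funext s
              rw [map_mul]
              congr 2
              exact MulAut.apply_inv_self _ c t
            rw [e4]
            rfl
          rw [e3]
          have e5 := h2 J θ.toMonoidHom k (c (FreeGroup.of i))
            (fun t : FreeGroup J => fx i (c⁻¹ (FreeGroup.of k)) (fun s => κ (t * c s)))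
          have e6 : θ (c (FreeGroup.of i)) = θ.toMonoidHom (c (FreeGroup.of i)) := rfl
          rw [e6, e5]
          refine Finset.sum_congr rfl (fun l _ => ?_)
          have e7 := h3 J l k (c (FreeGroup.of i)) (θ (FreeGroup.of l))
            (fun r t => fx i (c⁻¹ (FreeGroup.of k)) (fun s => κ (θ r * t * c s)))
          refine Eq.trans ?_ (e7.trans ?_)
          · rfl
          · congr 1
            funext t
            have e8 := h3 J l i (c (FreeGroup.of i)) (c⁻¹ (FreeGroup.of k))
              (fun r s => κ (θ r * t * c s))
            refine e8.trans ?_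
            congr 1
            funext s
            congr 1
            funext r
            exact hinv r t s
      _ = ∑ k : J, ∑ l : J, ∑ i : J, fx k (θ (FreeGroup.of l)) (fun t =>
            fx i (c⁻¹ (FreeGroup.of k)) (fun s =>
              fx l (c (FreeGroup.of i)) (fun r => κ (t * (c s * r))))) := by
          rw [Finset.sum_comm]
          refine Finset.sum_congr rfl (fun k _ => ?_)
          rw [Finset.sum_comm]
      _ = ∑ k : J, ∑ l : J, fx k (θ (FreeGroup.of l)) (fun t => if k = l then κ t else 0) := by
          refine Finset.sum_congr rfl (fun k _ => ?_)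
          refine Finset.sum_congr rfl (fun l _ => ?_)
          rw [← hS k (θ (FreeGroup.of l)) (fun i t =>
            fx i (c⁻¹ (FreeGroup.of k)) (fun s =>
              fx l (c (FreeGroup.of i)) (fun r => κ (t * (c s * r)))))]
          congr 1
          funext t
          have e1 := h2 J c.toMonoidHom l (c⁻¹ (FreeGroup.of k)) (fun g => κ (t * g))
          refine e1.symm.trans ?_
          have e2 : c.toMonoidHom (c⁻¹ (FreeGroup.of k)) = FreeGroup.of k :=
            MulAut.apply_inv_self _ c _
          rw [e2, fx_of]
          simp
      _ = ∑ k : J, fx k (θ (FreeGroup.of k)) κ := by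
          refine Finset.sum_congr rfl (fun k _ => ?_)
          rw [Finset.sum_eq_single k]
          · simp
          · intro l _ hl
            have : ¬ k = l := fun h => hl h.symm
            simp only [this, if_false]
            exact hz _ _
          · intro h
            exact absurd (Finset.mem_univ k) h
  unfold Lk
  rw [key]
  show κ (c 1) - _ = _
  rw [map_one]

end Pool.OA
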