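import Pool.Agent.Work.MP_8d5be4_oa.Interface

/-!
Row MP_8d5be4_al, THEOREM OA: block IN2.
-/

set_option autoImplicit false

open Filter Pool.AutRed

namespace Pool.OA

theorem p_IN2 (hFXL : Stmt_FXL) (hFUN : Stmt_FUN) : Stmt_IN2 := by
  intro J _ _ θ g κ hinv
  have hterm : ∀ i : J, fx i ((MulAut.conj g * θ) (FreeGroup.of i)) (fun t => κ (g⁻¹ * t)) =
      fx i (θ (FreeGroup.of i)) κ -
        fx i g (fun t => κ (g⁻¹ * (t * FreeGroup.of i)) - κ (g⁻¹ * t)) := by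
    intro i
    have h0 : (MulAut.conj g * θ) (FreeGroup.of i) = g * θ (FreeGroup.of i) * g⁻¹ := by
      simp [MulAut.mul_apply, MulAut.conj_apply]
    rw [h0, fx_mul, fx_mul, fx_inv]
    have h1 : (fun t => κ (g⁻¹ * (g * t))) = κ := by
      funext t; rw [inv_mul_cancel_left]
    have h2 : (fun t : FreeGroup J => κ (g⁻¹ * (g * θ (FreeGroup.of i) * (g⁻¹ * t)))) =
        fun t => κ (g⁻¹ * (t * FreeGroup.of i)) := by
      funext t
      have h3 := hinv (FreeGroup.of i) (g⁻¹ * t * FreeGroup.of i)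
      have h4 : θ (FreeGroup.of i) * (g⁻¹ * t * FreeGroup.of i) * (FreeGroup.of i)⁻¹ =
          g⁻¹ * (g * θ (FreeGroup.of i) * (g⁻¹ * t)) := by group
      rw [h4] at h3
      rw [h3, mul_assoc]
    rw [h1, h2]
    have h5 := (hFXL J i g).1 (fun t => κ (g⁻¹ * (t * FreeGroup.of i)) - κ (g⁻¹ * t))
      (fun t => κ (g⁻¹ * t))
    have h6 : (fun t : FreeGroup J => κ (g⁻¹ * (t * FreeGroup.of i)) - κ (g⁻¹ * t) +
        κ (g⁻¹ * t)) = fun t => κ (g⁻¹ * (t * FreeGroup.of i)) := by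
      funext t; ring
    rw [h6] at h5
    rw [h5]
    ring
  have hsum := hFUN J g (fun t => κ (g⁻¹ * t))
  unfold Lk
  rw [Finset.sum_congr rfl (fun i _ => hterm i), Finset.sum_sub_distrib, hsum]
  simp only [mul_one, inv_mul_cancel]
  ring

end Pool.OA
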