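import Pool.Agent.Work.MP_8d5be4_oa.Interface

set_option autoImplicit false

open Filter Pool.AutRed

namespace Pool.OA

theorem p_MAT (hFXL : Stmt_FXL) (hCHR : Stmt_CHR) : Stmt_MAT := by
  intro J _ _
  have hmul : ∀ θ θ' : MulAut (FreeGroup J), mat (θ * θ') = mat θ' * mat θ := by
    intro θ θ'
    ext i j
    have h1 := hCHR J θ.toMonoidHom j (θ' (FreeGroup.of i)) (fun _ => 1)
    have h2 : ∀ k : J, fx k (θ' (FreeGroup.of i))
        (fun _ => fx j (θ.toMonoidHom (FreeGroup.of k)) (fun _ => 1)) =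
        fx j (θ (FreeGroup.of k)) (fun _ => 1) * fx k (θ' (FreeGroup.of i)) (fun _ => 1) := by
      intro k
      exact (hFXL J k (θ' (FreeGroup.of i))).2.2.2.2 (fx j (θ (FreeGroup.of k)) (fun _ => 1))
    rw [Matrix.mul_apply]
    show fx j (θ (θ' (FreeGroup.of i))) (fun _ => 1) =
      ∑ k, fx k (θ' (FreeGroup.of i)) (fun _ => 1) * fx j (θ (FreeGroup.of k)) (fun _ => 1)
    refine Eq.trans h1 (Finset.sum_congr rfl (fun k _ => ?_))
    rw [mul_comm]
    exact h2 k
  have hone : mat (1 : MulAut (FreeGroup J)) = 1 := by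
    ext i j
    show fx j (FreeGroup.of i) (fun _ => 1) = _
    rw [fx_of, Matrix.one_apply]
  refine ⟨hmul, hone, ?_⟩
  intro θ k
  induction k with
  | zero => rw [pow_zero, pow_zero, hone]
  | succ k ih => rw [pow_succ, hmul, ih, pow_succ']

end Pool.OA
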