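import Pool.Agent.Work.MP_8d5be4_oa.Interface
set_option autoImplicit false
open Filter Pool.AutRed
namespace Pool.OA

theorem NIE_fxL {J : Type} [DecidableEq J] (i : J) (L : List (J × Bool)) :
    fxL i L (fun _ => 0) = 0 := by
  induction L with
  | nil => rfl
  | cons a L ih =>
    obtain ⟨x, b⟩ := a
    cases b <;> simp [fxL, ih]

theorem NIE_Lk {J : Type} [Fintype J] [DecidableEq J] (θ : MulAut (FreeGroup J)) :
    Lk (fun _ => 0) θ = 0 := by
  rw [Lk, Finset.sum_eq_zero, sub_zero]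
  intro i _
  obtain ⟨L, hL⟩ : ∃ L, FreeGroup.mk L = θ (FreeGroup.of i) := ⟨_, FreeGroup.mk_toWord⟩
  rw [← hL, fx_mk, NIE_fxL]

theorem p_NIE (h1 : Stmt_IN1) (h2 : Stmt_IN2) (h3 : Stmt_CLS) : Stmt_NIE := by
  intro J _ _ θ θ' d g hd hL
  obtain ⟨u, hu, hLu⟩ := (h3 J θ).2 hL
  have hI : Inv θ (ind θ u) := by
    intro s t
    have : (∃ r : FreeGroup J, θ s * t * s⁻¹ = θ r * u * r⁻¹) ↔
        (∃ r : FreeGroup J, t = θ r * u * r⁻¹) := by
      constructor
      · rintro ⟨r, hr⟩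
        refine ⟨s⁻¹ * r, ?_⟩
        have : t = (θ s)⁻¹ * (θ s * t * s⁻¹) * s := by group
        rw [this, hr, map_mul, map_inv]
        group
      · rintro ⟨r, hr⟩
        refine ⟨s * r, ?_⟩
        rw [hr, map_mul]
        group
    unfold ind
    by_cases hh : ∃ r : FreeGroup J, t = θ r * u * r⁻¹
    · rw [if_pos hh, if_pos (this.2 hh)]
    · rw [if_neg hh, if_neg (fun h => hh (this.1 h))]
  have hc : ∀ s, d (g * θ' s * g⁻¹) = θ (d s) := by
    intro s
    have e := DFunLike.congr_fun hd s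
    simp only [MulAut.mul_apply, MulAut.conj_apply] at e
    rw [← e, MulAut.apply_inv_self]
  have hI' : Inv θ' (fun t => ind θ u (d (g * t))) := by
    intro s t
    have e : d (g * (θ' s * t * s⁻¹)) = θ (d s) * d (g * t) * (d s)⁻¹ := by
      rw [← hc, ← map_inv, ← map_mul, ← map_mul]
      congr 1
      group
    show ind θ u (d (g * (θ' s * t * s⁻¹))) = ind θ u (d (g * t))
    rw [e, hI]
  have e1 := h2 J θ' g _ hI'
  have e2 := h1 J θ d _ hI
  have e3 : (fun t => ind θ u (d (g * (g⁻¹ * t)))) = fun t => ind θ u (d t) := by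
    funext t; rw [mul_inv_cancel_left]
  rw [e3, ← hd, e2] at e1
  have hv : ∃ v : FreeGroup J, v.norm ≤ nrm θ' ∧ ind θ u (d (g * v)) ≠ 0 := by
    by_contra hcon
    push_neg at hcon
    apply hLu
    rw [e1, (h3 J θ').1 _ (fun _ => 0) hcon, NIE_Lk]
  obtain ⟨v, hvn, hv⟩ := hv
  obtain ⟨r, hr⟩ : ∃ r : FreeGroup J, d (g * v) = θ r * u * r⁻¹ := by
    by_contra hcon
    apply hv
    unfold ind
    rw [if_neg hcon]
  refine ⟨u, v, (d⁻¹ r)⁻¹, hu, hvn, ?_⟩
  have e4 : g * v = d⁻¹ (θ r * u * r⁻¹) := by rw [← hr, MulAut.inv_apply_self]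
  have e5 : d⁻¹ (θ r) = g * θ' (d⁻¹ r) * g⁻¹ := by
    have := hc (d⁻¹ r)
    rw [MulAut.apply_inv_self] at this
    rw [← this, MulAut.inv_apply_self]
  rw [map_mul, map_mul, map_inv, e5] at e4
  have e6 : v = θ' (d⁻¹ r) * (g⁻¹ * d⁻¹ u) * (d⁻¹ r)⁻¹ := by
    have : v = g⁻¹ * (g * v) := by group
    rw [this, e4]
    group
  rw [e6, map_inv]
  group

end Pool.OA
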