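import Pool.Agent.Work.MP_8d5be4_oa.Interface

/-!
# Block NMD (row MP_8d5be4_al, THEOREM OA): the norm of `dA`
-/

set_option autoImplicit false

open Filter Pool.AutRed

namespace Pool.OA

theorem NMD_map {J J' : Type} [DecidableEq J] [DecidableEq J'] (f : J → J') (w : FreeGroup J) :
    (FreeGroup.map f w).norm ≤ w.norm := by
  have h : FreeGroup.map f w = FreeGroup.mk (w.toWord.map fun x => (f x.1, x.2)) := by
    conv_lhs => rw [← FreeGroup.mk_toWord (x := w)]
    rw [FreeGroup.map.mk]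
  rw [h]
  refine FreeGroup.norm_mk_le.trans ?_
  rw [List.length_map, FreeGroup.norm]

theorem NMD_mul3 {J : Type} [DecidableEq J] (u v w : FreeGroup J) (a b c B : ℕ) (hu : u.norm ≤ a)
    (hv : v.norm ≤ b) (hw : w.norm ≤ c) (h : a + b + c ≤ B) : (u * v * w).norm ≤ B := by
  have h1 := FreeGroup.norm_mul_le (u * v) w
  have h2 := FreeGroup.norm_mul_le u v
  omega

theorem NMD_pow {J : Type} [DecidableEq J] (j : J) (n : ℕ) : (FreeGroup.of j ^ n).norm ≤ n := by
  rw [FreeGroup.norm, FreeGroup.toWord_of_pow, List.length_replicate]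

theorem NMD_S {A : Type} [DecidableEq A] (p : ℕ) (j : Fin (p + 2)) : (SS A p j).norm ≤ 1 := by
  refine Fin.cases ?_ (fun i => ?_) j
  · rw [SS_zero, FreeGroup.norm_one]; omega
  · rw [SS_succ, FreeGroup.norm_of]

theorem p_NMD : Stmt_NMD := by
  intro A _ _ p K a w B h1 h2 h3
  have hS1 : ((SS A p 1)⁻¹).norm ≤ 1 := by
    rw [FreeGroup.norm_inv_eq]; exact NMD_S p 1
  refine Finset.sup_le ?_
  rintro ((i | r) | c) _
  · change (dA p K a w (FreeGroup.of (Sum.inl (Sum.inl i)))).norm ≤ B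
    have h : (FreeGroup.of (Sum.inl (Sum.inl i)) : GG A p) = gA A p (FreeGroup.of i) := by
      rw [gA, iA_of]
    rw [h, dA_gA]
    refine NMD_mul3 _ _ _ 1 (nrm a) 1 B hS1 ?_ (NMD_S p 1) (by omega)
    exact (NMD_map _ _).trans (norm_le_nrm a i)
  · change (dA p K a w (FreeGroup.of (Sum.inl (Sum.inr r)))).norm ≤ B
    rw [of_eq_SS, dA_S]
    refine Fin.lastCases ?_ (fun i => ?_) r
    · rw [SN_last, ← mul_assoc]
      refine NMD_mul3 _ _ _ 1 w.norm 1 B hS1 ?_ ?_ (by omega)
      · rw [FreeGroup.norm_inv_eq]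
        exact NMD_map _ _
      · refine (NMD_map _ _).trans ?_
        rw [xx, FreeGroup.norm_of]
    · rw [SN_castSucc]
      have h4 := FreeGroup.norm_mul_le (SS A p 1)⁻¹ (SS A p i.succ.succ)
      have h5 := NMD_S (A := A) p i.succ.succ
      omega
  · change (dA p K a w (FreeGroup.of (Sum.inr c))).norm ≤ B
    cases c
    · have h : (FreeGroup.of (Sum.inr false) : GG A p) = g2 A p yy := by
        rw [yy, g2, i2_of]
      rw [h, dA_g2, psi_yy]
      refine (NMD_map _ _).trans ?_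
      rw [xx, FreeGroup.norm_of]
      omega
    · have h : (FreeGroup.of (Sum.inr true) : GG A p) = g2 A p xx := by
        rw [xx, g2, i2_of]
      rw [h, dA_g2, psi_xx]
      refine (NMD_map _ _).trans ?_
      refine NMD_mul3 _ _ _ (K + 1) 1 1 B ?_ ?_ ?_ (by omega)
      · exact NMD_pow _ _
      · rw [yy, FreeGroup.norm_of]
      · rw [FreeGroup.norm_inv_eq, xx, FreeGroup.norm_of]

end Pool.OA
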