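import Pool.Agent.Work.MP_8d5be4_oa.Interface

set_option autoImplicit false

namespace Pool.OA

open Filter Pool.AutRed

/-- Norm of the image of a word. -/
theorem NMP_mk {J : Type} [Fintype J] [DecidableEq J] (a : MulAut (FreeGroup J)) :
    ∀ L : List (J × Bool), (a (FreeGroup.mk L)).norm ≤ nrm a * L.length := by
  intro L
  induction L with
  | nil => 
    have : (FreeGroup.mk ([] : List (J × Bool))) = 1 := rfl
    rw [this, map_one]; simp
  | cons p L ih =>
    obtain ⟨j, b⟩ := p
    have h1 : FreeGroup.mk ((j, b) :: L) = FreeGroup.mk [(j, b)] * FreeGroup.mk L := by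
      rw [FreeGroup.mul_mk]; rfl
    have h2 : (a (FreeGroup.mk [(j, b)])).norm ≤ nrm a := by
      cases b with
      | true => exact norm_le_nrm a j
      | false =>
        have h3 : FreeGroup.mk [(j, false)] = (FreeGroup.of j)⁻¹ := by
          simp [FreeGroup.of, FreeGroup.inv_mk, FreeGroup.invRev]
        rw [h3, map_inv, FreeGroup.norm_inv_eq]
        exact norm_le_nrm a j
    rw [h1, map_mul]
    calc (a (FreeGroup.mk [(j, b)]) * a (FreeGroup.mk L)).norm
        ≤ (a (FreeGroup.mk [(j, b)])).norm + (a (FreeGroup.mk L)).norm := FreeGroup.norm_mul_le _ _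
      _ ≤ nrm a + nrm a * L.length := add_le_add h2 ih
      _ = nrm a * (((j, b) :: L).length) := by
        rw [List.length_cons]; ring

theorem NMP_norm {J : Type} [Fintype J] [DecidableEq J] (a : MulAut (FreeGroup J))
    (h : FreeGroup J) : (a h).norm ≤ nrm a * h.norm := by
  have := NMP_mk a h.toWord
  rwa [FreeGroup.mk_toWord] at this

theorem p_NMP : Stmt_NMP := by
  intro J _ _ a k
  induction k with
  | zero =>
    rw [pow_zero, pow_zero]
    unfold nrm
    refine Finset.sup_le fun j _ => ?_
    simp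
  | succ k ih =>
    have h1 : nrm (a ^ (k + 1)) ≤ nrm a * nrm (a ^ k) := by
      unfold nrm
      refine Finset.sup_le fun j _ => ?_
      rw [pow_succ']
      calc ((a * a ^ k) (FreeGroup.of j)).norm = (a ((a ^ k) (FreeGroup.of j))).norm := rfl
        _ ≤ nrm a * ((a ^ k) (FreeGroup.of j)).norm := NMP_norm a _
        _ ≤ nrm a * nrm (a ^ k) := Nat.mul_le_mul_left _ (norm_le_nrm (a ^ k) j)
    calc nrm (a ^ (k + 1)) ≤ nrm a * nrm (a ^ k) := h1
      _ ≤ nrm a * nrm a ^ k := Nat.mul_le_mul_left _ ih
      _ = nrm a ^ (k + 1) := by rw [pow_succ']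

end Pool.OA
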