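import Pool.Agent.Work.MP_8d5be4_oa.Interface

/-! Block NON (MP_8d5be4_al, THEOREM OA, helper90). -/

set_option autoImplicit false

open Filter Pool.AutRed

namespace Pool.OA

theorem p_NON : Stmt_NON := by
  intro A _ p K M σ hM c h x hps hex y q hq
  let lam : GG A p →* Multiplicative ℤ := mkHom (ex x) (fun _ => 1) 1
  let chi : GG A p →* Multiplicative ℤ := lam.comp c.toMonoidHom
  have hchi : ∀ g, chi g = lam (c g) := fun g => rfl
  have h1 : chi (c⁻¹ (gA A p h)) = ex x h := by
    rw [hchi, MulAut.apply_inv_self]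
    exact mkHom_gA (ex x) (fun _ => 1) 1 h
  -- the position of `y` is zero
  have h2 : ps w2 y = 0 := by
    have h3 : ps (wD A p K M σ) (q * g2 A p y * q⁻¹) = 0 := by rw [← hq]; exact hps
    rw [ps_mul, ps_mul, ps_inv, wD_g2] at h3
    have h4 : M • ps w2 y = 0 := by
      have : ps (wD A p K M σ) q + M • ps w2 y + -ps (wD A p K M σ) q = M • ps w2 y := by abel
      rw [this] at h3
      exact h3
    rcases smul_eq_zero.mp h4 with h5 | h5
    · exact absurd h5 hM
    · exact h5
  have h3 : (chi.comp (g2 A p)) y = 1 := blk_ABL (Multiplicative ℤ) (chi.comp (g2 A p)) y h2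
  have h4 : chi (g2 A p y) = 1 := h3
  have h5 : chi (q * g2 A p y * q⁻¹) = 1 := by
    rw [map_mul, map_mul, map_inv, h4, mul_one, mul_inv_cancel]
  apply hex
  rw [← h1, hq, h5]

end Pool.OA
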