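import Pool.Agent.Work.MP_8d5be4_oa.Interface
import Pool.Agent.Work.MP_8d5be4_out.B_NRM

/-! # Block NRD: the norm of a conjugated automorphism of a free factor (helper94) -/

set_option autoImplicit false

open Filter Pool.AutRed

namespace Pool.OA

open FreeGroup (mk_toWord toWord_mk toWord isReduced_toWord)

/-- Split off the maximal suffix of letters in the range of `ι`. -/
theorem NRD_dec {A J : Type} [DecidableEq J] (ι : A → J) (L : List (J × Bool)) :
    FreeGroup.IsReduced L → ∃ (f : FreeGroup A) (u : FreeGroup J),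
      FreeGroup.mk L = u * FreeGroup.map ι f ∧
        ∀ q ∈ (toWord u).getLast?, ¬ q.1 ∈ Set.range ι := by
  induction L using List.reverseRecOn with
  | nil =>
    intro _
    refine ⟨1, 1, ?_, ?_⟩
    · rw [map_one, mul_one]
      rfl
    · intro q hq
      rw [FreeGroup.toWord_one] at hq
      simp at hq
  | append_singleton L p ih =>
    intro hL
    have hL' : FreeGroup.IsReduced L := by
      unfold FreeGroup.IsReduced at hL ⊢
      exact (List.isChain_append.1 hL).1
    obtain ⟨f, u, h1, h2⟩ := ih hL'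
    by_cases hp : p.1 ∈ Set.range ι
    · obtain ⟨a, ha⟩ := hp
      refine ⟨f * FreeGroup.mk [(a, p.2)], u, ?_, h2⟩
      rw [← FreeGroup.mul_mk, h1, map_mul, FreeGroup.map.mk, mul_assoc]
      simp only [List.map_cons, List.map_nil]
      rw [ha]
    · refine ⟨1, FreeGroup.mk (L ++ [p]), ?_, ?_⟩
      · rw [map_one, mul_one]
      · intro q hq
        rw [toWord_mk, hL.reduce_eq] at hq
        rw [List.getLast?_append, List.getLast?_singleton] at hq
        simp only [Option.some_or, Option.mem_def, Option.some.injEq] at hq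
        rw [← hq]
        exact hp

theorem p_NRD : Stmt_NRD := by
  intro A J _ _ ι hι g d
  obtain ⟨f, u, h1, h2⟩ := NRD_dec ι (toWord g) isReduced_toWord
  rw [mk_toWord] at h1
  refine ⟨f, fun x => ?_⟩
  have hv : (MulAut.conj f * d) (FreeGroup.of x) = f * d (FreeGroup.of x) * f⁻¹ := rfl
  have hne : f * d (FreeGroup.of x) * f⁻¹ ≠ 1 := by
    intro h
    have h3 : d (FreeGroup.of x) = 1 := by
      have h4 : d (FreeGroup.of x) = f⁻¹ * (f * d (FreeGroup.of x) * f⁻¹) * f := by group
      rw [h4, h]
      group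
    exact FreeGroup.of_ne_one x (d.injective (h3.trans (map_one d).symm))
  have hmne : FreeGroup.map ι (f * d (FreeGroup.of x) * f⁻¹) ≠ 1 := by
    intro h
    apply hne
    have h5 := NRM_map ι hι (f * d (FreeGroup.of x) * f⁻¹)
    rw [h, FreeGroup.toWord_one] at h5
    exact FreeGroup.toWord_eq_nil_iff.1 (List.map_eq_nil_iff.1 h5.symm)
  have hC : ∀ q ∈ toWord (FreeGroup.map ι (f * d (FreeGroup.of x) * f⁻¹)), q.1 ∈ Set.range ι := by
    intro q hq
    rw [NRM_map ι hι, List.mem_map] at hq
    obtain ⟨r, -, rfl⟩ := hq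
    exact ⟨r.1, rfl⟩
  have h6 := NRM_norm (fun j => j ∈ Set.range ι) u _ hmne hC h2
  have h7 : g * FreeGroup.map ι (d (FreeGroup.of x)) * g⁻¹ =
      u * FreeGroup.map ι (f * d (FreeGroup.of x) * f⁻¹) * u⁻¹ := by
    rw [h1, map_mul, map_mul, map_inv]
    group
  have h8 : (FreeGroup.map ι (f * d (FreeGroup.of x) * f⁻¹)).norm =
      (f * d (FreeGroup.of x) * f⁻¹).norm := by
    show (toWord _).length = (toWord _).length
    rw [NRM_map ι hι, List.length_map]
  rw [hv, h7, h6, h8]
  exact Nat.le_add_left _ _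

end Pool.OA
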