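import Pool.Agent.Work.MP_8d5be4_oa.Interface

/-!
# MP_8d5be4_al, THEOREM OA, block OUC (helper25)
-/

set_option autoImplicit false

namespace Pool.OA

open Filter Pool.AutRed

theorem p_OUC (hC : Stmt_COM) : Stmt_OUC := by
  intro A _ p K a b w w' c g d h1 h2
  rcases isEmpty_or_nonempty A with hA | ⟨⟨x⟩⟩
  · refine ⟨1, ?_⟩
    apply MulEquiv.ext
    intro h
    exact Subsingleton.elim _ _
  · have hinj : Function.Injective (gA A p) := iA_injective A (Fin (p + 1))
    have e1 : dA p K a w * c = c * dA p K b w' := by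
      rw [← h1]
      group
    have e2 : ∀ h, dA p K a w (c (gA A p h)) = c (dA p K b w' (gA A p h)) := by
      intro h
      have := DFunLike.congr_fun e1 (gA A p h)
      exact this
    have e3 : ∀ h, (g⁻¹ * c (SS A p 1) * dA p K a w g * (SS A p 1)⁻¹) * gA A p (a (d h)) *
        (g⁻¹ * c (SS A p 1) * dA p K a w g * (SS A p 1)⁻¹)⁻¹ = gA A p (d (b h)) := by
      intro h
      have h3 := e2 h
      rw [h2, map_mul, map_mul, map_inv, dA_gA, dA_gA, map_mul, map_mul, map_inv, h2] at h3
      have h4 : gA A p (d (b h)) = g⁻¹ * c (SS A p 1) * ((c (SS A p 1))⁻¹ *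
          (g * gA A p (d (b h)) * g⁻¹) * c (SS A p 1)) * (c (SS A p 1))⁻¹ * g := by group
      rw [h4, ← h3]
      group
    have hι : Function.Injective
        ((Sum.inl ∘ Sum.inl : A → (A ⊕ Fin (p + 1)) ⊕ Bool)) :=
      Sum.inl_injective.comp Sum.inl_injective
    have hne : a (d (FreeGroup.of x)) ≠ 1 := by
      intro h3
      rw [map_eq_one_iff a a.injective, map_eq_one_iff d d.injective] at h3
      exact FreeGroup.of_ne_one x h3
    obtain ⟨f, hf⟩ := mln hC hι hne (e3 (FreeGroup.of x))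
    have hf' : g⁻¹ * c (SS A p 1) * dA p K a w g * (SS A p 1)⁻¹ = gA A p f := hf
    have e4 : ∀ h, f * a (d h) * f⁻¹ = d (b h) := by
      intro h
      apply hinj
      rw [map_mul, map_mul, map_inv, ← hf']
      exact e3 h
    refine ⟨d⁻¹ f⁻¹, ?_⟩
    apply MulEquiv.ext
    intro h
    have h5 : a (d h) = f⁻¹ * d (b h) * f := by
      rw [← e4 h]
      group
    show d⁻¹ (a (d h)) = MulAut.conj (d⁻¹ f⁻¹) (b h)
    rw [h5, MulAut.conj_apply, map_mul, map_mul, map_inv, inv_inv, MulAut.inv_apply_self]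

end Pool.OA
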