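import Pool.Agent.Work.MP_8d5be4_oa.Interface

/-! Block RED (helper98): the word of a cyclically good list of blocks is cyclically reduced. -/

set_option autoImplicit false

open Filter Pool.AutRed

namespace Pool.OA

section

variable {A : Type} [DecidableEq A] {p : ℕ}

/-- no cancellation -/
def RED_R {X : Type} (a b : X × Bool) : Prop := a.1 = b.1 → a.2 = b.2

theorem RED_head (b : Blk A p) (y : (A ⊕ (Fin (p + 2) ⊕ Bool)) × Bool) (hy : y ∈ (wd b).head?) :
    (∃ x : A, y.1 = Sum.inl x) ∨ (b.f = 1 ∧ y = (Sum.inr (Sum.inl b.j), true)) := by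
  unfold wd at hy
  cases h : FreeGroup.toWord b.f with
  | nil =>
    rw [h] at hy
    right
    refine ⟨FreeGroup.toWord_eq_nil_iff.1 h, ?_⟩
    simpa using hy.symm
  | cons hd tl =>
    rw [h] at hy
    left
    refine ⟨hd.1, ?_⟩
    simp only [List.map_cons, List.cons_append, List.head?_cons, Option.mem_def,
      Option.some.injEq] at hy
    rw [← hy]

theorem RED_last (b : Blk A p) (x : (A ⊕ (Fin (p + 2) ⊕ Bool)) × Bool)
    (hx : x ∈ (wd b).getLast?) : x = (Sum.inr (Sum.inl b.l), false) := by
  have e : wd b = ((FreeGroup.toWord b.f).map (fun x => (Sum.inl x.1, x.2)) ++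
      ((Sum.inr (Sum.inl b.j), true) ::
      (FreeGroup.toWord b.y).map (fun x => (Sum.inr (Sum.inr x.1), x.2)))) ++
        [(Sum.inr (Sum.inl b.l), false)] := by
    simp [wd]
  rw [e, List.getLast?_concat] at hx
  simpa using hx.symm

theorem RED_ne (b : Blk A p) : wd b ≠ [] := by
  simp [wd]

theorem RED_wd (b : Blk A p) (hb : Vn b) : (wd b).IsChain RED_R := by
  unfold wd
  rw [List.isChain_append]
  refine ⟨?_, ?_, ?_⟩
  · refine List.isChain_map_of_isChain _ ?_ (FreeGroup.isReduced_toWord (x := b.f))
    intro a c h h1
    exact h (Sum.inl_injective h1)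
  · rw [List.isChain_cons]
    constructor
    · intro y hy h1
      cases h : FreeGroup.toWord b.y with
      | nil =>
        rw [h] at hy
        simp only [List.map_nil, List.nil_append, List.head?_cons, Option.mem_def,
          Option.some.injEq] at hy
        rw [← hy] at h1
        have h2 : b.j = b.l := Sum.inl_injective (Sum.inr_injective h1)
        exact absurd ⟨h2, FreeGroup.toWord_eq_nil_iff.1 h⟩ hb
      | cons hd tl =>
        rw [h] at hy
        simp only [List.map_cons, List.cons_append, List.head?_cons, Option.mem_def,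
          Option.some.injEq] at hy
        rw [← hy] at h1
        exact absurd (Sum.inr_injective h1) (by simp)
    · rw [List.isChain_append]
      refine ⟨?_, List.isChain_singleton _, ?_⟩
      · refine List.isChain_map_of_isChain _ ?_ (FreeGroup.isReduced_toWord (x := b.y))
        intro a c h h1
        exact h (Sum.inr_injective (Sum.inr_injective h1))
      · intro x hx y hy h1
        simp only [List.head?_cons, Option.mem_def, Option.some.injEq] at hy
        have h2 := List.mem_of_getLast? hx
        obtain ⟨c, -, hc⟩ := List.mem_map.1 h2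
        rw [← hc, ← hy] at h1
        exact absurd (Sum.inr_injective h1) (by simp)
  · intro x hx y hy h1
    simp only [List.head?_cons, Option.mem_def, Option.some.injEq] at hy
    have h2 := List.mem_of_getLast? hx
    obtain ⟨c, -, hc⟩ := List.mem_map.1 h2
    rw [← hc, ← hy] at h1
    exact absurd h1 (by simp)

theorem RED_junc (b b' : Blk A p) (h : An b b') (x y : (A ⊕ (Fin (p + 2) ⊕ Bool)) × Bool)
    (hx : x ∈ (wd b).getLast?) (hy : y ∈ (wd b').head?) : RED_R x y := by
  intro h1
  rw [RED_last b x hx] at h1 ⊢
  rcases RED_head b' y hy with ⟨z, hz⟩ | ⟨hf, hy'⟩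
  · rw [hz] at h1
    exact absurd h1 (by simp)
  · rw [hy'] at h1
    have h2 : b.l = b'.j := Sum.inl_injective (Sum.inr_injective h1)
    exact absurd ⟨h2, hf⟩ h

end

theorem p_RED : Stmt_RED := by
  intro A _ p L hL
  have hne : [] ∉ L.map wd := by
    intro h
    obtain ⟨b, -, hb⟩ := List.mem_map.1 h
    exact RED_ne b hb
  refine ⟨?_, ?_⟩
  · show ((L.map wd).flatten).IsChain RED_R
    rw [List.isChain_flatten hne]
    refine ⟨?_, ?_⟩
    · intro l hl
      obtain ⟨b, hb, rfl⟩ := List.mem_map.1 hl
      exact RED_wd b (hL.vn b hb)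
    · refine List.isChain_map_of_isChain _ ?_ hL.chain
      intro b b' h x hx y hy
      exact RED_junc b b' h x y hx hy
  · intro x hx y hy
    obtain ⟨b', L'', hL''⟩ := List.exists_cons_of_ne_nil hL.ne
    rcases List.eq_nil_or_concat L with h0 | ⟨L', b, hL'⟩
    · exact absurd h0 hL.ne
    · have h1 : x ∈ (wd b).getLast? := by
        unfold wds at hx
        rw [hL', List.concat_eq_append, List.map_append, List.flatten_append] at hx
        simp only [List.map_cons, List.map_nil, List.flatten_cons, List.flatten_nil,
          List.append_nil] at hx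
        rwa [List.getLast?_append_of_ne_nil _ (RED_ne b)] at hx
      have h2 : y ∈ (wd b').head? := by
        unfold wds at hy
        rw [hL'', List.map_cons, List.flatten_cons, List.head?_append_of_ne_nil _ (RED_ne b')] at hy
        exact hy
      refine RED_junc b b' (hL.cyc b ?_ b' ?_) x y h1 h2
      · rw [hL']
        simp
      · rw [hL'']
        simp

end Pool.OA
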