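import Pool.Agent.Work.MP_8d5be4_oa.Interface

set_option autoImplicit false

open Filter Pool.AutRed

namespace Pool.OA

theorem RET_symm {J : Type} {w : J → ℤ × ℤ} {n : ℕ} {g h : FreeGroup J}
    (H : Relation.ReflTransGen (Step w n) g h) : Relation.ReflTransGen (Step w n) h g := by
  induction H with
  | refl => exact Relation.ReflTransGen.refl
  | tail _ hs ih =>
    obtain ⟨h1, h2, j, h3⟩ := hs
    exact Relation.ReflTransGen.head ⟨h2, h1, j, h3.symm⟩ ih

theorem RET_step {A : Type} {p K : ℕ} {M : ℤ} {σ : ℤ × ℤ} {n : ℕ} (g : GG A p)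
    (j : (A ⊕ Fin (p + 1)) ⊕ Bool) (h1 : Bx n (ps (wD A p K M σ) g))
    (h2 : Bx n (ps (wD A p K M σ) (g * FreeGroup.of j))) :
    Relation.ReflTransGen (Step (wP A p K M σ) n) (eta A p g) (eta A p (g * FreeGroup.of j)) := by
  have e1 : Bx n (ps (wP A p K M σ) (eta A p g)) := by rw [ps_eta]; exact h1
  have e2 : Bx n (ps (wP A p K M σ) (eta A p (g * FreeGroup.of j))) := by rw [ps_eta]; exact h2
  have v0 : ps (wP A p K M σ) (EE A p 0) = 0 := by
    rw [wP_EE]; rfl
  rcases j with (x | i) | c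
  · refine Relation.ReflTransGen.single ⟨e1, e2, Sum.inl x, Or.inl ?_⟩
    have h3 : (FreeGroup.of (Sum.inl (Sum.inl x)) : GG A p) = gA A p (FreeGroup.of x) :=
      (iA_of x).symm
    rw [h3, map_mul, eta_gA, jA_of]
  · have h3 : eta A p (g * FreeGroup.of (Sum.inl (Sum.inr i))) =
        eta A p g * EE A p i.succ * (EE A p 0)⁻¹ := by
      rw [of_eq_SS, map_mul, eta_SS, mul_assoc]
    have e3 : Bx n (ps (wP A p K M σ) (eta A p g * EE A p i.succ)) := by
      have h4 : ps (wP A p K M σ) (eta A p g * EE A p i.succ) =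
          ps (wP A p K M σ) (eta A p (g * FreeGroup.of (Sum.inl (Sum.inr i)))) := by
        rw [h3, ps_mul _ (eta A p g * EE A p i.succ), ps_inv, v0, neg_zero, add_zero]
      rw [h4]; exact e2
    refine (Relation.ReflTransGen.single (b := eta A p g * EE A p i.succ)
      ⟨e1, e3, Sum.inr (Sum.inl i.succ), Or.inl rfl⟩).tail ⟨e3, e2, Sum.inr (Sum.inl 0), Or.inr ?_⟩
    rw [h3]
    show _ = _ * EE A p 0
    group
  · have h3 : eta A p (g * FreeGroup.of (Sum.inr c)) =
        eta A p g * EE A p 0 * FreeGroup.of (Sum.inr (Sum.inr c)) * (EE A p 0)⁻¹ := by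
      have h4 : (FreeGroup.of (Sum.inr c) : GG A p) = g2 A p (FreeGroup.of c) := (i2_of c).symm
      rw [h4, map_mul, eta_g2, j2_of]
      group
    have e3 : Bx n (ps (wP A p K M σ) (eta A p g * EE A p 0)) := by
      rw [ps_mul, v0, add_zero]; exact e1
    have e4 : Bx n (ps (wP A p K M σ)
        (eta A p g * EE A p 0 * FreeGroup.of (Sum.inr (Sum.inr c)))) := by
      have h4 : ps (wP A p K M σ) (eta A p g * EE A p 0 * FreeGroup.of (Sum.inr (Sum.inr c))) =
          ps (wP A p K M σ) (eta A p (g * FreeGroup.of (Sum.inr c))) := by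
        rw [h3, ps_mul _ (eta A p g * EE A p 0 * FreeGroup.of (Sum.inr (Sum.inr c))), ps_inv, v0,
          neg_zero, add_zero]
      rw [h4]; exact e2
    refine ((Relation.ReflTransGen.single (b := eta A p g * EE A p 0)
      ⟨e1, e3, Sum.inr (Sum.inl 0), Or.inl rfl⟩).tail
      (c := eta A p g * EE A p 0 * FreeGroup.of (Sum.inr (Sum.inr c)))
      ⟨e3, e4, Sum.inr (Sum.inr c), Or.inl rfl⟩).tail ⟨e4, e2, Sum.inr (Sum.inl 0), Or.inr ?_⟩
    rw [h3]
    show _ = _ * EE A p 0
    group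

theorem p_RET : Stmt_RET := by
  intro A p K M σ n g H
  unfold Reach at H ⊢
  induction H with
  | refl => rw [map_one]
  | tail _ hs ih =>
    obtain ⟨h1, h2, j, h3 | h3⟩ := hs
    · subst h3
      exact ih.trans (RET_step _ j h1 h2)
    · subst h3
      exact ih.trans (RET_symm (RET_step _ j h2 h1))

end Pool.OA
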