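import Pool.Agent.Work.MP_8d5be4_oa.Interface

/-! # Block RJ2 -/

set_option autoImplicit false

namespace Pool.OA

open Filter Pool.AutRed

theorem RJ2_box {n : ℕ} {M : ℤ} (hM : M ≠ 0) {s : ℤ × ℤ} (h : Bx n (M • s)) : Bx n s := by
  have h1 : (1 : ℤ) ≤ |M| := Int.one_le_abs hM
  obtain ⟨h2, h3⟩ := h
  have e1 : (M • s).1 = M * s.1 := rfl
  have e2 : (M • s).2 = M * s.2 := rfl
  rw [e1, abs_mul] at h2
  rw [e2, abs_mul] at h3
  refine ⟨?_, ?_⟩
  · nlinarith [abs_nonneg s.1]
  · nlinarith [abs_nonneg s.2]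

theorem p_RJ2 (hGEO : Stmt_GEO) : Stmt_RJ2 := by
  intro A _ p K M σ n y hM hR
  have hword : FreeGroup.toWord (j2 A p y) =
      (FreeGroup.toWord y).map (fun q => ((Sum.inr (Sum.inr q.1) : A ⊕ (Fin (p + 2) ⊕ Bool)), q.2)) :=
    NRM_map (fun c : Bool => (Sum.inr (Sum.inr c) : A ⊕ (Fin (p + 2) ⊕ Bool)))
      (Sum.inr_injective.comp Sum.inr_injective) y
  -- positions of the prefixes
  have hbox : ∀ U V : List (Bool × Bool), FreeGroup.toWord y = U ++ V →
      Bx n (ps w2 (FreeGroup.mk U)) := by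
    intro U V hUV
    have h1 := hGEO _ (wP A p K M σ) n (j2 A p y) hR
      (U.map (fun q => ((Sum.inr (Sum.inr q.1) : A ⊕ (Fin (p + 2) ⊕ Bool)), q.2)))
      (V.map (fun q => ((Sum.inr (Sum.inr q.1) : A ⊕ (Fin (p + 2) ⊕ Bool)), q.2)))
      (by rw [hword, hUV, List.map_append])
    have h2 : FreeGroup.mk
        (U.map (fun q => ((Sum.inr (Sum.inr q.1) : A ⊕ (Fin (p + 2) ⊕ Bool)), q.2))) =
        j2 A p (FreeGroup.mk U) := by
      rw [j2, FreeGroup.map.mk]
    rw [h2] at h1
    have h3 := (blk_RCH _ (wP A p K M σ)).1 n _ h1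
    rw [wP_j2] at h3
    exact RJ2_box hM h3
  have key : ∀ U V : List (Bool × Bool), FreeGroup.toWord y = U ++ V →
      Reach w2 n (FreeGroup.mk U) := by
    intro U
    induction U using List.reverseRecOn with
    | nil =>
      intro V _
      exact Relation.ReflTransGen.refl
    | append_singleton U a ih =>
      intro V hUV
      have hUV' : FreeGroup.toWord y = U ++ ([a] ++ V) := by rw [hUV, List.append_assoc]
      have h1 := ih _ hUV'
      refine Relation.ReflTransGen.tail h1 ⟨hbox _ _ hUV', hbox _ _ hUV, a.1, ?_⟩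
      obtain ⟨j, b⟩ := a
      cases b
      · right
        rw [← FreeGroup.mul_mk]
        have : FreeGroup.mk [(j, false)] = (FreeGroup.of j)⁻¹ := by
          simp [FreeGroup.of, FreeGroup.inv_mk, FreeGroup.invRev]
        rw [this, inv_mul_cancel_right]
      · left
        rw [← FreeGroup.mul_mk]
        rfl
  have h := key (FreeGroup.toWord y) [] (by rw [List.append_nil])
  rwa [FreeGroup.mk_toWord] at h

end Pool.OA
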