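import Pool.Agent.Work.MP_8d5be4_oa.Interface

set_option autoImplicit false

open Filter Pool.AutRed

namespace Pool.OA

theorem SGM_lin (K : ℕ) (σ : ℤ × ℤ) (j : ℕ) :
    VV K σ j = (σ.1 * (VV K (1, 0) j).1 + σ.2 * (VV K (0, 1) j).1,
      σ.1 * (VV K (1, 0) j).2 + σ.2 * (VV K (0, 1) j).2) := by
  induction j with
  | zero => ext <;> simp [VV]
  | succ j ih =>
    rw [VV_succ, VV_succ, VV_succ, ih]
    ext <;> simp [TT] <;> ring

theorem SGM_real (K : ℕ) (lam : ℝ) (h2 : lam ^ 2 = K * lam + 1) (σ : ℤ × ℤ) (j : ℕ) :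
    lam * ((VV K σ j).1 : ℝ) + ((VV K σ j).2 : ℝ) =
      (∑ i ∈ Finset.range j, lam ^ i) * (lam * σ.1 + σ.2) := by
  induction j with
  | zero => simp [VV]
  | succ j ih =>
    rw [VV_succ, Finset.sum_range_succ']
    have h3 : (∑ i ∈ Finset.range j, lam ^ (i + 1)) = lam * ∑ i ∈ Finset.range j, lam ^ i := by
      rw [Finset.mul_sum]
      exact Finset.sum_congr rfl fun i _ => by ring
    rw [h3]
    simp only [TT, Prod.fst_add, Prod.snd_add, Int.cast_add, Int.cast_mul, Int.cast_natCast,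
      Prod.fst_zero, Prod.snd_zero, Int.cast_zero, pow_zero]
    linear_combination lam * ih - ((VV K σ j).1 : ℝ) * h2

theorem p_SGM : Stmt_SGM := by
  intro K hK k hk
  obtain ⟨lam, h1, h2, h3⟩ := blk_IRR K hK
  have hlam : 0 < lam := lt_of_le_of_lt (Nat.cast_nonneg K) h1
  have hsum : (0 : ℝ) < ∑ i ∈ Finset.range k, lam ^ i := by
    apply Finset.sum_pos
    · intro i _; positivity
    · exact ⟨0, Finset.mem_range.mpr hk⟩
  have key : ∃ σ : ℤ × ℤ, σ ≠ 0 ∧ (VV K σ k).2 = 0 := by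
    by_cases hc : (VV K (1, 0) k).2 = 0
    · exact ⟨(1, 0), by simp, hc⟩
    · refine ⟨((VV K (0, 1) k).2, -(VV K (1, 0) k).2), ?_, ?_⟩
      · intro h
        have := congrArg Prod.snd h
        simp at this
        exact hc this
      · rw [SGM_lin]; ring
  obtain ⟨σ, hσ, h0⟩ := key
  refine ⟨(VV K σ k).1, σ, ?_, Prod.ext rfl h0⟩
  intro hM
  have h4 := SGM_real K lam h2 σ k
  rw [hM, h0] at h4
  simp only [Int.cast_zero, mul_zero, add_zero] at h4
  rcases mul_eq_zero.mp h4.symm with h5 | h5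
  · exact hsum.ne' h5
  · exact hσ (h3 σ h5)

end Pool.OA
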