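import Pool.Agent.Work.MP_8d5be4_oa.Interface

set_option autoImplicit false

open Filter Pool.AutRed

namespace Pool.OA

theorem p_SLW : Stmt_SLW := by
  intro A _ _ p K hK M σ hσ a b w w' ha c hc
  have e0 : ∀ g : GG A p, c⁻¹ (dA p K a w g) = dA p K b w' (c⁻¹ g) := by
    intro g
    rw [← hc, MulAut.mul_apply, MulAut.mul_apply, MulAut.apply_inv_self]
  have e1 : ∀ h, dA p K b w' (c⁻¹ (gA A p h)) =
      (c⁻¹ (SS A p 1))⁻¹ * c⁻¹ (gA A p (a h)) * c⁻¹ (SS A p 1) := by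
    intro h
    rw [← e0, dA_gA, map_mul, map_mul, map_inv]
  have e2 : ∀ h, c⁻¹ (gA A p (a h)) =
      c⁻¹ (SS A p 1) * dA p K b w' (c⁻¹ (gA A p h)) * (c⁻¹ (SS A p 1))⁻¹ := by
    intro h
    rw [e1]
    group
  have h0 : ∀ h, ps (wD A p K M σ) (c⁻¹ (gA A p h)) = 0 := by
    intro h
    have := (blk_POS blk_IRR) K hK A a ha
      (((posHom (wD A p K M σ)).comp (c⁻¹ : MulAut (GG A p)).toMonoidHom).comp (gA A p)) ?_ h
    · exact congrArg Multiplicative.toAdd this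
    · intro h
      show ps (wD A p K M σ) (c⁻¹ (gA A p (a h))) = TT K 0 (ps (wD A p K M σ) (c⁻¹ (gA A p h)))
      rw [e2, ps_mul, ps_mul, ps_inv, ps_dA K M σ hσ]
      abel
  refine ⟨h0, ?_, ?_⟩
  · exact (blk_RBD blk_RCH) A _ (wD A p K M σ)
      ((c⁻¹ : MulAut (GG A p)).toMonoidHom.comp (gA A p)) h0
  · intro i
    induction i with
    | zero =>
      intro h
      exact ⟨1, by simp⟩
    | succ i ih =>
      intro h
      obtain ⟨q, hq⟩ := ih h
      refine ⟨c⁻¹ (SS A p 1) * dA p K b w' q, ?_⟩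
      have h1 : (dA p K b w' ^ (i + 1)) (c⁻¹ (gA A p h)) =
          dA p K b w' ((dA p K b w' ^ i) (c⁻¹ (gA A p h))) := by
        rw [pow_succ', MulAut.mul_apply]
      have h2 : (a ^ (i + 1)) h = a ((a ^ i) h) := by
        rw [pow_succ', MulAut.mul_apply]
      rw [h1, h2, e2, ← hq, map_mul, map_mul, map_inv]
      group

end Pool.OA
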