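import Pool.Agent.Work.MP_8d5be4_oa.Interface

/-! Block TEL: the orbits of the elements of position `0`. -/

set_option autoImplicit false

open Filter Pool.AutRed

namespace Pool.OA

theorem TEL_theta_one (K : ℕ) : theta K 1 = psi K := by
  simp [theta]

theorem TEL_ps_pow (K : ℕ) (m : ℕ) (c : F2) :
    ps w2 ((psi K ^ m) c) = (TT K 0)^[m] (ps w2 c) := by
  rw [← TEL_theta_one K]
  exact ps_theta_pow K 1 c m

/-- The affine map on the positions of the conjugators. -/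
def TEL_T (K p j : ℕ) (s : ℤ × ℤ) : ℤ × ℤ :=
  TT K (ps w2 ((psi K ^ j) xx) + ((K : ℤ) + 1, 0))
    ((TT K (ps w2 (1 : F2) + ((K : ℤ) + 1, 0)))^[p + 1] s)

theorem TEL_tr (K p : ℕ) (j : Fin (p + 2)) (y : F2) :
    tr K p j j y = (theta K ((psi K ^ j.val) xx) ^ 1) ((theta K 1 ^ (p + 1)) y) := by
  rw [TEL_theta_one, pow_one, MulAut.mul_apply, MulAut.conj_apply, tr, pow_succ' (psi K) (p + 1),
    MulAut.mul_apply]

theorem TEL_tr_pos (K p : ℕ) (j : Fin (p + 2)) (y : F2) :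
    ps w2 (tr K p j j y) = (TT K 0)^[p + 2] (ps w2 y) := by
  rw [TEL_tr, ps_theta_pow, ps_theta_pow, ← Function.iterate_add_apply]
  congr 1
  omega

theorem TEL_iter_zero (K k : ℕ) : (TT K 0)^[k] (0 : ℤ × ℤ) = 0 := by
  induction k with
  | zero => rfl
  | succ k ih => rw [Function.iterate_succ_apply', ih, TT_zero]

theorem TEL_orbit_pos (K p : ℕ) (j : Fin (p + 2)) (y : F2) (hy : ps w2 y = 0) (i : ℕ) :
    ps w2 ((tr K p j j)^[i] y) = 0 := by
  induction i with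
  | zero => exact hy
  | succ i ih => rw [Function.iterate_succ_apply', TEL_tr_pos, ih, TEL_iter_zero]

/-- The subgroups are pulled back. -/
theorem TEL_pull (K p : ℕ) (j : Fin (p + 2)) (i : ℕ) : ∀ (U : ℤ × ℤ → Prop) (c : F2),
    (tr K p j j)^[i] c ∈ Cl U → c ∈ Cl (fun s => U ((TEL_T K p j.val)^[i] s)) := by
  induction i with
  | zero => exact fun U c h => h
  | succ i ih =>
    intro U c h
    rw [Function.iterate_succ_apply', TEL_tr] at h
    have h1 := blk_PUL K _ U 1 _ h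
    have h2 := blk_PUL K _ _ (p + 1) _ h1
    have h3 := ih _ c h2
    simp only [Function.iterate_succ_apply']
    exact h3

theorem TEL_TT_sub (K : ℕ) (v s t : ℤ × ℤ) : TT K v s - TT K v t = TT K 0 (s - t) := by
  ext <;> simp [TT]; ring

theorem TEL_TT_iter_sub (K : ℕ) (v s t : ℤ × ℤ) (m : ℕ) :
    (TT K v)^[m] s - (TT K v)^[m] t = (TT K 0)^[m] (s - t) := by
  induction m with
  | zero => rfl
  | succ m ih =>
    rw [Function.iterate_succ_apply', Function.iterate_succ_apply', TEL_TT_sub, ih,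
      Function.iterate_succ_apply']

theorem TEL_T_sub (K p j : ℕ) (s t : ℤ × ℤ) :
    TEL_T K p j s - TEL_T K p j t = (TT K 0)^[p + 2] (s - t) := by
  rw [TEL_T, TEL_T, TEL_TT_sub, TEL_TT_iter_sub, ← Function.iterate_succ_apply' (TT K 0) (p + 1)]

theorem TEL_T_eq (K p j : ℕ) (s : ℤ × ℤ) :
    TEL_T K p j s = (TT K ((K : ℤ) + 1, 0))^[p + 2] s + (TT K 0)^[j] (1, 0) := by
  have h0 : (TT K ((K : ℤ) + 1, 0))^[p + 2] s =
      TT K ((K : ℤ) + 1, 0) ((TT K ((K : ℤ) + 1, 0))^[p + 1] s) :=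
    Function.iterate_succ_apply' _ (p + 1) s
  rw [TEL_T, TEL_ps_pow, ps_xx, ps_one, zero_add, h0, TT_eq K (_ + _), TT_eq K ((K : ℤ) + 1, 0)
    ((TT K ((K : ℤ) + 1, 0))^[p + 1] s)]
  abel

/-- No fixed point. -/
theorem TEL_nofix (hA : Stmt_ARI) {K : ℕ} (hK : 3 ≤ K) (p j : ℕ) (s : ℤ × ℤ) :
    TEL_T K p j s ≠ s := by
  intro hs
  rw [TEL_T_eq] at hs
  have h1 : (TT K ((K : ℤ) + 1, 0))^[p + 2] s = s - (TT K 0)^[j] (1, 0) := eq_sub_of_add_eq hs
  have h2 := TEL_TT_iter_sub K ((K : ℤ) + 1, 0) s (TT K ((K : ℤ) + 1, 0) s) (p + 2)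
  have h3 : (TT K ((K : ℤ) + 1, 0))^[p + 2] (TT K ((K : ℤ) + 1, 0) s) =
      TT K ((K : ℤ) + 1, 0) ((TT K ((K : ℤ) + 1, 0))^[p + 2] s) := by
    rw [← Function.iterate_succ_apply, Function.iterate_succ_apply']
  have h4 := TEL_TT_sub K ((K : ℤ) + 1, 0) s (s - (TT K 0)^[j] (1, 0))
  rw [sub_sub_cancel] at h4
  rw [h3, h1] at h2
  refine (hA K hK (p + 2) 1 j one_pos (by omega) (s - TT K ((K : ℤ) + 1, 0) s)).1 ?_
  rw [← h2, Function.iterate_succ_apply', ← h4]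
  abel

theorem p_TEL (hE : Stmt_ESK) (hA : Stmt_ARI) : Stmt_TEL := by
  intro K hK p j y hps hy n
  by_contra hcon
  rw [not_eventually] at hcon
  have hcon' : ∃ᶠ i in atTop, Reach w2 n ((tr K p j j)^[i] y) :=
    hcon.mono fun k hk => not_not.mp hk
  obtain ⟨m, hm⟩ := blk_DET y hps hy
  have hev : ∀ᶠ i in atTop, ∀ s ∈ {s : ℤ × ℤ | Bx m s}, ¬ Bx n ((TEL_T K p j.val)^[i] s) := by
    rw [Filter.eventually_all_finite (bx_finite m)]
    intro s _
    exact hE K (by omega) (p + 2) (by omega) (TEL_T K p j.val) (TEL_T_sub K p j.val) s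
      (TEL_nofix hA hK p j.val s) n
  obtain ⟨i, hi1, hi2⟩ := (hcon'.and_eventually hev).exists
  refine hm (fun s => Bx n ((TEL_T K p j.val)^[i] s)) (fun s hs hb => hi2 s hb hs) ?_
  exact TEL_pull K p j i (Bx n) y (blk_RCL n _ hi1 (TEL_orbit_pos K p j y hps i))

end Pool.OA
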