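import Pool.Agent.Work.MP_8d5be4_oa.Interface

/-!
Row MP_8d5be4_al, THEOREM OA, block TEP: the positions of a twisted orbit leave every box.
-/

set_option autoImplicit false

open Filter Pool.AutRed

namespace Pool.OA

theorem TEP_psi (K : ℕ) (c : F2) (k : ℕ) :
    ps w2 ((psi K ^ k) c) = (TT K 0)^[k] (ps w2 c) := by
  induction k with
  | zero => simp
  | succ k ih => rw [pow_succ', MulAut.mul_apply, ps_psi, ih, Function.iterate_succ_apply']

theorem TEP_sub (K k : ℕ) (s t : ℤ × ℤ) :
    (TT K 0)^[k] (s - t) = (TT K 0)^[k] s - (TT K 0)^[k] t := by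
  induction k with
  | zero => rfl
  | succ k ih =>
    rw [Function.iterate_succ_apply', ih, Function.iterate_succ_apply',
      Function.iterate_succ_apply', sub_eq_add_neg, TT_add, TT_neg, ← sub_eq_add_neg]

/-- The map on positions. -/
def TEP_T (K p j l : ℕ) (s : ℤ × ℤ) : ℤ × ℤ :=
  (TT K 0)^[j] (1, 0) + (TT K 0)^[p + 2] s - (TT K 0)^[l] (1, 0)

theorem TEP_tr (K p : ℕ) (j l : Fin (p + 2)) (y : F2) :
    ps w2 (tr K p j l y) = TEP_T K p j.val l.val (ps w2 y) := by
  rw [tr, ps_mul, ps_mul, ps_inv, TEP_psi, TEP_psi, TEP_psi, ps_xx, TEP_T, sub_eq_add_neg]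

theorem TEP_iter (K p : ℕ) (j l : Fin (p + 2)) (y : F2) (i : ℕ) :
    ps w2 ((tr K p j l)^[i] y) = (TEP_T K p j.val l.val)^[i] (ps w2 y) := by
  induction i with
  | zero => rfl
  | succ i ih => rw [Function.iterate_succ_apply', TEP_tr, ih, Function.iterate_succ_apply']

/-- No fixed points of the iterates. -/
theorem TEP_fix {K : ℕ} (hK : 1 ≤ K) (p : ℕ) (s : ℤ × ℤ) (h : (TT K 0)^[p + 2] s = s) :
    s = 0 := by
  obtain ⟨lam, hlam, hq, hirr⟩ := blk_IRR K hK
  have hKr : (1 : ℝ) ≤ K := by exact_mod_cast hK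
  have hl1 : 1 < lam := by linarith
  have h1 := ESC_l_iter hq s (p + 2)
  rw [h] at h1
  have h2 : 1 < lam ^ (p + 2) := one_lt_pow₀ hl1 (by omega)
  have h3 : (lam ^ (p + 2) - 1) * ESC_l lam s = 0 := by linear_combination -h1
  have h4 : lam ^ (p + 2) - 1 ≠ 0 := by linarith
  exact hirr s ((mul_eq_zero.1 h3).resolve_left h4)

theorem p_TEP (hESK : Stmt_ESK) (hARI : Stmt_ARI) : Stmt_TEP := by
  intro K hK p j l y hjl n
  have hne : TEP_T K p j.val l.val (ps w2 y) ≠ ps w2 y := by
    intro h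
    have h1 : ps w2 y - (TT K 0)^[p + 2] (ps w2 y)
        = (TT K 0)^[j.val] (1, 0) - (TT K 0)^[l.val] (1, 0) := by
      rw [TEP_T] at h
      nth_rewrite 1 [← h]
      abel
    have hj := j.isLt
    have hl := l.isLt
    rcases lt_trichotomy j.val l.val with h2 | h2 | h2
    · apply (hARI K hK (p + 2) (l.val - j.val) j.val (by omega) (by omega) (ps w2 y)).1
      rw [h1, show j.val + (l.val - j.val) = l.val by omega]
    · have h3 : ps w2 y ≠ 0 := by
        rcases hjl with h4 | h4
        · exact absurd (Fin.ext h2) h4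
        · exact h4
      apply h3
      apply TEP_fix (by omega : 1 ≤ K) p
      rw [h2, sub_self] at h1
      exact (sub_eq_zero.1 h1).symm
    · apply (hARI K hK (p + 2) (j.val - l.val) l.val (by omega) (by omega) (ps w2 y)).2
      rw [h1, show l.val + (j.val - l.val) = j.val by omega]
  have h := hESK K (by omega) (p + 2) (by omega) (TEP_T K p j.val l.val) (by
    intro s t
    rw [TEP_sub, TEP_T, TEP_T]
    abel) (ps w2 y) hne n
  filter_upwards [h] with i hi hr
  apply hi
  rw [← TEP_iter]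
  exact (blk_RCH Bool w2).1 n _ hr

end Pool.OA
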