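import Pool.Agent.Work.MP_8d5be4_oa.Interface

set_option autoImplicit false

open Filter Pool.AutRed

namespace Pool.OA

theorem p_TRK : Stmt_TRK := by
  intro n hn A hA
  by_contra hcon
  push Not at hcon
  obtain ⟨P, hP⟩ : ∃ P : Polynomial ℤ, P = A.charpoly * (Polynomial.X - Polynomial.C 1) :=
    ⟨_, rfl⟩
  have hdeg : P.natDegree < n + 2 := by
    have h1 : P.natDegree ≤ n + 1 := by
      rw [hP]
      refine Polynomial.natDegree_mul_le.trans ?_
      rw [A.charpoly_natDegree_eq_dim, Fintype.card_fin, Polynomial.natDegree_X_sub_C]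
    omega
  have h1 : Polynomial.aeval A P = 0 := by
    rw [hP, map_mul, A.aeval_self_charpoly, zero_mul]
  have h2 : P.eval 1 = 0 := by
    rw [hP]
    simp
  rw [Polynomial.aeval_eq_sum_range' hdeg] at h1
  rw [Polynomial.eval_eq_sum_range' hdeg] at h2
  have h3 : ∑ i ∈ Finset.range (n + 2), P.coeff i * (A ^ i).trace = 0 := by
    have h4 := congrArg Matrix.trace h1
    rw [Matrix.trace_sum, Matrix.trace_zero] at h4
    rw [← h4]
    refine Finset.sum_congr rfl fun i _ => ?_
    rw [Matrix.trace_smul, smul_eq_mul]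
  have h5 : ∑ i ∈ Finset.range (n + 2), P.coeff i * ((A ^ i).trace - 1) = 0 := by
    have h6 : ∀ i ∈ Finset.range (n + 2), P.coeff i * ((A ^ i).trace - 1) =
        P.coeff i * (A ^ i).trace - P.coeff i * 1 ^ i := by
      intro i _
      rw [one_pow]
      ring
    rw [Finset.sum_congr rfl h6, Finset.sum_sub_distrib, h3, h2, sub_zero]
  rw [Finset.sum_eq_single 0] at h5
  · rw [pow_zero, Matrix.trace_one, Fintype.card_fin] at h5
    rcases mul_eq_zero.mp h5 with h7 | h7
    · rw [hP, Polynomial.mul_coeff_zero] at h7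
      simp only [Polynomial.coeff_sub, Polynomial.coeff_X_zero, Polynomial.coeff_C_zero,
        zero_sub, mul_neg, mul_one, neg_eq_zero] at h7
      apply hA
      rw [Matrix.det_eq_sign_charpoly_coeff, h7, mul_zero]
    · have : (n : ℤ) = 1 := by linarith
      have : n = 1 := by exact_mod_cast this
      omega
  · intro i hi hi0
    rw [Finset.mem_range] at hi
    rw [hcon i (Nat.one_le_iff_ne_zero.mpr hi0) (by omega), sub_self, mul_zero]
  · intro h
    exact absurd (Finset.mem_range.mpr (by omega)) h

end Pool.OA
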