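import Pool.Agent.Work.MP_8d5be4_out.Glue

/-!
Row MP_8d5be4_al, THEOREM OA (conjugators in Out(F_n) from conjugators in Aut(F_(2n+4))):
definitions.  The whole proof is in note 3276.  `k = p + 2` is the period, so `k ≥ 2`.
-/

set_option autoImplicit false

open Pool.AutRed

namespace Pool.OA

/-! ### the group `GG = F_A * ⟨S_1, …, S_(p+1)⟩ * F2` -/

/-- `F_A * ⟨S_1, …, S_(p+1)⟩ * F2`. -/
abbrev GG (A : Type) (p : ℕ) : Type := G (A ⊕ Fin (p + 1))

/-- The inclusion of `F_A`. -/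
abbrev gA (A : Type) (p : ℕ) : FreeGroup A →* GG A p := iA A (Fin (p + 1))

/-- The inclusion of `F2`. -/
abbrev g2 (A : Type) (p : ℕ) : F2 →* GG A p := i2 (A ⊕ Fin (p + 1))

/-- `S_0 = 1` and the letters `S_1, …, S_(p+1)`. -/
def SS (A : Type) (p : ℕ) (j : Fin (p + 2)) : GG A p :=
  Fin.cases 1 (fun i : Fin (p + 1) => FreeGroup.of (Sum.inl (Sum.inr i))) j

section
variable {A : Type} {p : ℕ}

@[simp] theorem SS_zero : SS A p 0 = 1 := rfl

@[simp] theorem SS_succ (i : Fin (p + 1)) : SS A p i.succ = FreeGroup.of (Sum.inl (Sum.inr i)) := by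
  simp [SS]

theorem of_eq_SS (i : Fin (p + 1)) :
    (FreeGroup.of (Sum.inl (Sum.inr i)) : GG A p) = SS A p i.succ := (SS_succ i).symm

theorem gg_ext {H : Type*} [Group H] {f g : GG A p →* H}
    (h1 : ∀ h, f (gA A p h) = g (gA A p h)) (h2 : ∀ j, f (SS A p j) = g (SS A p j))
    (h3 : ∀ c, f (g2 A p c) = g (g2 A p c)) : f = g := by
  refine gAR_ext h1 (fun i => ?_) h3
  rw [of_eq_SS]; exact h2 _

/-- A homomorphism given on `F_A`, on the letters `S_(i+1)` and on `F2`. -/
def mkHom {H : Type*} [Group H] (f : FreeGroup A →* H) (t : Fin (p + 1) → H) (e : F2 →* H) :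
    GG A p →* H :=
  FreeGroup.lift (Sum.elim (Sum.elim (fun x => f (FreeGroup.of x)) t) (fun c => e (FreeGroup.of c)))

@[simp] theorem mkHom_gA {H : Type*} [Group H] (f : FreeGroup A →* H) (t : Fin (p + 1) → H)
    (e : F2 →* H) (h : FreeGroup A) : mkHom f t e (gA A p h) = f h := by
  have : (mkHom f t e).comp (gA A p) = f := by
    ext x; simp [mkHom]
  exact DFunLike.congr_fun this h

@[simp] theorem mkHom_g2 {H : Type*} [Group H] (f : FreeGroup A →* H) (t : Fin (p + 1) → H)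
    (e : F2 →* H) (c : F2) : mkHom f t e (g2 A p c) = e c := by
  have : (mkHom f t e).comp (g2 A p) = e := by
    ext x; simp [mkHom]
  exact DFunLike.congr_fun this c

@[simp] theorem mkHom_S {H : Type*} [Group H] (f : FreeGroup A →* H) (t : Fin (p + 1) → H)
    (e : F2 →* H) (i : Fin (p + 1)) : mkHom f t e (SS A p i.succ) = t i := by
  simp [mkHom]

/-! ### the automorphism `D = D_(a,w)` -/

/-- `S_2, …, S_(p+1), w⁻¹ x`. -/
def SN (p : ℕ) (w : FreeGroup A) : Fin (p + 1) → GG A p :=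
  Fin.lastCases ((gA A p w)⁻¹ * g2 A p xx) (fun i : Fin p => SS A p i.succ.succ)

@[simp] theorem SN_last (w : FreeGroup A) : SN p w (Fin.last p) = (gA A p w)⁻¹ * g2 A p xx := by
  simp [SN]

@[simp] theorem SN_castSucc (w : FreeGroup A) (i : Fin p) :
    SN p w i.castSucc = SS A p i.succ.succ := by
  simp [SN]

/-- `D` on `F_A` is `h ↦ S_1⁻¹ a(h) S_1`, on the letters `S_j ↦ S_1⁻¹ S_(j+1)` (`j ≤ p`) and
`S_(p+1) ↦ S_1⁻¹ w⁻¹ x`, on `F2` it is `psi`. -/
def dHom (K : ℕ) (a : MulAut (FreeGroup A)) (w : FreeGroup A) : GG A p →* GG A p :=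
  mkHom ((MulAut.conj (SS A p 1)⁻¹).toMonoidHom.comp ((gA A p).comp a.toMonoidHom))
    (fun i => (SS A p 1)⁻¹ * SN p w i) ((g2 A p).comp (psi K).toMonoidHom)

/-- `D⁻¹(S_1)`. -/
def TI (a : MulAut (FreeGroup A)) (w : FreeGroup A) : GG A p :=
  g2 A p yy * (SS A p (Fin.last (p + 1)))⁻¹ * (gA A p (a⁻¹ w))⁻¹

/-- The inverse of `D`. -/
def dInv (K : ℕ) (a : MulAut (FreeGroup A)) (w : FreeGroup A) : GG A p →* GG A p :=
  mkHom ((MulAut.conj (TI a w)).toMonoidHom.comp ((gA A p).comp (a⁻¹).toMonoidHom))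
    (fun i => TI a w * SS A p i.castSucc) ((g2 A p).comp ((psi K)⁻¹).toMonoidHom)

theorem dHom_gA (K : ℕ) (a : MulAut (FreeGroup A)) (w h : FreeGroup A) :
    dHom K a w (gA A p h) = (SS A p 1)⁻¹ * gA A p (a h) * SS A p 1 := by
  simp [dHom]

theorem dHom_g2 (K : ℕ) (a : MulAut (FreeGroup A)) (w : FreeGroup A) (c : F2) :
    dHom K a w (g2 A p c) = g2 A p (psi K c) := by
  simp [dHom]

theorem dHom_S (K : ℕ) (a : MulAut (FreeGroup A)) (w : FreeGroup A) (i : Fin (p + 1)) :
    dHom K a w (SS A p i.succ) = (SS A p 1)⁻¹ * SN p w i := by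
  rw [dHom, mkHom_S]

theorem dInv_gA (K : ℕ) (a : MulAut (FreeGroup A)) (w h : FreeGroup A) :
    dInv (p := p) K a w (gA A p h) = TI a w * gA A p (a⁻¹ h) * (TI a w)⁻¹ := by
  simp [dInv, MulAut.conj_apply]

theorem dInv_g2 (K : ℕ) (a : MulAut (FreeGroup A)) (w : FreeGroup A) (c : F2) :
    dInv K a w (g2 A p c) = g2 A p ((psi K)⁻¹ c) := by
  simp [dInv]

theorem dInv_S (K : ℕ) (a : MulAut (FreeGroup A)) (w : FreeGroup A) (i : Fin (p + 1)) :
    dInv K a w (SS A p i.succ) = TI a w * SS A p i.castSucc := by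
  rw [dInv, mkHom_S]

theorem dInv_S1 (K : ℕ) (a : MulAut (FreeGroup A)) (w : FreeGroup A) :
    dInv K a w (SS A p 1) = TI a w := by
  have h : (1 : Fin (p + 2)) = (0 : Fin (p + 1)).succ := rfl
  rw [h, dInv_S]
  simp

theorem last_eq_succ (p : ℕ) : Fin.last (p + 1) = (Fin.last p).succ := rfl

theorem dHom_TI (K : ℕ) (a : MulAut (FreeGroup A)) (w : FreeGroup A) :
    dHom K a w (TI a w) = SS A p 1 := by
  rw [TI, map_mul, map_mul, map_inv, map_inv, dHom_g2, psi_yy, last_eq_succ, dHom_S, SN_last,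
    dHom_gA]
  simp only [MulAut.apply_inv_self]
  group

/-- The automorphism `D_(a,w)`. -/
def dA (p K : ℕ) (a : MulAut (FreeGroup A)) (w : FreeGroup A) : MulAut (GG A p) :=
  MonoidHom.toMulEquiv (dHom K a w) (dInv K a w)
    (gg_ext (by
      intro h
      simp only [MonoidHom.comp_apply, dHom_gA, map_mul, map_inv, dInv_gA, dInv_S1,
        MulAut.inv_apply_self, MonoidHom.id_apply]
      group) (by
      intro j
      refine Fin.cases ?_ (fun i => ?_) j
      · simp
      · rw [MonoidHom.comp_apply, dHom_S, map_mul, map_inv, dInv_S1, MonoidHom.id_apply]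
        refine Fin.lastCases ?_ (fun i => ?_) i
        · rw [SN_last, map_mul, map_inv, dInv_gA, dInv_g2, psi_inv_xx, TI, ← last_eq_succ]
          group
        · rw [SN_castSucc, dInv_S]
          have : (i.succ : Fin (p + 1)).castSucc = (i.castSucc).succ := rfl
          rw [this]
          group) (by
      intro c
      simp [dHom_g2, dInv_g2]))
    (gg_ext (by
      intro h
      simp only [MonoidHom.comp_apply, dInv_gA, map_mul, map_inv, dHom_gA, dHom_TI,
        MulAut.apply_inv_self, MonoidHom.id_apply]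
      group) (by
      intro j
      refine Fin.cases ?_ (fun i => ?_) j
      · simp
      · rw [MonoidHom.comp_apply, dInv_S, map_mul, dHom_TI, MonoidHom.id_apply]
        refine Fin.cases ?_ (fun i => ?_) i
        · simp only [Fin.castSucc_zero, SS_zero, map_one, mul_one]
          rfl
        · have : (i.succ : Fin (p + 1)).castSucc = (i.castSucc).succ := rfl
          rw [this, dHom_S, SN_castSucc]
          group) (by
      intro c
      simp [dHom_g2, dInv_g2]))

theorem dA_apply (K : ℕ) (a : MulAut (FreeGroup A)) (w : FreeGroup A) (g : GG A p) :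
    dA p K a w g = dHom K a w g := rfl

theorem dA_gA (K : ℕ) (a : MulAut (FreeGroup A)) (w h : FreeGroup A) :
    dA p K a w (gA A p h) = (SS A p 1)⁻¹ * gA A p (a h) * SS A p 1 := dHom_gA K a w h

theorem dA_g2 (K : ℕ) (a : MulAut (FreeGroup A)) (w : FreeGroup A) (c : F2) :
    dA p K a w (g2 A p c) = g2 A p (psi K c) := dHom_g2 K a w c

theorem dA_S (K : ℕ) (a : MulAut (FreeGroup A)) (w : FreeGroup A) (i : Fin (p + 1)) :
    dA p K a w (SS A p i.succ) = (SS A p 1)⁻¹ * SN p w i := dHom_S K a w i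

/-- on `S_1, …, S_p` -/
theorem dA_S_castSucc (K : ℕ) (a : MulAut (FreeGroup A)) (w : FreeGroup A) (i : Fin p) :
    dA p K a w (SS A p i.castSucc.succ) = (SS A p 1)⁻¹ * SS A p i.succ.succ := by
  rw [dA_S, SN_castSucc]

/-- on the last letter `S_(p+1)` -/
theorem dA_S_last (K : ℕ) (a : MulAut (FreeGroup A)) (w : FreeGroup A) :
    dA p K a w (SS A p (Fin.last (p + 1))) = (SS A p 1)⁻¹ * ((gA A p w)⁻¹ * g2 A p xx) := by
  rw [last_eq_succ, dA_S, SN_last]

end

/-! ### the big group `GP = F_A * ⟨E_0, …, E_(p+1)⟩ * F2` -/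

/-- `F_A * ⟨E_0, …, E_(p+1)⟩ * F2`. -/
abbrev GP (A : Type) (p : ℕ) : Type := FreeGroup (A ⊕ (Fin (p + 2) ⊕ Bool))

/-- The inclusion of `F_A`. -/
def jA (A : Type) (p : ℕ) : FreeGroup A →* GP A p := FreeGroup.map Sum.inl

/-- The inclusion of `F2`. -/
def j2 (A : Type) (p : ℕ) : F2 →* GP A p := FreeGroup.map (fun c => Sum.inr (Sum.inr c))

/-- The letters `E_0, …, E_(p+1)`. -/
def EE (A : Type) (p : ℕ) (j : Fin (p + 2)) : GP A p := FreeGroup.of (Sum.inr (Sum.inl j))

section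
variable {A : Type} {p : ℕ}

@[simp] theorem jA_of (x : A) : jA A p (FreeGroup.of x) = FreeGroup.of (Sum.inl x) := by
  simp [jA]

@[simp] theorem j2_of (c : Bool) : j2 A p (FreeGroup.of c) = FreeGroup.of (Sum.inr (Sum.inr c)) := by
  simp [j2]

theorem jA_injective : Function.Injective (jA A p) := FreeGroup.map_injective Sum.inl_injective

theorem j2_injective : Function.Injective (j2 A p) :=
  FreeGroup.map_injective (Sum.inr_injective.comp Sum.inr_injective)

theorem gp_ext {H : Type*} [Group H] {f g : GP A p →* H}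
    (h1 : ∀ h, f (jA A p h) = g (jA A p h)) (h2 : ∀ j, f (EE A p j) = g (EE A p j))
    (h3 : ∀ c, f (j2 A p c) = g (j2 A p c)) : f = g := by
  refine FreeGroup.ext_hom _ _ ?_
  rintro (x | j | c)
  · simpa using h1 (FreeGroup.of x)
  · exact h2 j
  · simpa using h3 (FreeGroup.of c)

/-- A homomorphism given on `F_A`, on the letters `E_j` and on `F2`. -/
def mkP {H : Type*} [Group H] (f : FreeGroup A →* H) (t : Fin (p + 2) → H) (e : F2 →* H) :
    GP A p →* H :=
  FreeGroup.lift (Sum.elim (fun x => f (FreeGroup.of x)) (Sum.elim t (fun c => e (FreeGroup.of c))))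

@[simp] theorem mkP_jA {H : Type*} [Group H] (f : FreeGroup A →* H) (t : Fin (p + 2) → H)
    (e : F2 →* H) (h : FreeGroup A) : mkP f t e (jA A p h) = f h := by
  have : (mkP f t e).comp (jA A p) = f := by
    ext x; simp [mkP]
  exact DFunLike.congr_fun this h

@[simp] theorem mkP_j2 {H : Type*} [Group H] (f : FreeGroup A →* H) (t : Fin (p + 2) → H)
    (e : F2 →* H) (c : F2) : mkP f t e (j2 A p c) = e c := by
  have : (mkP f t e).comp (j2 A p) = e := by
    ext x; simp [mkP]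
  exact DFunLike.congr_fun this c

@[simp] theorem mkP_E {H : Type*} [Group H] (f : FreeGroup A →* H) (t : Fin (p + 2) → H)
    (e : F2 →* H) (j : Fin (p + 2)) : mkP f t e (EE A p j) = t j := by
  simp [mkP, EE]

/-- `E_1, …, E_(p+1), w⁻¹ E_0 x`. -/
def EN (p : ℕ) (w : FreeGroup A) : Fin (p + 2) → GP A p :=
  Fin.lastCases ((jA A p w)⁻¹ * EE A p 0 * j2 A p xx) (fun i : Fin (p + 1) => EE A p i.succ)

@[simp] theorem EN_last (w : FreeGroup A) :
    EN p w (Fin.last (p + 1)) = (jA A p w)⁻¹ * EE A p 0 * j2 A p xx := by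
  simp [EN]

@[simp] theorem EN_castSucc (w : FreeGroup A) (i : Fin (p + 1)) :
    EN p w i.castSucc = EE A p i.succ := by
  simp [EN]

/-- `D+`: `a` on `F_A`, `E_j ↦ E_(j+1)`, `E_(p+1) ↦ w⁻¹ E_0 x`, `psi` on `F2`. -/
def dP (p K : ℕ) (a : MulAut (FreeGroup A)) (w : FreeGroup A) : GP A p →* GP A p :=
  mkP ((jA A p).comp a.toMonoidHom) (EN p w) ((j2 A p).comp (psi K).toMonoidHom)

theorem dP_jA (K : ℕ) (a : MulAut (FreeGroup A)) (w h : FreeGroup A) :
    dP p K a w (jA A p h) = jA A p (a h) := by simp [dP]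

theorem dP_j2 (K : ℕ) (a : MulAut (FreeGroup A)) (w : FreeGroup A) (c : F2) :
    dP p K a w (j2 A p c) = j2 A p (psi K c) := by simp [dP]

theorem dP_E (K : ℕ) (a : MulAut (FreeGroup A)) (w : FreeGroup A) (j : Fin (p + 2)) :
    dP p K a w (EE A p j) = EN p w j := by simp [dP]

theorem dP_E_castSucc (K : ℕ) (a : MulAut (FreeGroup A)) (w : FreeGroup A) (i : Fin (p + 1)) :
    dP p K a w (EE A p i.castSucc) = EE A p i.succ := by simp [dP]

theorem dP_E_last (K : ℕ) (a : MulAut (FreeGroup A)) (w : FreeGroup A) :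
    dP p K a w (EE A p (Fin.last (p + 1))) = (jA A p w)⁻¹ * EE A p 0 * j2 A p xx := by simp [dP]

/-- `eta : GG → GP`, `h ↦ h`, `S_j ↦ E_j E_0⁻¹`, `c ↦ E_0 c E_0⁻¹`. -/
def eta (A : Type) (p : ℕ) : GG A p →* GP A p :=
  mkHom (jA A p) (fun i => EE A p i.succ * (EE A p 0)⁻¹)
    ((MulAut.conj (EE A p 0)).toMonoidHom.comp (j2 A p))

@[simp] theorem eta_gA (h : FreeGroup A) : eta A p (gA A p h) = jA A p h := by simp [eta]

@[simp] theorem eta_g2 (c : F2) : eta A p (g2 A p c) = EE A p 0 * j2 A p c * (EE A p 0)⁻¹ := by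
  simp [eta, MulAut.conj_apply]

@[simp] theorem eta_SS (j : Fin (p + 2)) : eta A p (SS A p j) = EE A p j * (EE A p 0)⁻¹ := by
  refine Fin.cases ?_ (fun i => ?_) j
  · simp
  · rw [eta, mkHom_S]

theorem conj_ext {H : Type*} [Group H] {f g : GG A p →* H} (z : H)
    (h1 : ∀ h, f (gA A p h) = z * g (gA A p h) * z⁻¹) (h2 : ∀ j, f (SS A p j) = z * g (SS A p j) * z⁻¹)
    (h3 : ∀ c, f (g2 A p c) = z * g (g2 A p c) * z⁻¹) (x : GG A p) : f x = z * g x * z⁻¹ := by
  have key : f = (MulAut.conj z).toMonoidHom.comp g := by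
    refine gg_ext ?_ ?_ ?_
    · intro h; simp [MulAut.conj_apply, h1]
    · intro j; simp [MulAut.conj_apply, h2]
    · intro c; simp [MulAut.conj_apply, h3]
  have h := DFunLike.congr_fun key x
  simpa [MulAut.conj_apply] using h

theorem eta_dA (K : ℕ) (a : MulAut (FreeGroup A)) (w : FreeGroup A) (g : GG A p) :
    eta A p (dA p K a w g) =
      (eta A p (SS A p 1))⁻¹ * dP p K a w (eta A p g) * eta A p (SS A p 1) := by
  have h0 : dP p K a w (EE A p 0) = EE A p 1 := dP_E_castSucc K a w 0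
  have key := conj_ext (f := (eta A p).comp (dHom K a w)) (g := (dP p K a w).comp (eta A p))
    (eta A p (SS A p 1))⁻¹ (by
      intro h
      simp only [MonoidHom.comp_apply, dHom_gA, map_mul, map_inv, eta_gA, dP_jA, inv_inv]) (by
      intro j
      refine Fin.cases ?_ (fun i => ?_) j
      · simp
      · rw [MonoidHom.comp_apply, dHom_S, map_mul, MonoidHom.comp_apply, eta_SS, eta_SS, map_mul,
          map_inv, map_inv, h0]
        refine Fin.lastCases ?_ (fun i => ?_) i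
        · have hl : (Fin.last p).succ = Fin.last (p + 1) := rfl
          rw [SN_last, hl, dP_E_last]
          simp only [map_mul, map_inv, eta_gA, eta_g2, eta_SS]
          group
        · have hl : (i.castSucc : Fin (p + 1)).succ = (i.succ : Fin (p + 1)).castSucc := rfl
          rw [SN_castSucc, hl, dP_E_castSucc]
          simp only [eta_SS]
          group) (by
      intro c
      simp only [MonoidHom.comp_apply, dHom_g2, eta_g2, map_mul, map_inv, h0, dP_j2, eta_SS]
      group) g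
  rw [inv_inv] at key
  exact key

end

/-! ### positions -/

/-- `V_j = (1 + Psi + … + Psi^(j-1)) σ`. -/
def VV (K : ℕ) (σ : ℤ × ℤ) (j : ℕ) : ℤ × ℤ := (TT K σ)^[j] 0

/-- The weight on the letters of `GG`. -/
def wD (A : Type) (p K : ℕ) (M : ℤ) (σ : ℤ × ℤ) : (A ⊕ Fin (p + 1)) ⊕ Bool → ℤ × ℤ :=
  Sum.elim (Sum.elim (fun _ => 0) (fun i => VV K σ (i.val + 1))) (fun c => M • w2 c)

/-- The weight on the letters of `GP`. -/
def wP (A : Type) (p K : ℕ) (M : ℤ) (σ : ℤ × ℤ) : A ⊕ (Fin (p + 2) ⊕ Bool) → ℤ × ℤ :=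
  Sum.elim (fun _ => 0) (Sum.elim (fun j => VV K σ j.val) (fun c => M • w2 c))

theorem TT_add (K : ℕ) (s t : ℤ × ℤ) : TT K 0 (s + t) = TT K 0 s + TT K 0 t := by
  ext <;> simp [TT]; ring

theorem TT_neg (K : ℕ) (s : ℤ × ℤ) : TT K 0 (-s) = - TT K 0 s := by
  ext <;> simp [TT]; ring

theorem TT_smul (K : ℕ) (M : ℤ) (s : ℤ × ℤ) : TT K 0 (M • s) = M • TT K 0 s := by
  ext <;> simp [TT]; ring

theorem TT_eq (K : ℕ) (v s : ℤ × ℤ) : TT K v s = TT K 0 s + v := by
  ext <;> simp [TT]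

@[simp] theorem TT_zero (K : ℕ) : TT K 0 0 = 0 := by
  ext <;> simp [TT]

section
variable {A : Type} {p : ℕ}

@[simp] theorem wD_gA (K : ℕ) (M : ℤ) (σ : ℤ × ℤ) (h : FreeGroup A) :
    ps (wD A p K M σ) (gA A p h) = 0 := by
  have key : (posHom (wD A p K M σ)).comp (gA A p) = 1 := by
    ext x <;> simp [posHom, wD]
  exact congrArg Multiplicative.toAdd (DFunLike.congr_fun key h)

@[simp] theorem wD_SS (K : ℕ) (M : ℤ) (σ : ℤ × ℤ) (j : Fin (p + 2)) :
    ps (wD A p K M σ) (SS A p j) = VV K σ j.val := by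
  refine Fin.cases ?_ (fun i => ?_) j
  · rw [SS_zero, ps_one]; rfl
  · rw [SS_succ, ps_of]; rfl

@[simp] theorem wD_g2 (K : ℕ) (M : ℤ) (σ : ℤ × ℤ) (c : F2) :
    ps (wD A p K M σ) (g2 A p c) = M • ps w2 c := by
  induction c using snoc_ind with
  | h1 => rw [map_one, ps_one, ps_one, smul_zero]
  | hs g j ih =>
    rw [map_mul, ps_mul, ih, ps_mul, smul_add, i2_of, ps_of, ps_of]; rfl
  | hi g j ih =>
    rw [map_mul, ps_mul, ih, ps_mul, smul_add, map_inv, ps_inv, ps_inv, i2_of, ps_of, ps_of,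
      smul_neg]; rfl

@[simp] theorem wP_jA (K : ℕ) (M : ℤ) (σ : ℤ × ℤ) (h : FreeGroup A) :
    ps (wP A p K M σ) (jA A p h) = 0 := by
  have key : (posHom (wP A p K M σ)).comp (jA A p) = 1 := by
    ext x <;> simp [posHom, wP]
  exact congrArg Multiplicative.toAdd (DFunLike.congr_fun key h)

@[simp] theorem wP_EE (K : ℕ) (M : ℤ) (σ : ℤ × ℤ) (j : Fin (p + 2)) :
    ps (wP A p K M σ) (EE A p j) = VV K σ j.val := by
  rw [EE, ps_of]; rfl

@[simp] theorem wP_j2 (K : ℕ) (M : ℤ) (σ : ℤ × ℤ) (c : F2) :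
    ps (wP A p K M σ) (j2 A p c) = M • ps w2 c := by
  induction c using snoc_ind with
  | h1 => rw [map_one, ps_one, ps_one, smul_zero]
  | hs g j ih =>
    rw [map_mul, ps_mul, ih, ps_mul, smul_add, j2_of, ps_of, ps_of]; rfl
  | hi g j ih =>
    rw [map_mul, ps_mul, ih, ps_mul, smul_add, map_inv, ps_inv, ps_inv, j2_of, ps_of, ps_of,
      smul_neg]; rfl

theorem VV_succ (K : ℕ) (σ : ℤ × ℤ) (j : ℕ) : VV K σ (j + 1) = TT K 0 (VV K σ j) + σ := by
  rw [VV, Function.iterate_succ_apply', TT_eq]; rfl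

theorem VV_one (K : ℕ) (σ : ℤ × ℤ) : VV K σ 1 = σ := by
  rw [VV_succ]; simp [VV]

/-- Equivariance of the position. -/
theorem ps_dA (K : ℕ) (M : ℤ) (σ : ℤ × ℤ) (hσ : VV K σ (p + 2) = (M, 0))
    (a : MulAut (FreeGroup A)) (w : FreeGroup A) (g : GG A p) :
    ps (wD A p K M σ) (dA p K a w g) = TT K 0 (ps (wD A p K M σ) g) := by
  have hS : ∀ i : Fin (p + 1), ps (wD A p K M σ) (dA p K a w (SS A p i.succ)) =
      TT K 0 (ps (wD A p K M σ) (SS A p i.succ)) := by
    intro i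
    have h1 : ((1 : Fin (p + 2)) : ℕ) = 1 := rfl
    rw [dA_S, ps_mul, ps_inv, wD_SS, wD_SS, h1, VV_one]
    refine Fin.lastCases ?_ (fun i => ?_) i
    · rw [SN_last, ps_mul, ps_inv, wD_gA, wD_g2, ps_xx]
      have h2 : ((Fin.last p).succ : ℕ) = p + 1 := rfl
      rw [h2]
      have h3 := VV_succ K σ (p + 1)
      have h4 : VV K σ (p + 1 + 1) = (M, 0) := hσ
      rw [h4] at h3
      have h5 : TT K 0 (VV K σ (p + 1)) = (M, 0) - σ := by rw [h3]; abel
      rw [h5]
      have h6 : M • ((1, 0) : ℤ × ℤ) = (M, 0) := by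
        ext <;> simp
      rw [h6]
      abel
    · rw [SN_castSucc, wD_SS]
      have h2 : ((i.succ.succ : Fin (p + 2)) : ℕ) = i.val + 1 + 1 := rfl
      have h3 : ((i.castSucc.succ : Fin (p + 2)) : ℕ) = i.val + 1 := rfl
      rw [h2, h3, VV_succ]
      abel
  have hj : ∀ j, ps (wD A p K M σ) (dA p K a w (FreeGroup.of j)) =
      TT K 0 (ps (wD A p K M σ) (FreeGroup.of j)) := by
    rintro ((x | i) | c)
    · have : (FreeGroup.of (Sum.inl (Sum.inl x)) : GG A p) = gA A p (FreeGroup.of x) :=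
        (iA_of x).symm
      rw [this, dA_gA, ps_mul, ps_mul, ps_inv, wD_gA, wD_gA, TT_zero]
      abel
    · have := hS i
      rwa [SS_succ] at this
    · have : (FreeGroup.of (Sum.inr c) : GG A p) = g2 A p (FreeGroup.of c) := (i2_of c).symm
      rw [this, dA_g2, wD_g2, wD_g2, ps_psi, TT_smul]
  induction g using snoc_ind with
  | h1 => rw [map_one, ps_one, TT_zero]
  | hs g j ih => rw [map_mul, ps_mul, ih, ps_mul, TT_add, hj]
  | hi g j ih => rw [map_mul, ps_mul, ih, ps_mul, TT_add, map_inv, ps_inv, ps_inv, TT_neg, hj]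

theorem ps_eta (K : ℕ) (M : ℤ) (σ : ℤ × ℤ) (g : GG A p) :
    ps (wP A p K M σ) (eta A p g) = ps (wD A p K M σ) g := by
  have key : (posHom (wP A p K M σ)).comp (eta A p) = posHom (wD A p K M σ) := by
    refine gg_ext ?_ ?_ ?_
    · intro h
      apply Multiplicative.toAdd.injective
      show ps (wP A p K M σ) (eta A p (gA A p h)) = ps (wD A p K M σ) (gA A p h)
      rw [eta_gA, wP_jA, wD_gA]
    · intro j
      apply Multiplicative.toAdd.injective
      show ps (wP A p K M σ) (eta A p (SS A p j)) = ps (wD A p K M σ) (SS A p j)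
      rw [eta_SS, ps_mul, ps_inv, wP_EE, wP_EE, wD_SS]
      have : VV K σ ((0 : Fin (p + 2)) : ℕ) = 0 := rfl
      rw [this, neg_zero, add_zero]
    · intro c
      apply Multiplicative.toAdd.injective
      show ps (wP A p K M σ) (eta A p (g2 A p c)) = ps (wD A p K M σ) (g2 A p c)
      rw [eta_g2, ps_mul, ps_mul, ps_inv, wP_j2, wD_g2]
      abel
  exact congrArg Multiplicative.toAdd (DFunLike.congr_fun key g)

end

/-! ### blocks -/

/-- The block `f E_j y E_l⁻¹`. -/
structure Blk (A : Type) (p : ℕ) where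
  f : FreeGroup A
  j : Fin (p + 2)
  y : F2
  l : Fin (p + 2)

section
variable {A : Type} {p : ℕ}

/-- The value in `GG`: `f S_j y S_l⁻¹`. -/
def bG (b : Blk A p) : GG A p := gA A p b.f * SS A p b.j * g2 A p b.y * (SS A p b.l)⁻¹

/-- The value in `GP`: `f E_j y E_l⁻¹`. -/
def bP (b : Blk A p) : GP A p := jA A p b.f * EE A p b.j * j2 A p b.y * (EE A p b.l)⁻¹

/-- The product of a list of blocks in `GG`. -/
def vG (L : List (Blk A p)) : GG A p := (L.map bG).prod

/-- The product of a list of blocks in `GP`. -/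
def vP (L : List (Blk A p)) : GP A p := (L.map bP).prod

@[simp] theorem vG_nil : vG ([] : List (Blk A p)) = 1 := rfl
@[simp] theorem vP_nil : vP ([] : List (Blk A p)) = 1 := rfl
@[simp] theorem vG_cons (b : Blk A p) (L : List (Blk A p)) : vG (b :: L) = bG b * vG L := by
  simp [vG]
@[simp] theorem vP_cons (b : Blk A p) (L : List (Blk A p)) : vP (b :: L) = bP b * vP L := by
  simp [vP]
@[simp] theorem vG_append (L L' : List (Blk A p)) : vG (L ++ L') = vG L * vG L' := by
  simp [vG]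
@[simp] theorem vP_append (L L' : List (Blk A p)) : vP (L ++ L') = vP L * vP L' := by
  simp [vP]

theorem eta_bG (b : Blk A p) : eta A p (bG b) = bP b := by
  simp only [bG, bP, map_mul, map_inv, eta_gA, eta_SS, eta_g2]
  group

theorem eta_vG (L : List (Blk A p)) : eta A p (vG L) = vP L := by
  induction L with
  | nil => simp
  | cons b L ih => rw [vG_cons, vP_cons, map_mul, ih, eta_bG]

/-- The turn at the vertex of `F2` is nontrivial. -/
def Vn (b : Blk A p) : Prop := ¬ (b.j = b.l ∧ b.y = 1)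

/-- The turn at the vertex of `F_A` between the two blocks is nontrivial. -/
def An (b b' : Blk A p) : Prop := ¬ (b.l = b'.j ∧ b'.f = 1)

/-- Cyclically good lists of blocks. -/
structure CG (L : List (Blk A p)) : Prop where
  ne : L ≠ []
  vn : ∀ b ∈ L, Vn b
  chain : L.IsChain An
  cyc : ∀ b ∈ L.getLast?, ∀ b' ∈ L.head?, An b b'

/-- The word of a block. -/
def wd [DecidableEq A] (b : Blk A p) : List ((A ⊕ (Fin (p + 2) ⊕ Bool)) × Bool) :=
  (FreeGroup.toWord b.f).map (fun x => (Sum.inl x.1, x.2)) ++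
    ((Sum.inr (Sum.inl b.j), true) ::
      ((FreeGroup.toWord b.y).map (fun x => (Sum.inr (Sum.inr x.1), x.2)) ++
        [(Sum.inr (Sum.inl b.l), false)]))

/-- The word of a list of blocks. -/
def wds [DecidableEq A] (L : List (Blk A p)) : List ((A ⊕ (Fin (p + 2) ⊕ Bool)) × Bool) :=
  (L.map wd).flatten

end

/-- The map on the `F2`-part of a block under the `k`-th power of `D`, `k = p + 2`. -/
def tr (K p : ℕ) (j l : Fin (p + 2)) (y : F2) : F2 :=
  (psi K ^ j.val) xx * (psi K ^ (p + 2)) y * ((psi K ^ l.val) xx)⁻¹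

/-- `g b(g) ⋯ b^(k-1)(g)`. -/
def gp {H : Type*} [Group H] (b : MulAut H) (g : H) : ℕ → H
  | 0 => 1
  | k + 1 => g * b (gp b g k)

end Pool.OA
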