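import Pool.Agent.Work.MP_8d5be4_oa.Interface

/-!
Row MP_8d5be4_al, THEOREM OA: the final assembly, with the blocks as hypotheses.
-/

set_option autoImplicit false

open Filter Pool.AutRed

namespace Pool.OA

/-- Rank reduction with a free parameter `K`. -/
theorem RKD {J R : Type} [Fintype J] [DecidableEq J] [Fintype R] [DecidableEq R]
    {f : ℕ × ℕ → ℕ} (h : AB ((J ⊕ R) ⊕ Bool) f) {K : ℕ} (hK : 2 ≤ K) {a b : MulAut (FreeGroup J)}
    (ha : nrm a ≤ K) (hb : nrm b ≤ K) (hd : ∃ d : MulAut (FreeGroup J), d⁻¹ * a * d = b) :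
    ∃ c : MulAut (FreeGroup J), c⁻¹ * a * c = b ∧ nrm c ≤ f (K + 3, K + 3) := by
  obtain ⟨d, hd⟩ := hd
  obtain ⟨γ, hγ, hn⟩ := h (hat K a) (hat K b) ⟨ext1 d, ext1_conj K hd⟩
  obtain ⟨c, hc, hcγ⟩ := all_TH1 K hK J R a b (fun i => (norm_le_nrm a i).trans ha)
    (fun i => (norm_le_nrm b i).trans hb) γ hγ
  refine ⟨c, hc, ?_⟩
  have e1 : nrm (hat (R := R) K a) = K + 3 := blk_EXA K J R a ha
  have e2 : nrm (hat (R := R) K b) = K + 3 := blk_EXA K J R b hb
  rw [e1, e2] at hn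
  refine le_trans (Finset.sup_le fun i _ => ?_) hn
  have h1 : (FreeGroup.toWord (c (FreeGroup.of i))).length = (γ (iA J R (FreeGroup.of i))).norm := by
    rw [hcγ, norm_iA]; rfl
  rw [h1, iA_of]
  exact norm_le_nrm γ _

/-- Conjugation by `c` and inner automorphisms. -/
theorem cj {J : Type} (c a : MulAut (FreeGroup J)) (g : FreeGroup J) :
    c⁻¹ * (MulAut.conj g * a) * c = MulAut.conj (c⁻¹ g) * (c⁻¹ * a * c) := by
  have h : c⁻¹ * MulAut.conj g = MulAut.conj (c⁻¹ g) * c⁻¹ := by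
    ext x : 1
    simp [MulAut.mul_apply, MulAut.conj_apply]
  rw [← mul_assoc, h]
  group

theorem norm_conj_le {J : Type} [DecidableEq J] (g h : FreeGroup J) :
    (MulAut.conj g h).norm ≤ 2 * g.norm + h.norm := by
  rw [MulAut.conj_apply]
  have h1 := FreeGroup.norm_mul_le (g * h) g⁻¹
  have h2 := FreeGroup.norm_mul_le g h
  rw [FreeGroup.norm_inv_eq] at h1
  omega

theorem nrm_conj_mul {J : Type} [Fintype J] [DecidableEq J] (g : FreeGroup J)
    (a : MulAut (FreeGroup J)) : nrm (MulAut.conj g * a) ≤ 2 * g.norm + nrm a := by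
  refine Finset.sup_le fun i _ => ?_
  have h1 := norm_conj_le g (a (FreeGroup.of i))
  have h2 := norm_le_nrm a i
  show ((MulAut.conj g * a) (FreeGroup.of i)).norm ≤ _
  rw [MulAut.mul_apply]
  omega

theorem gA_map (A : Type) (p : ℕ) (h : FreeGroup A) :
    gA A p h = FreeGroup.map (Sum.inl ∘ Sum.inl : A → (A ⊕ Fin (p + 1)) ⊕ Bool) h := rfl

/-- The bound. -/
def HH (n : ℕ) (p : ℕ × ℕ) : ℕ := (max p.1 p.2 + 1) ^ (n + 1) + 8

theorem fin_bound (hAUT : Stmt_AUT) (hOUC : Stmt_OUC) (hNRD : Stmt_NRD) (hCJD : Stmt_CJD)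
    (hNMD : Stmt_NMD) (hDAT : Stmt_DAT) {n N : ℕ} (hn : 2 ≤ n) (hN : 2 * n + 4 ≤ N) {f : ℕ × ℕ → ℕ}
    (hf : AB (Fin N) f) : OB (Fin n) (fun p => f (HH n p, HH n p)) := by
  intro a b ⟨d, g, hd⟩
  set m := max (nrm a) (nrm b) with hm
  have ha : nrm a ≤ m := le_max_left _ _
  have hb : nrm b ≤ m := le_max_right _ _
  set K' := (m + 1) ^ (n + 1) + 5 with hK'
  have hH : HH n (nrm a, nrm b) = K' + 3 := rfl
  show ∃ (c : MulAut (FreeGroup (Fin n))) (g : FreeGroup (Fin n)),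
    c⁻¹ * a * c = MulAut.conj g * b ∧ nrm c ≤ f (HH n (nrm a, nrm b), HH n (nrm a, nrm b))
  rw [hH]
  have hpow : ∀ k, 1 ≤ k → k ≤ n + 1 → ∀ x ≤ m, x ^ k ≤ (m + 1) ^ (n + 1) := by
    intro k _ hk x hx
    calc x ^ k ≤ (m + 1) ^ k := Nat.pow_le_pow_left (by omega) k
      _ ≤ (m + 1) ^ (n + 1) := Nat.pow_le_pow_right (by omega) hk
  have hm1 : m + 1 ≤ (m + 1) ^ (n + 1) := by
    calc m + 1 = (m + 1) ^ 1 := (pow_one _).symm
      _ ≤ (m + 1) ^ (n + 1) := Nat.pow_le_pow_right (by omega) (by omega)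
  have hm3 : 3 * m ≤ (m + 1) ^ (n + 1) := by
    calc 3 * m ≤ (m + 1) ^ 3 := by nlinarith [sq_nonneg m]
      _ ≤ (m + 1) ^ (n + 1) := Nat.pow_le_pow_right (by omega) (by omega)
  obtain ⟨k, d', g', w, w', hk1, hk2, hd', hw', hwn, hwn'⟩ := hDAT n hn a b d g hd
  have hwn1 := hwn.trans (hpow k hk1 hk2 _ ha)
  have hwn2 := hwn'.trans (hpow k hk1 hk2 _ hb)
  obtain rfl | hk : k = 1 ∨ 2 ≤ k := by omega
  · -- a single block
    have e : Fin N ≃ (Fin n ⊕ Fin (N - n - 2)) ⊕ Bool := by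
      apply Fintype.equivOfCardEq
      simp
      omega
    have hAB := AB_transport blk_TRA e hf
    have hg1 : gp b g' 1 = g' := by simp [gp]
    rw [hg1] at hw'
    rw [pow_one] at hwn hwn'
    have h1 : nrm (MulAut.conj w * a) ≤ K' := by
      have := nrm_conj_mul w a
      omega
    have h2 : nrm (MulAut.conj w' * b) ≤ K' := by
      have := nrm_conj_mul w' b
      omega
    have h3 : d'⁻¹ * (MulAut.conj w * a) * d' = MulAut.conj w' * b := by
      rw [cj, hd', hw', map_mul, mul_assoc]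
    obtain ⟨c, hc, hcn⟩ := RKD hAB (K := K') (by omega) h1 h2 ⟨d', h3⟩
    refine ⟨c, c⁻¹ w⁻¹ * w', ?_, hcn⟩
    rw [cj] at hc
    have h5 : MulAut.conj (c⁻¹ w⁻¹ * w') * b =
        MulAut.conj (c⁻¹ w⁻¹) * (MulAut.conj w' * b) := by rw [map_mul, mul_assoc]
    have h6 : c⁻¹ w⁻¹ * c⁻¹ w = 1 := by rw [← map_mul, inv_mul_cancel, map_one]
    rw [h5, ← hc, ← mul_assoc (MulAut.conj (c⁻¹ w⁻¹)), ← map_mul, h6, map_one, one_mul]
  · -- a periodic orbit
    obtain ⟨p, rfl⟩ : ∃ p, k = p + 2 := ⟨k - 2, by omega⟩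
    have e : Fin N ≃ (((Fin n ⊕ Fin (p + 1)) ⊕ Bool) ⊕ Fin (N - n - 5 - p)) ⊕ Bool := by
      apply Fintype.equivOfCardEq
      simp
      omega
    have hAB := AB_transport blk_TRA e hf
    obtain ⟨e', he'⟩ := hCJD (Fin n) p (m + 3) a b d' g' w w' hd' hw'
    have hconj : ∃ c : MulAut (GG (Fin n) p), c⁻¹ * dA p (m + 3) a w * c = dA p (m + 3) b w' := by
      refine ⟨e'⁻¹, ?_⟩
      rw [inv_inv, he']
      group
    have h1 : nrm (dA p (m + 3) a w) ≤ K' :=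
      hNMD (Fin n) p (m + 3) a w K' (by omega) (by omega) (by omega)
    have h2 : nrm (dA p (m + 3) b w') ≤ K' :=
      hNMD (Fin n) p (m + 3) b w' K' (by omega) (by omega) (by omega)
    obtain ⟨γ, hγ, hγn⟩ := RKD hAB (K := K') (by omega) h1 h2 hconj
    obtain ⟨u, c, hc⟩ := hAUT (Fin n) p (m + 3) (by omega) a b w w'
      (fun x => (norm_le_nrm a x).trans (by omega)) (fun x => (norm_le_nrm b x).trans (by omega)) γ hγ
    obtain ⟨z, hz⟩ := hOUC (Fin n) p (m + 3) a b w w' γ u c hγ hc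
    obtain ⟨v, hv⟩ := hNRD (Fin n) ((Fin n ⊕ Fin (p + 1)) ⊕ Bool) (Sum.inl ∘ Sum.inl)
      (Sum.inl_injective.comp Sum.inl_injective) u c
    refine ⟨MulAut.conj v * c, c⁻¹ (v⁻¹ * a v) * z, ?_, ?_⟩
    · have h3 : (MulAut.conj v)⁻¹ * a * MulAut.conj v = MulAut.conj (v⁻¹ * a v) * a := by
        ext x : 1
        simp [MulAut.mul_apply, MulAut.conj_apply, mul_assoc]
      have h4 : (MulAut.conj v * c)⁻¹ * a * (MulAut.conj v * c) =
          c⁻¹ * ((MulAut.conj v)⁻¹ * a * MulAut.conj v) * c := by group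
      have h7 : MulAut.conj (c⁻¹ (v⁻¹ * a v) * z) * b =
          MulAut.conj (c⁻¹ (v⁻¹ * a v)) * (MulAut.conj z * b) := by rw [map_mul, mul_assoc]
      rw [h4, h3, cj, hz, h7]
    · refine le_trans (Finset.sup_le fun i _ => ?_) hγn
      refine (hv i).trans ?_
      have h5 := hc (FreeGroup.of i)
      rw [gA_map _ _ (c (FreeGroup.of i))] at h5
      rw [← h5]
      have h6 : gA (Fin n) p (FreeGroup.of i) = FreeGroup.of (Sum.inl (Sum.inl i)) := iA_of i
      rw [h6]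
      exact norm_le_nrm γ _

theorem comp_HH (n : ℕ) : Computable (HH n) := by
  have h1 : Primrec (fun p : ℕ × ℕ => max p.1 p.2 + 1) :=
    Primrec.nat_add.comp (Primrec.nat_max.comp Primrec.fst Primrec.snd) (Primrec.const 1)
  have h2 : ∀ k : ℕ, Primrec (fun p : ℕ × ℕ => (max p.1 p.2 + 1) ^ k) := by
    intro k
    induction k with
    | zero => exact (Primrec.const 1).of_eq (fun p => by simp)
    | succ k ih => exact (Primrec.nat_mul.comp ih h1).of_eq (fun p => by rw [pow_succ])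
  exact (Primrec.nat_add.comp (h2 (n + 1)) (Primrec.const 8)).to_comp

theorem comp_fHH (n : ℕ) {f : ℕ × ℕ → ℕ} (hf : Computable f) :
    Computable (fun p : ℕ × ℕ => f (HH n p, HH n p)) :=
  hf.comp (Computable.pair (comp_HH n) (comp_HH n))

end Pool.OA
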