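import Pool.Agent.Work.MP_8d5be4_oa.Defs

/-!
Row MP_8d5be4_al, THEOREM OA: Fox derivatives as functionals.  `fx i u κ` is `κ(∂_i u)`, where `κ` is
a function on the free group, extended linearly to the group ring.
-/

set_option autoImplicit false

open Pool.AutRed

namespace Pool.OA

theorem mk_cons_true {J : Type} (x : J) (t : List (J × Bool)) :
    FreeGroup.mk ((x, true) :: t) = FreeGroup.of x * FreeGroup.mk t := by
  rw [← List.singleton_append, ← FreeGroup.mul_mk]; rfl

theorem mk_cons_false {J : Type} (x : J) (t : List (J × Bool)) :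
    FreeGroup.mk ((x, false) :: t) = (FreeGroup.of x)⁻¹ * FreeGroup.mk t := by
  rw [← List.singleton_append, ← FreeGroup.mul_mk]; rfl

section
variable {J : Type} [DecidableEq J]

/-- `κ(∂_i u)` for a word `u`. -/
def fxL (i : J) : List (J × Bool) → (FreeGroup J → ℤ) → ℤ
  | [], _ => 0
  | (x, true) :: t, κ => (if x = i then κ 1 else 0) + fxL i t (fun g => κ (FreeGroup.of x * g))
  | (x, false) :: t, κ =>
      -(if x = i then κ (FreeGroup.of x)⁻¹ else 0) + fxL i t (fun g => κ ((FreeGroup.of x)⁻¹ * g))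

theorem fxL_append (i : J) (L L' : List (J × Bool)) (κ : FreeGroup J → ℤ) :
    fxL i (L ++ L') κ = fxL i L κ + fxL i L' (fun g => κ (FreeGroup.mk L * g)) := by
  induction L generalizing κ with
  | nil => simp [fxL, ← FreeGroup.one_eq_mk]
  | cons a L ih =>
    obtain ⟨x, b⟩ := a
    cases b
    · simp only [List.cons_append, fxL, ih, mk_cons_false, mul_assoc, add_assoc]
    · simp only [List.cons_append, fxL, ih, mk_cons_true, mul_assoc, add_assoc]

theorem fxL_step (i : J) {L L' : List (J × Bool)} (h : FreeGroup.Red.Step L L')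
    (κ : FreeGroup J → ℤ) : fxL i L κ = fxL i L' κ := by
  obtain @⟨L₁, L₂, x, b⟩ := h
  rw [fxL_append, fxL_append]
  congr 1
  cases b
  · by_cases hx : x = i <;> simp [fxL, hx]
  · by_cases hx : x = i <;> simp [fxL, hx]

/-- `κ(∂_i u)`. -/
def fx (i : J) (u : FreeGroup J) (κ : FreeGroup J → ℤ) : ℤ :=
  Quot.liftOn u (fun L => fxL i L κ) (fun _ _ h => fxL_step i h κ)

theorem fx_mk (i : J) (L : List (J × Bool)) (κ : FreeGroup J → ℤ) :
    fx i (FreeGroup.mk L) κ = fxL i L κ := rfl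

@[simp] theorem fx_one (i : J) (κ : FreeGroup J → ℤ) : fx i 1 κ = 0 := rfl

/-- The product rule `∂_i(uv) = ∂_i u + u ∂_i v`. -/
theorem fx_mul (i : J) (u v : FreeGroup J) (κ : FreeGroup J → ℤ) :
    fx i (u * v) κ = fx i u κ + fx i v (fun g => κ (u * g)) := by
  obtain ⟨L, rfl⟩ : ∃ L, FreeGroup.mk L = u := ⟨_, FreeGroup.mk_toWord⟩
  obtain ⟨L', rfl⟩ : ∃ L, FreeGroup.mk L = v := ⟨_, FreeGroup.mk_toWord⟩
  rw [FreeGroup.mul_mk, fx_mk, fx_mk, fx_mk, fxL_append]

theorem fx_of (i x : J) (κ : FreeGroup J → ℤ) :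
    fx i (FreeGroup.of x) κ = if x = i then κ 1 else 0 := by
  show fxL i [(x, true)] κ = _
  simp [fxL]

theorem fx_inv (i : J) (u : FreeGroup J) (κ : FreeGroup J → ℤ) :
    fx i u⁻¹ κ = - fx i u (fun g => κ (u⁻¹ * g)) := by
  have h := fx_mul i u⁻¹ u κ
  rw [inv_mul_cancel, fx_one] at h
  linarith

variable [Fintype J]

/-- `L_κ(θ) = κ(1) - ∑_i κ(∂_i θ(x_i))`: the value of `κ` on the Reidemeister trace. -/
def Lk (κ : FreeGroup J → ℤ) (θ : MulAut (FreeGroup J)) : ℤ :=
  κ 1 - ∑ i : J, fx i (θ (FreeGroup.of i)) κ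

/-- `κ` is constant on the `θ`-twisted conjugacy classes `{θ(s) t s⁻¹}`. -/
def Inv (θ : MulAut (FreeGroup J)) (κ : FreeGroup J → ℤ) : Prop :=
  ∀ s t : FreeGroup J, κ (θ s * t * s⁻¹) = κ t

open Classical in
/-- The indicator function of the twisted class of `u`. -/
noncomputable def ind (θ : MulAut (FreeGroup J)) (u : FreeGroup J) (t : FreeGroup J) : ℤ :=
  if ∃ s : FreeGroup J, t = θ s * u * s⁻¹ then 1 else 0

/-- The matrix of the action on the abelianization. -/
def mat (θ : MulAut (FreeGroup J)) : Matrix J J ℤ :=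
  Matrix.of fun i j => fx j (θ (FreeGroup.of i)) (fun _ => 1)

theorem Lk_one (θ : MulAut (FreeGroup J)) : Lk (fun _ => 1) θ = 1 - (mat θ).trace := rfl

end

end Pool.OA
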