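import Pool.Agent.Work.MP_8d5be4_oa.Final
import Pool.Agent.Work.MP_8d5be4_oa.B_ARI
import Pool.Agent.Work.MP_8d5be4_oa.B_AUT
import Pool.Agent.Work.MP_8d5be4_oa.B_AXL
import Pool.Agent.Work.MP_8d5be4_oa.B_CAN
import Pool.Agent.Work.MP_8d5be4_oa.B_CHR
import Pool.Agent.Work.MP_8d5be4_oa.B_CJD
import Pool.Agent.Work.MP_8d5be4_oa.B_CLS
import Pool.Agent.Work.MP_8d5be4_oa.B_COM
import Pool.Agent.Work.MP_8d5be4_oa.B_DAT
import Pool.Agent.Work.MP_8d5be4_oa.B_DPK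
import Pool.Agent.Work.MP_8d5be4_oa.B_DYI
import Pool.Agent.Work.MP_8d5be4_oa.B_DYN
import Pool.Agent.Work.MP_8d5be4_oa.B_ELL
import Pool.Agent.Work.MP_8d5be4_oa.B_ESK
import Pool.Agent.Work.MP_8d5be4_oa.B_EXB
import Pool.Agent.Work.MP_8d5be4_oa.B_EXG
import Pool.Agent.Work.MP_8d5be4_oa.B_FAC
import Pool.Agent.Work.MP_8d5be4_oa.B_FUB
import Pool.Agent.Work.MP_8d5be4_oa.B_FUN
import Pool.Agent.Work.MP_8d5be4_oa.B_FXL
import Pool.Agent.Work.MP_8d5be4_oa.B_GEO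
import Pool.Agent.Work.MP_8d5be4_oa.B_IN1
import Pool.Agent.Work.MP_8d5be4_oa.B_IN2
import Pool.Agent.Work.MP_8d5be4_oa.B_MAT
import Pool.Agent.Work.MP_8d5be4_oa.B_NIE
import Pool.Agent.Work.MP_8d5be4_oa.B_NMD
import Pool.Agent.Work.MP_8d5be4_oa.B_NMP
import Pool.Agent.Work.MP_8d5be4_oa.B_NON
import Pool.Agent.Work.MP_8d5be4_oa.B_NRD
import Pool.Agent.Work.MP_8d5be4_oa.B_OUC
import Pool.Agent.Work.MP_8d5be4_oa.B_RED
import Pool.Agent.Work.MP_8d5be4_oa.B_RET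
import Pool.Agent.Work.MP_8d5be4_oa.B_RJ2
import Pool.Agent.Work.MP_8d5be4_oa.B_SGM
import Pool.Agent.Work.MP_8d5be4_oa.B_SLW
import Pool.Agent.Work.MP_8d5be4_oa.B_TEL
import Pool.Agent.Work.MP_8d5be4_oa.B_TEP
import Pool.Agent.Work.MP_8d5be4_oa.B_TRK

/-!
Row MP_8d5be4_al, THEOREM OA: all blocks together.
-/

set_option autoImplicit false

open Pool.AutRed

namespace Pool.OA

theorem all_ESK : Stmt_ESK := p_ESK
theorem all_ARI : Stmt_ARI := p_ARI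
theorem all_SGM : Stmt_SGM := p_SGM
theorem all_TEP : Stmt_TEP := p_TEP all_ESK all_ARI
theorem all_TEL : Stmt_TEL := p_TEL all_ESK all_ARI
theorem all_GEO : Stmt_GEO := p_GEO
theorem all_CAN : Stmt_CAN := p_CAN
theorem all_AXL : Stmt_AXL := p_AXL all_GEO all_CAN
theorem all_RED : Stmt_RED := p_RED
theorem all_EXG : Stmt_EXG := p_EXG
theorem all_EXB : Stmt_EXB := p_EXB all_EXG
theorem all_DPK : Stmt_DPK := p_DPK
theorem all_DYN : Stmt_DYN := p_DYN all_DPK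
theorem all_DYI : Stmt_DYI := p_DYI all_DYN
theorem all_RET : Stmt_RET := p_RET
theorem all_RJ2 : Stmt_RJ2 := p_RJ2 all_GEO
theorem all_ELL : Stmt_ELL := p_ELL all_TEP all_TEL all_AXL all_RED all_EXB all_DYI all_RET all_RJ2
theorem all_SLW : Stmt_SLW := p_SLW
theorem all_NON : Stmt_NON := p_NON
theorem all_COM : Stmt_COM := p_COM all_AXL
theorem all_FAC : Stmt_FAC := p_FAC all_SGM all_ELL all_SLW all_NON all_COM
theorem all_AUT : Stmt_AUT := p_AUT all_COM all_FAC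
theorem all_OUC : Stmt_OUC := p_OUC all_COM
theorem all_NRD : Stmt_NRD := p_NRD
theorem all_CJD : Stmt_CJD := p_CJD
theorem all_NMD : Stmt_NMD := p_NMD
theorem all_FXL : Stmt_FXL := p_FXL
theorem all_FUN : Stmt_FUN := p_FUN all_FXL
theorem all_CHR : Stmt_CHR := p_CHR all_FXL
theorem all_FUB : Stmt_FUB := p_FUB all_FXL
theorem all_IN1 : Stmt_IN1 := p_IN1 all_FXL all_CHR all_FUB
theorem all_IN2 : Stmt_IN2 := p_IN2 all_FXL all_FUN
theorem all_CLS : Stmt_CLS := p_CLS all_FXL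
theorem all_NIE : Stmt_NIE := p_NIE all_IN1 all_IN2 all_CLS
theorem all_MAT : Stmt_MAT := p_MAT all_FXL all_CHR
theorem all_TRK : Stmt_TRK := p_TRK
theorem all_NMP : Stmt_NMP := p_NMP
theorem all_DAT : Stmt_DAT := p_DAT all_NIE all_MAT all_TRK all_NMP

/-- A bound for conjugators in `Aut(F_N)` gives one in `Out(F_n)`, `2 n + 4 ≤ N`. -/
theorem out_of_aut {n N : ℕ} (hn : 2 ≤ n) (hN : 2 * n + 4 ≤ N) {f : ℕ × ℕ → ℕ}
    (hf : AB (Fin N) f) : OB (Fin n) (fun p => f (HH n p, HH n p)) :=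
  fin_bound all_AUT all_OUC all_NRD all_CJD all_NMD all_DAT hn hN hf

end Pool.OA
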