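import Pool.Agent.Work.MP_8d5be4_oa.Fox

/-!
Row MP_8d5be4_al, THEOREM OA: statements of the blocks.  Every docstring is the full proof of its
block.  The whole proof is in note 3276.

Files `B_X.lean`: `import Pool.Agent.Work.MP_8d5be4_oa.Interface`, `namespace Pool.OA`,
`open Filter Pool.AutRed`, theorem `p_X (h1 : Stmt_Y) … : Stmt_X` with the blocks of the column `uses`
as hypotheses in that order.  The finished results of MP_8d5be4_out are available (imported):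
`blk_IRR, blk_RCH, blk_RCL, blk_PUL, blk_DET, blk_ABL`, `blk_ESC blk_IRR`, `blk_POS blk_IRR`,
`blk_RBD blk_RCH` (their statements `Stmt_IRR, …` are in MP_8d5be4_out/Interface.lean, namespace
`Pool.AutRed`), `norm_le_nrm`, `norm_iA`, `NRM_map`.
-/

set_option autoImplicit false

open Filter Pool.AutRed

namespace Pool.OA

/-! ### A. arithmetic -/

/-- ESK (60 lines, `blk_IRR`; model: B_ESC.lean). `l(s) = lam s1 + s2`, `l(TT K 0 s) = lam l(s)`, so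
`l(T s - T t) = lam^k l(s - t)`.  Let `D = T s - s ≠ 0`, `s_i = T^[i] s`; then
`s_(i+1) - s_i = ((TT K 0)^[k])^[i] D`, `l` of it is `lam^(k i) l(D)`, `l(D) ≠ 0`.  The sequence `s_i`
is injective: `s_i = s_j`, `i < j`, gives `s_(i+1) = s_(j+1)`, so
`lam^(k i) l(D) = lam^(k j) l(D)`, impossible as `lam > 1`.  An injective sequence leaves the finite
set `{s | Bx n s}` (`bx_finite`, `Function.Injective.tendsto_cofinite`, `Nat.cofinite_eq_atTop`). -/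
def Stmt_ESK : Prop := ∀ K : ℕ, 1 ≤ K → ∀ k : ℕ, 1 ≤ k → ∀ T : ℤ × ℤ → ℤ × ℤ,
  (∀ s t, T s - T t = (TT K 0)^[k] (s - t)) → ∀ s, T s ≠ s →
    ∀ n : ℕ, ∀ᶠ i in atTop, ¬ Bx n (T^[i] s)

/-- ARI (120 lines). Real numbers: `lam` from `blk_IRR` (`lam > K ≥ 3`, `lam² = K lam + 1`),
`mu = K - lam = -1/lam`, so `mu² = K mu + 1`, `lam mu = -1`, `|mu| < 1/3`.  `l(s) = lam s1 + s2`,
`l'(s) = mu s1 + s2`; `l(TT K 0 s) = lam l(s)`, `l'(TT K 0 s) = mu l'(s)`.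
Suppose `s - Psi^k s = ±(Psi^j e - Psi^(j+i) e)`, `e = (1,0)`, `l(e) = lam`, `l'(e) = mu`.  Apply `l`
and `l'` and multiply: `(1 - lam^k)(1 - mu^k) q = (lam mu)^(j+1) (1 - lam^i)(1 - mu^i)` where
`q = l(s) l'(s) = -s1² + K s1 s2 + s2²` is an integer and `(lam mu)^(j+1) = ±1`.
`(1 - lam^i)(1 - mu^i) = -d_i`, `d_i = lam^i + mu^i - 1 - (-1)^i`.  For `0 < i < k`:
`d_i > 0` (`lam^i ≥ lam > 3`, `mu^i > -1/3`; for `i` even `d_i > lam² - 2 > 0`, for `i` odd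
`d_i = lam^i + mu^i > 0`) and `d_k > d_i` (`lam^k - lam^i ≥ lam^i (lam - 1) ≥ lam (lam - 1) > 6`,
`|mu^k - mu^i| < 1`, `|(-1)^k - (-1)^i| ≤ 2`).  So `|d_k q| = d_i` with `0 < d_i < d_k`, `q` an
integer: impossible. -/
def Stmt_ARI : Prop := ∀ K : ℕ, 3 ≤ K → ∀ k i j : ℕ, 0 < i → i < k → ∀ s : ℤ × ℤ,
  s - (TT K 0)^[k] s ≠ (TT K 0)^[j] (1, 0) - (TT K 0)^[j + i] (1, 0) ∧
  s - (TT K 0)^[k] s ≠ (TT K 0)^[j + i] (1, 0) - (TT K 0)^[j] (1, 0)

/-- SGM (60 lines, `blk_IRR`). `VV K σ k` is additive in `σ` (induction, `VV_succ`, `TT_add`), so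
`c1 = (VV K (1,0) k).2`, `c2 = (VV K (0,1) k).2` give `(VV K σ k).2 = c1 σ1 + c2 σ2`; take `σ = (c2, -c1)` if
this is not `0`, otherwise `σ = (1,0)`.  Then `σ ≠ 0`, `(VV K σ k).2 = 0`, and
`l(VV K σ k) = (1 + lam + … + lam^(k-1)) l(σ) ≠ 0` (`l(VV_(j+1)) = lam l(VV_j) + l(σ)`; `l(σ) ≠ 0` by
`blk_IRR`; the sum is positive), so `M = (VV K σ k).1 ≠ 0`. -/
def Stmt_SGM : Prop := ∀ K : ℕ, 1 ≤ K → ∀ k : ℕ, 1 ≤ k →
  ∃ (M : ℤ) (σ : ℤ × ℤ), M ≠ 0 ∧ VV K σ k = (M, 0)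

/-! ### B. dynamics in F2 -/

/-- TEP (80 lines, uses ESK ARI, `blk_RCH` (1)). `Psi = TT K 0`, `e = (1,0)`.  `ps w2 ((psi K ^ j) c) = Psi^[j] (ps w2 c)`
(`ps_psi`), so `ps w2 (tr K p j l y) = T (ps w2 y)`, `T s = Psi^[j] e + Psi^[p+2] s - Psi^[l] e`, and
`ps w2 ((tr K p j l)^[i] y) = T^[i] (ps w2 y)`.  `T s - T t = Psi^[p+2] (s - t)` (`TT_add`, `TT_neg`).
`T` has no fixed point at `s = ps w2 y`: `T s = s` means `s - Psi^[p+2] s = Psi^[j] e - Psi^[l] e`; if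
`j ≠ l` this is excluded by ARI (`|j - l| < p + 2`); if `j = l` it gives `Psi^[p+2] s = s`, so
`s = 0` (`lam^(p+2) l(s) = l(s)`, `blk_IRR`), against `ps w2 y ≠ 0`.  ESK: the positions leave every box;
a reached element has its position in the box (`blk_RCH` (1)). -/
def Stmt_TEP : Prop := ∀ K : ℕ, 3 ≤ K → ∀ (p : ℕ) (j l : Fin (p + 2)) (y : F2),
  (j ≠ l ∨ ps w2 y ≠ 0) → ∀ n : ℕ, ∀ᶠ i in atTop, ¬ Reach w2 n ((tr K p j l)^[i] y)

/-- TEL (120 lines, uses ESK ARI, `blk_RCH` (1), `blk_RCL`, `blk_PUL`, `blk_DET`; model: B_LL.lean).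
`e = psi^j (x)`, `tr K p j j y = e * psi^(p+2)(y) * e⁻¹ = theta K e ((theta K 1 ^ (p+1)) y)`.
All positions of the orbit are `0` (`ps` is additive and `TT K 0 0 = 0`).
By PUL (for `d = e`, `k = 1`, and for `d = 1`, `k = p + 1`): `tr c ∈ Cl U` implies
`c ∈ Cl (fun s => U (T s))`, `T s = TT K (ps e + (K+1,0)) ((TT K (K+1,0))^[p+1] s)`; iterate:
`tr^[i] c ∈ Cl U` implies `c ∈ Cl (fun s => U (T^[i] s))`.  `T s - T t = Psi^[p+2] (s - t)`.
`T` has no fixed point: let `v = (K+1,0)`, `N_m = 1 + Psi + … + Psi^(m-1)`; `(TT K v)^[m] s = Psi^m s + N_m v`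
(`VV K v m`), so `T s = Psi^(p+2) s + N_(p+2) v + Psi^j (1,0)`; if `T s = s` put `s' = s - Psi s - v`;
then `s' - Psi^(p+2) s' = (1 - Psi)(s - Psi^(p+2) s) - (1 - Psi^(p+2)) v`
`= (1 - Psi)(N_(p+2) v + Psi^j (1,0)) - (1 - Psi^(p+2)) v = Psi^j (1,0) - Psi^(j+1) (1,0)`
(telescoping `(1 - Psi) N_m v = v - Psi^m v`), against ARI with `i = 1 < p + 2`.
Now as in LL: suppose `Reach w2 n (tr^[i] y)` for infinitely many `i`.  Let `m` be given by DET for `y`.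
By ESK, for each of the finitely many `s` in the box `m`, `T^[i] s` is outside the box `n` for all
large `i`; take such an `i` with `Reach w2 n (tr^[i] y)`: RCL gives `tr^[i] y ∈ Cl (Bx n)`, so
`y ∈ Cl (fun s => Bx n (T^[i] s))`, against DET. -/
def Stmt_TEL : Prop := ∀ K : ℕ, 3 ≤ K → ∀ (p : ℕ) (j : Fin (p + 2)) (y : F2),
  ps w2 y = 0 → y ≠ 1 → ∀ n : ℕ, ∀ᶠ i in atTop, ¬ Reach w2 n ((tr K p j j)^[i] y)

/-- Both together (proved here). -/
theorem te (h1 : Stmt_TEP) (h2 : Stmt_TEL) {K : ℕ} (hK : 3 ≤ K) {p : ℕ} {j l : Fin (p + 2)} {y : F2}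
    (h : ¬ (j = l ∧ y = 1)) (n : ℕ) : ∀ᶠ i in atTop, ¬ Reach w2 n ((tr K p j l)^[i] y) := by
  by_cases hjl : j = l
  · subst hjl
    by_cases hy : ps w2 y = 0
    · exact h2 K hK p j y hy (fun h' => h ⟨rfl, h'⟩) n
    · exact h1 K hK p j j y (Or.inr hy) n
  · exact h1 K hK p j l y (Or.inl hjl) n

/-! ### C. words and paths -/

/-- GEO (80 lines). Induction on the path `1 → g` (`Relation.ReflTransGen.rec`/`head_induction_on` is not
needed: use `ReflTransGen.rec` adding a step at the end).  Claim `P g`: all prefixes `U` of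
`toWord g` satisfy `Reach w n (mk U)`.  `P 1`: `U = []`.  A step `g → h` (`h = g * of j` or
`g = h * of j`, both in the box): the reduced words differ by one letter at the end: either
`toWord h = toWord g ++ [x]` or `toWord g = toWord h ++ [x]` (`FreeGroup.toWord_mul`, the last letter
of `toWord g`; e.g. `List.reverseRecOn`, `FreeGroup.reduce`, `IsReduced` and `List.isChain_append`).  In the first case a prefix of `toWord h` is
a prefix of `toWord g` or all of `toWord h` (and `h` is reached by the path itself), in the second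
case it is a prefix of `toWord g`. -/
def Stmt_GEO : Prop := ∀ (J : Type) [DecidableEq J] (w : J → ℤ × ℤ) (n : ℕ) (g : FreeGroup J),
  Reach w n g → ∀ U V : List (J × Bool), FreeGroup.toWord g = U ++ V → Reach w n (FreeGroup.mk U)

/-- CAN (100 lines). No cancellation in the middle.  Auxiliary: if `IsReduced L`, `g.norm < L.length`
then `toWord (g * mk L) = U ++ V` with `V ≠ []` and `V` a suffix of `L` (induction on
`toWord g` from the right or on `g.norm`: multiply `mk L` on the left by the letters of `g`, each step cancels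
at most one letter: `toWord (mk [x] * mk L')` is `x :: L'` or the tail of `L'`).  Apply it to
`g`, `L₁` and, inverted, to `h⁻¹`, `L₂⁻¹` (`FreeGroup.invRev`): `toWord (mk L₂ * h) = V' ++ U'`, `V' ≠ []` a prefix of
`L₂`.  The word `U ++ V ++ V' ++ U'` is reduced: `U ++ V`, `V' ++ U'` are reduced and the letters at the
junction of `V` and `V'` are neighbours in the reduced word `L₁ ++ L₂` (`List.isChain_append`).
Hence it is the reduced word of the product (`FreeGroup.IsReduced.reduce_eq`). -/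
def Stmt_CAN : Prop := ∀ (J : Type) [DecidableEq J] (g h : FreeGroup J) (L₁ L₂ : List (J × Bool)),
  FreeGroup.IsReduced (L₁ ++ L₂) → g.norm < L₁.length → h.norm < L₂.length →
  FreeGroup.toWord (g * FreeGroup.mk L₁ * (FreeGroup.mk L₂ * h)) =
    FreeGroup.toWord (g * FreeGroup.mk L₁) ++ FreeGroup.toWord (FreeGroup.mk L₂ * h)

/-- AXL (100 lines, uses GEO CAN, `blk_RCH`). `L = P ++ Y ++ R`, `x = g * mk L * g⁻¹`.  If `L = []` then `Y = []`.
All powers `x^m` are reached in the box `n` (`blk_RCH` (2), `ps w x = 0`).  Let `i = g.norm + 1`,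
`Z = (List.replicate i L).flatten`, of length at least `i`.  The word `Z ++ L ++ Z` is
`(List.replicate (2i+1) L).flatten`, reduced (`FreeGroup.IsCyclicallyReduced.flatten_replicate`), and
`x^(2i+1) = g * mk (Z ++ L ++ Z) * g⁻¹`.  CAN for `L₁ = Z ++ P`, `L₂ = Y ++ R ++ Z` and GEO:
`g * mk (Z ++ P)` is reached in the box `n`; CAN for `L₁ = Z ++ P ++ Y`, `L₂ = R ++ Z` and GEO:
`g * mk (Z ++ P ++ Y)` is reached in the box `n`.  `blk_RCH` (4): the quotient `mk Y` is reached in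
the box `2n`. -/
def Stmt_AXL : Prop := ∀ (J : Type) [DecidableEq J] (w : J → ℤ × ℤ) (n : ℕ)
  (P Y R : List (J × Bool)) (g : FreeGroup J),
  FreeGroup.IsCyclicallyReduced (P ++ Y ++ R) → ps w (FreeGroup.mk (P ++ Y ++ R)) = 0 →
  Reach w n (g * FreeGroup.mk (P ++ Y ++ R) * g⁻¹) → Reach w (2 * n) (FreeGroup.mk Y)

/-! ### D. blocks -/

section
variable {A : Type} {p : ℕ}

theorem mk_map {J J' : Type} (f : J → J') (L : List (J × Bool)) :
    FreeGroup.mk (L.map fun x => (f x.1, x.2)) = FreeGroup.map f (FreeGroup.mk L) := by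
  rw [FreeGroup.map.mk]

theorem mk_wd [DecidableEq A] (b : Blk A p) : FreeGroup.mk (wd b) = bP b := by
  have h1 : FreeGroup.mk ((FreeGroup.toWord b.f).map
      (fun x => ((Sum.inl x.1 : A ⊕ (Fin (p + 2) ⊕ Bool)), x.2))) = jA A p b.f := by
    rw [mk_map, FreeGroup.mk_toWord]; rfl
  have h2 : FreeGroup.mk ((FreeGroup.toWord b.y).map
      (fun x => ((Sum.inr (Sum.inr x.1) : A ⊕ (Fin (p + 2) ⊕ Bool)), x.2))) = j2 A p b.y := by
    rw [mk_map (fun c : Bool => (Sum.inr (Sum.inr c) : A ⊕ (Fin (p + 2) ⊕ Bool))),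
      FreeGroup.mk_toWord]; rfl
  rw [wd, ← FreeGroup.mul_mk, mk_cons_true, ← FreeGroup.mul_mk, h1, h2, mk_cons_false, bP,
    ← FreeGroup.one_eq_mk, mul_one]
  simp only [EE, mul_assoc]

theorem mk_wds [DecidableEq A] (L : List (Blk A p)) : FreeGroup.mk (wds L) = vP L := by
  induction L with
  | nil => rfl
  | cons b L ih =>
    have : wds (b :: L) = wd b ++ wds L := by simp [wds]
    rw [this, ← FreeGroup.mul_mk, ih, mk_wd, vP_cons]

/-- The word of the `F2`-part of a block. -/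
def wy [DecidableEq A] (b : Blk A p) : List ((A ⊕ (Fin (p + 2) ⊕ Bool)) × Bool) :=
  (FreeGroup.toWord b.y).map (fun x => (Sum.inr (Sum.inr x.1), x.2))

theorem mk_wy [DecidableEq A] (b : Blk A p) : FreeGroup.mk (wy b) = j2 A p b.y := by
  rw [wy, mk_map (fun c : Bool => (Sum.inr (Sum.inr c) : A ⊕ (Fin (p + 2) ⊕ Bool))),
    FreeGroup.mk_toWord]; rfl

/-- The word of the first `F2`-part is a piece of the word of the list. -/
theorem wds_split [DecidableEq A] (b : Blk A p) (L : List (Blk A p)) :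
    ∃ P R, wds (b :: L) = P ++ wy b ++ R := by
  refine ⟨(FreeGroup.toWord b.f).map (fun x => (Sum.inl x.1, x.2)) ++
    [(Sum.inr (Sum.inl b.j), true)], (Sum.inr (Sum.inl b.l), false) :: wds L, ?_⟩
  simp [wds, wd, wy]

end

/-- RED (150 lines). Letters of three kinds: `A` (`inl`), `E` (`inr (inl _)`), `F2` (`inr (inr _)`).  The word of
a block is `f`-letters, `(E_j, true)`, `y`-letters, `(E_l, false)`; the pieces are reduced (`FreeGroup.isReduced_toWord`,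
`List.isChain_map`), letters of different kinds never cancel, and `(E_j, true)` next to `(E_l, false)`
(when `toWord y = []`, i.e. `y = 1`) do not cancel as `j ≠ l` (`Vn`).  So `wd b` is reduced; it ends with
`(E_l, false)` and begins with an `A`-letter or (if `f = 1`) with `(E_j, true)`.  Junction of `wd b` and `wd b'`: `(E_l, false)` and an
`A`-letter, or `(E_l, false)` and `(E_j', true)` if `f' = 1`, and then `l ≠ j'` (`An`).  The same at the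
end for the cyclic condition.  (`List.isChain_flatten`, or induction on the list with
`List.isChain_append`; all `wd b ≠ []`.) -/
def Stmt_RED : Prop := ∀ (A : Type) [DecidableEq A] (p : ℕ) (L : List (Blk A p)), CG L →
  FreeGroup.IsCyclicallyReduced (wds L)

/-- EXG (50 lines). The set of elements `vG L * gA f` is closed under right multiplication by the letters and
their inverses (`snoc_ind`): by `gA x^±1`: change `f`; by `S_(i+1)`: append the block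
`⟨f, i+1, 1, 0⟩` and take `f = 1` (`bG` of it is `gA f * S_(i+1)`); by `S_(i+1)⁻¹`: `⟨f, 0, 1, i+1⟩`; by `c^±1`,
`c` a letter of `F2`: `⟨f, 0, c^±1, 0⟩`. -/
def Stmt_EXG : Prop := ∀ (A : Type) (p : ℕ) (z : GG A p),
  ∃ (L : List (Blk A p)) (f : FreeGroup A), z = vG L * gA A p f

/-- EXB (150 lines, uses EXG). Consider all `(L, h)` with `z = h * vG L * h⁻¹`; there are such (EXG: `vG L * gA f` is
conjugate by `gA f` to `gA f * vG L`; if `L = b :: L'` this is `vG ({b with f := f * b.f} :: L')`, and if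
`L = []` then `z = gA f`, first case).  Take one with `L.length` minimal, or else the first case.
Suppose the first two cases do not hold; then `L ≠ []` (`z = 1 = gA 1` otherwise).  `CG L`:
(V) if `b ∈ L` has `b.j = b.l`, `b.y = 1` then `bG b = gA b.f`; `L = L₁ ++ b :: L₂`; after a rotation (conjugation by
`vG L₁`) `b :: (L₂ ++ L₁)`; if `L₂ ++ L₁ = []` then `z` is conjugate to `gA b.f`, first case; otherwise
`gA b.f` is absorbed by the next block: shorter list.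
(A) if `b, b'` are neighbours, `b.l = b'.j`, `b'.f = 1`, then `bG b * bG b' = bG ⟨b.f, b.j, b.y * b'.y, b'.l⟩`: shorter.
Cyclic condition: `L = L' ++ [b]`, first block `b'`, `b.l = b'.j`, `b'.f = 1`; if `L = [b]` then `b = b'`,
`bG b = S_j y S_j⁻¹` and `z` is conjugate to `g2 y`, second case; otherwise rotate and join as
before. -/
def Stmt_EXB : Prop := ∀ (A : Type) (p : ℕ) (z : GG A p),
  (∃ (f : FreeGroup A) (h : GG A p), z = h * gA A p f * h⁻¹) ∨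
  (∃ (y : F2) (h : GG A p), z = h * g2 A p y * h⁻¹) ∨
  (∃ (L : List (Blk A p)) (h : GG A p), CG L ∧ z = h * vG L * h⁻¹)

/-- DPK (80 lines). `dP^[m] (jA h) = jA (a^m h)`, `dP^[m] (j2 c) = j2 (psi^m c)`; for `j + m ≤ p + 1`:
`dP^[m] (E_j) = E_(j+m)` (`dP_E_castSucc`), so `dP^[p+2-j] (E_j) = w⁻¹ E_0 x` (`dP_E_last`) and
`dP^[p+2] (E_j) = dP^[j] (w⁻¹ E_0 x) = jA (a^j w)⁻¹ * E_j * j2 (psi^j x)`.  Multiply
(`iterate_map_mul` etc.): `dP^[p+2] (f E_j y E_l⁻¹) = a^(p+2)(f) (a^j w)⁻¹ E_j psi^j(x) psi^(p+2)(y) psi^l(x)⁻¹ E_l⁻¹ (a^l w)`. -/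
def Stmt_DPK : Prop := ∀ (A : Type) (p K : ℕ) (a : MulAut (FreeGroup A)) (w : FreeGroup A)
  (b : Blk A p), (⇑(dP p K a w))^[p + 2] (bP b) =
    jA A p ((a ^ (p + 2)) b.f * ((a ^ b.j.val) w)⁻¹) * EE A p b.j *
      j2 A p (tr K p b.j b.l b.y) * (EE A p b.l)⁻¹ * jA A p ((a ^ b.l.val) w)

/-- DYN (130 lines, uses DPK). Define `nx : Fin (p+2) → List Blk → List Blk` by `nx q [] = []`,
`nx q (b :: L) = ⟨(a^q w) * (a^(p+2) b.f) * (a^(b.j) w)⁻¹, b.j, tr K p b.j b.l b.y, b.l⟩ :: nx b.l L`.  By DPK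
`jA (a^q w) * dP^[p+2] (vP L) = vP (nx q L) * jA (a^(q') w)`, `q'` the `l` of the last block (induction).  For `L` nonempty and
`q = q'` = the `l` of its last block: `dP^[p+2] (vP L) = z * vP (nx q L) * z⁻¹`, `z = jA (a^q w)⁻¹`.
`nx q L` is cyclically good: `Vn`: `j`, `l` are unchanged and for `j = l` the map `tr` is an
automorphism of `F2`, so `tr y = 1` only for `y = 1`.  `An`: if `l_prev = j` the new `f` is
`(a^j w) (a^(p+2) f) (a^j w)⁻¹`, trivial only if `f = 1`. -/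
def Stmt_DYN : Prop := ∀ (A : Type) (p K : ℕ) (a : MulAut (FreeGroup A)) (w : FreeGroup A)
  (b : Blk A p) (L : List (Blk A p)), CG (b :: L) →
  ∃ (b' : Blk A p) (L' : List (Blk A p)) (z : GP A p), CG (b' :: L') ∧ b'.j = b.j ∧ b'.l = b.l ∧
    b'.y = tr K p b.j b.l b.y ∧
    (⇑(dP p K a w))^[p + 2] (vP (b :: L)) = z * vP (b' :: L') * z⁻¹

/-- DYI (40 lines, uses DYN). Induction on `i`; `dP^[p+2]` is multiplicative. -/
def Stmt_DYI : Prop := ∀ (A : Type) (p K : ℕ) (a : MulAut (FreeGroup A)) (w : FreeGroup A)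
  (b : Blk A p) (L : List (Blk A p)), CG (b :: L) → ∀ i : ℕ,
  ∃ (b' : Blk A p) (L' : List (Blk A p)) (z : GP A p), CG (b' :: L') ∧
    b'.y = (tr K p b.j b.l)^[i] b.y ∧ b'.j = b.j ∧ b'.l = b.l ∧
    (⇑(dP p K a w))^[(p + 2) * i] (vP (b :: L)) = z * vP (b' :: L') * z⁻¹

/-- RET (60 lines). A step `g → g * of j` of `GG` inside the box becomes a path of `GP` inside the box: for
`j` in `A` one step; for `S_(i+1)`: `eta g → eta g * E_(i+1) → eta g * E_(i+1) * E_0⁻¹`, the positions are those of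
`g * S_(i+1)` twice (`ps_eta`, the weight of `E_0` is `VV K σ 0 = 0`); for a letter `c` of `F2`: `eta g → eta g * E_0 →
eta g * E_0 * c → eta g * E_0 * c * E_0⁻¹`.  For steps backwards use the symmetry of `Step`. -/
def Stmt_RET : Prop := ∀ (A : Type) (p K : ℕ) (M : ℤ) (σ : ℤ × ℤ) (n : ℕ) (g : GG A p),
  Reach (wD A p K M σ) n g → Reach (wP A p K M σ) n (eta A p g)

/-- RJ2 (70 lines, uses GEO, `blk_RCH` (1)). `toWord (j2 y)` is the image of `toWord y` (`NRM_map`, with the injection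
`inr ∘ inr`).  For every prefix `U` of `toWord y`, `mk (map U) = j2 (mk U)` is reached (GEO), so its position
`M • ps w2 (mk U)` is in the box `n`, and `ps w2 (mk U)` is in the box `n` as `|M| ≥ 1`.  The prefixes of
`toWord y` are a path from `1` to `y` (induction on the prefix, one letter per step). -/
def Stmt_RJ2 : Prop := ∀ (A : Type) [DecidableEq A] (p K : ℕ) (M : ℤ) (σ : ℤ × ℤ) (n : ℕ) (y : F2),
  M ≠ 0 → Reach (wP A p K M σ) n (j2 A p y) → Reach w2 n y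

/-- ELL (120 lines, uses TEP TEL AXL RED EXB DYI RET RJ2). EXB; assume the third case `z = h₀ * vG L * h₀⁻¹`, `CG L`,
`L = b₀ :: L₀` (`CG.ne`).  Let `i` be arbitrary, `m = (p+2) * i`, `d = dA p K b w`.
`eta_dA` and induction: `eta ((d^m) z) = u * dP^[m] (eta z) * u⁻¹` for some `u : GP`; `eta z = eta h₀ * vP L * (eta h₀)⁻¹`
(`eta_vG`); DYI: `dP^[m] (vP L) = z' * vP L' * z'⁻¹`, `L' = b' :: L''` cyclically good,
`b'.y = tr^[i] b₀.y`.  So `eta (h * (d^m) z * h⁻¹) = g * vP L' * g⁻¹` for some `g : GP`; it is reached in the box `n`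
(RET), `vP L' = mk (wds L')` (`mk_wds`), `wds L' = P ++ wy b' ++ R` (`wds_split`) is cyclically reduced (RED), its
position is `0` (`ps_eta`, `ps` of a conjugate).  AXL: `mk (wy b') = j2 b'.y` (`mk_wy`) is reached in the box `2n`, so
(RJ2) `Reach w2 (2n) (tr^[i] b₀.y)`, for all `i`.  This contradicts `te` (`Vn b₀`). -/
def Stmt_ELL : Prop := ∀ (A : Type) [DecidableEq A] (p K : ℕ), 3 ≤ K → ∀ (M : ℤ) (σ : ℤ × ℤ),
  M ≠ 0 → ∀ (b : MulAut (FreeGroup A)) (w : FreeGroup A) (z : GG A p) (n : ℕ),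
  (∀ i : ℕ, ps (wD A p K M σ) ((dA p K b w ^ i) z) = 0 ∧
    ∃ h : GG A p, Reach (wD A p K M σ) n (h * (dA p K b w ^ i) z * h⁻¹)) →
    (∃ (f : FreeGroup A) (h : GG A p), z = h * gA A p f * h⁻¹) ∨
    (∃ (y : F2) (h : GG A p), z = h * g2 A p y * h⁻¹)

/-! ### E. rigidity -/

/-- SLW (80 lines, `blk_POS blk_IRR`, `blk_RBD blk_RCH`). `q = c⁻¹(S_1)`.  `c⁻¹ ∘ dA a w = dA b w' ∘ c⁻¹`, applied to `gA h` (`dA_gA`):
`(dA b w') (c⁻¹ (gA h)) = q⁻¹ * c⁻¹ (gA (a h)) * q`; iterate: third claim.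
`P h = ps wD (c⁻¹ (gA h))` (a homomorphism to `Multiplicative (ℤ × ℤ)`, `posHom`) satisfies
`P (a h) = TT K 0 (P h)` (`ps_dA` with `VV K σ (p+2) = (M,0)`, `ps` of a conjugate), so `P = 1` by POS.  Second
claim: RBD for `f = c⁻¹ ∘ gA`. -/
def Stmt_SLW : Prop := ∀ (A : Type) [Fintype A] [DecidableEq A] (p K : ℕ), 1 ≤ K →
  ∀ (M : ℤ) (σ : ℤ × ℤ), VV K σ (p + 2) = (M, 0) →
  ∀ (a b : MulAut (FreeGroup A)) (w w' : FreeGroup A), (∀ x, (a (FreeGroup.of x)).norm ≤ K) →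
  ∀ c : MulAut (GG A p), c⁻¹ * dA p K a w * c = dA p K b w' →
    (∀ h, ps (wD A p K M σ) (c⁻¹ (gA A p h)) = 0) ∧
    (∃ n, ∀ h, Reach (wD A p K M σ) n (c⁻¹ (gA A p h))) ∧
    (∀ (i : ℕ) (h : FreeGroup A), ∃ q : GG A p,
      q * (dA p K b w' ^ i) (c⁻¹ (gA A p h)) * q⁻¹ = c⁻¹ (gA A p ((a ^ i) h)))

/-- The exponent sum of the letter `x`. -/
def ex {A : Type} [DecidableEq A] (x : A) : FreeGroup A →* Multiplicative ℤ :=
  FreeGroup.lift (fun y => Multiplicative.ofAdd (if y = x then 1 else 0))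

/-- NON (50 lines, `blk_ABL`). Let `lam : GG →* Multiplicative ℤ` be the exponent sum of the letter `inl (inl x)`
(`mkHom (ex x) 1 1`), `lam (gA h) = ex x h`, `chi = lam ∘ c`.  `chi (c⁻¹ (gA h)) = ex x h ≠ 1`.  If
`c⁻¹ (gA h) = q * g2 y * q⁻¹` then `M • ps w2 y = 0` (`wD_g2`), so `ps w2 y = 0` and
`chi (q * g2 y * q⁻¹) = chi (g2 y) = 1` by ABL for `chi ∘ g2`. -/
def Stmt_NON : Prop := ∀ (A : Type) [DecidableEq A] (p K : ℕ) (M : ℤ) (σ : ℤ × ℤ), M ≠ 0 →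
  ∀ (c : MulAut (GG A p)) (h : FreeGroup A) (x : A), ps (wD A p K M σ) (c⁻¹ (gA A p h)) = 0 →
    ex x h ≠ 1 → ∀ (y : F2) (q : GG A p), c⁻¹ (gA A p h) ≠ q * g2 A p y * q⁻¹

/-- COM (180 lines, uses AXL, `blk_RCH` (1)). `S = Set.range ι`.  If all letters of `toWord g` are in `S` then `g` is in the
range of `map ι` (lift the word).  Otherwise `toWord g = α ++ γ ++ β`, `α`, `β` words in `S`, `γ` beginning and
ending with letters outside `S` (`takeWhile`/`dropWhile` from both sides).  `mk α = map ι a₁`, `mk β = map ι b₁`;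
`f₁' = a₁⁻¹ f₁ a₁ ≠ 1`, `f₂' = b₁ f₂ b₁⁻¹ ≠ 1`.  The word
`W = (toWord f₁' mapped) ++ γ ++ (toWord f₂' mapped) ++ invRev γ` is cyclically reduced: the pieces are reduced
(`NRM_map`, `isReduced_toWord`, infix of `toWord g`, `invRev`) and at the four junctions one letter is in `S` and the other
is not.  `mk W = (mk α)⁻¹ * (map ι f₁ * (g * map ι f₂ * g⁻¹)) * mk α` is conjugate to `map ι f₃`:
`q * mk W * q⁻¹ = map ι f₃`.  Let `(j₀, e)` be the first letter of `γ`, `w j = (1,0)` if `j = j₀` and `0` otherwise.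
All letters in `S` have weight `0`, so `map ι f₃` is reached in the box `0` (path along a word in `S`,
`snoc_ind`), and `ps w (mk W) = ps w (map ι f₃) = 0`.  AXL with `n = 0`, `Y = [(j₀, e)]`: `mk [(j₀, e)]` is reached in
the box `0`, but its position is `±(1,0)`: contradiction (`blk_RCH` (1)). -/
def Stmt_COM : Prop := ∀ (A J : Type) [DecidableEq A] [DecidableEq J] (ι : A → J),
  Function.Injective ι → ∀ (f₁ f₂ f₃ : FreeGroup A) (g h : FreeGroup J), f₁ ≠ 1 → f₂ ≠ 1 →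
  FreeGroup.map ι f₁ * (g * FreeGroup.map ι f₂ * g⁻¹) = h * FreeGroup.map ι f₃ * h⁻¹ →
    ∃ f, g = FreeGroup.map ι f

/-- Malnormality (proved here). -/
theorem mln (hC : Stmt_COM) {A J : Type} [DecidableEq A] [DecidableEq J] {ι : A → J}
    (hι : Function.Injective ι) {f₁ f₂ : FreeGroup A} {g : FreeGroup J} (h1 : f₁ ≠ 1)
    (h : g * FreeGroup.map ι f₁ * g⁻¹ = FreeGroup.map ι f₂) : ∃ f, g = FreeGroup.map ι f := by
  have h2 : f₂ ≠ 1 := by
    rintro rfl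
    apply h1
    apply FreeGroup.map_injective hι
    rw [map_one] at h ⊢
    have := congrArg (fun t => g⁻¹ * t * g) h
    simpa [mul_assoc] using this
  exact hC A J ι hι f₂ f₁ (f₂ * f₂) g 1 h2 h1 (by rw [h]; simp)

/-- FAC (110 lines, uses SGM ELL SLW NON COM). `A` empty: `h = 1`.  SGM gives `M`, `σ`.  For every `h` the element
`z = c⁻¹ (gA h)` satisfies the hypothesis of ELL for `b`, `w'` and the `n` of SLW (positions: `ps` of
`(dA b w' ^ i) z` is that of its conjugate `c⁻¹ (gA (a^i h))`, `0`), so `z` is conjugate to some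
`gA f` or `g2 y`; the latter is excluded by NON if some `ex x h ≠ 1`.  Fix `x₀ : A`.  For `x : A`:
`c⁻¹ (gA x) = g_x * gA f_x * g_x⁻¹`, `f_x ≠ 1`.  For `x ≠ x₀` (`ex x₀ (x₀ x) ≠ 1`):
`c⁻¹ (gA (x₀ x)) = h * gA f₃ * h⁻¹`, so `gA f_(x₀) * (g * gA f_x * g⁻¹)` with `g = g_(x₀)⁻¹ g_x` is conjugate to `gA f₃`
and COM (`ι = inl ∘ inl`, `gA = FreeGroup.map ι` by `rfl`) gives `g_x = g_(x₀) * gA f`.  So all `c⁻¹ (gA x)` are in
`g * range gA * g⁻¹`, `g = g_(x₀)`; then all `c⁻¹ (gA h)` by `snoc_ind`. -/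
def Stmt_FAC : Prop := ∀ (A : Type) [Fintype A] [DecidableEq A] (p K : ℕ), 3 ≤ K →
  ∀ (a b : MulAut (FreeGroup A)) (w w' : FreeGroup A), (∀ x, (a (FreeGroup.of x)).norm ≤ K) →
  ∀ c : MulAut (GG A p), c⁻¹ * dA p K a w * c = dA p K b w' →
    ∃ g : GG A p, ∀ h, ∃ f, c⁻¹ (gA A p h) = g * gA A p f * g⁻¹

/-- AUT (100 lines, uses COM FAC). FAC for `(a, b, c)` and for `(b, a, c⁻¹)`: `c⁻¹ (gA h) = g₂ * gA (d₂ h) * g₂⁻¹`,
`c (gA h) = g₁ * gA (d₁ h) * g₁⁻¹`, with functions `d₁`, `d₂` (choice), which are homomorphisms as `gA` is injective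
(`iA_injective`).  `gA h = c (c⁻¹ (gA h)) = z * gA (d₁ (d₂ h)) * z⁻¹`, `z = c g₂ * g₁`; take `h = of x ≠ 1`: `mln` (for
`z⁻¹`) gives `z = gA f`, so `h = f * d₁ (d₂ h) * f⁻¹` for all `h`; the same for `d₂ (d₁ h)`.  Hence `d₁` is
bijective: `d = MulEquiv.ofBijective`. (`A` nonempty; for `A` empty everything is trivial.) -/
def Stmt_AUT : Prop := ∀ (A : Type) [Fintype A] [DecidableEq A] (p K : ℕ), 3 ≤ K →
  ∀ (a b : MulAut (FreeGroup A)) (w w' : FreeGroup A), (∀ x, (a (FreeGroup.of x)).norm ≤ K) →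
  (∀ x, (b (FreeGroup.of x)).norm ≤ K) →
  ∀ c : MulAut (GG A p), c⁻¹ * dA p K a w * c = dA p K b w' →
    ∃ (g : GG A p) (d : MulAut (FreeGroup A)), ∀ h, c (gA A p h) = g * gA A p (d h) * g⁻¹

/-- OUC (60 lines, uses COM). `D_a = dA a w`, `D_b = dA b w'`; `D_a (c (gA h)) = c (D_b (gA h))`:
`D_a(g) S_1⁻¹ gA (a d h) S_1 D_a(g)⁻¹ = c(S_1)⁻¹ g gA (d b h) g⁻¹ c(S_1)`, so
`z' * gA (a (d h)) * z'⁻¹ = gA (d (b h))`, `z' = g⁻¹ c(S_1) D_a(g) S_1⁻¹`.  With `h = of x`, `mln`: `z' = gA f`, and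
`f * a (d h) * f⁻¹ = d (b h)` for all `h` (`iA_injective`), so `a (d h) = f⁻¹ * d (b h) * f` and `z = d⁻¹ (f⁻¹)`.
(`A` empty: everything is equal to `1`.) -/
def Stmt_OUC : Prop := ∀ (A : Type) [DecidableEq A] (p K : ℕ) (a b : MulAut (FreeGroup A))
  (w w' : FreeGroup A) (c : MulAut (GG A p)) (g : GG A p) (d : MulAut (FreeGroup A)),
  c⁻¹ * dA p K a w * c = dA p K b w' → (∀ h, c (gA A p h) = g * gA A p (d h) * g⁻¹) →
    ∃ z : FreeGroup A, d⁻¹ * a * d = MulAut.conj z * b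

/-- NRD (120 lines; model: B_NRM.lean). `toWord g = γ ++ β` with `β` the maximal suffix of letters in the range of
`ι`: `mk β = map ι f`, `γ = []` or its last letter is not in the range.  For `x : A`,
`v = f * d x * f⁻¹ ≠ 1` and `g * map ι (d x) * g⁻¹ = mk γ * map ι v * (mk γ)⁻¹`; the word
`γ ++ toWord (map ι v) ++ invRev γ` is reduced (junctions: one letter in the range, one not; `NRM_map`), so the norm is
`2 |γ| + v.norm ≥ v.norm`. -/
def Stmt_NRD : Prop := ∀ (A J : Type) [DecidableEq A] [DecidableEq J] (ι : A → J),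
  Function.Injective ι → ∀ (g : FreeGroup J) (d : MulAut (FreeGroup A)), ∃ f : FreeGroup A, ∀ x : A,
    ((MulAut.conj f * d) (FreeGroup.of x)).norm ≤
      (g * FreeGroup.map ι (d (FreeGroup.of x)) * g⁻¹).norm

/-- CJD (120 lines). `g_j = gp b g j`, `g_0 = 1`, `g_1 = g`, `g_(j+1) = g * b (g_j)`.  `e = mkHom (gA ∘ d⁻¹) (fun i => gA (g_(i+1)) * S_(i+1)) g2`, inverse
`mkHom (gA ∘ d) (fun i => gA (d (g_(i+1)))⁻¹ * S_(i+1)) g2`; `e (S_j) = gA g_j * S_j` for all `j` (also `j = 0`).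
`e ∘ dA a w = dA b w' ∘ e` by `gg_ext`: on `gA h`: `e (S_1⁻¹ gA (a h) S_1) = S_1⁻¹ gA (g⁻¹ d⁻¹(a h) g) S_1` and
`dA b w' (gA (d⁻¹ h)) = S_1⁻¹ gA (b (d⁻¹ h)) S_1`; `d⁻¹ a = conj g b d⁻¹` gives `g⁻¹ d⁻¹(a h) g = b (d⁻¹ h)`.
On `S_j`, `1 ≤ j ≤ p`: `e (S_1⁻¹ S_(j+1)) = S_1⁻¹ gA (g⁻¹ g_(j+1)) S_(j+1)` and
`dA b w' (gA g_j * S_j) = S_1⁻¹ gA (b g_j) S_(j+1)`.  On `S_(p+1)`:
`e (S_1⁻¹ gA w⁻¹ x) = S_1⁻¹ gA (g⁻¹ (d⁻¹ w)⁻¹) x` and `dA b w' (gA g_(p+1) * S_(p+1)) = S_1⁻¹ gA (b g_(p+1)) gA w'⁻¹ x`,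
equal because `w' = d⁻¹ w * g * b (g_(p+1))`.  On `g2`: both are `g2 ∘ psi`. -/
def Stmt_CJD : Prop := ∀ (A : Type) (p K : ℕ) (a b d : MulAut (FreeGroup A)) (g w w' : FreeGroup A),
  d⁻¹ * a * d = MulAut.conj g * b → w' = d⁻¹ w * gp b g (p + 2) →
    ∃ e : MulAut (GG A p), e * dA p K a w = dA p K b w' * e

/-- NMD (80 lines; model: B_EXA.lean). `norm_mul_le`, `norm_inv_eq`, `norm_iA` (for `gA`): the letter `x` of `A` goes to
`S_1⁻¹ gA (a x) S_1`, norm `≤ nrm a + 2` (`norm_le_nrm`); `S_j` to `S_1⁻¹ S_(j+1)`, norm `≤ 2`; `S_(p+1)` to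
`S_1⁻¹ gA w⁻¹ x`, norm `≤ w.norm + 2`; `y` to `x`, norm `1`; `x` to `x^(K+1) y x⁻¹`, norm `≤ K + 3`. -/
def Stmt_NMD : Prop := ∀ (A : Type) [Fintype A] [DecidableEq A] (p K : ℕ)
  (a : MulAut (FreeGroup A)) (w : FreeGroup A) (B : ℕ), nrm a + 2 ≤ B → w.norm + 2 ≤ B →
    K + 3 ≤ B → nrm (dA p K a w) ≤ B

/-! ### F. Nielsen theory -/

/-- FXL (80 lines). (1), (2), (3): linearity in `κ`: by induction on the word (`fxL`, generalizing `κ`), then for
`u = mk L`; (3) from (1) by `Finset.induction`.  (4) for a word `L`: `fxL i L κ` depends only on the values of `κ`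
at `mk L₁`, `mk L₁ * (of x)⁻¹` with `L₁` resp. `L₁ ++ [(x, false)]` a prefix of `L`, all of norm `≤ L.length`: induction on `L` with the claim
`(∀ g, g.norm ≤ L.length → κ (c * g) = κ' (c * g)) → fxL i L (κ (c * ·)) = fxL i L (κ' (c * ·))`, or directly; take
`L = toWord u`.  (5) for constant `κ`: from (2). -/
def Stmt_FXL : Prop := ∀ (J : Type) [DecidableEq J] (i : J) (u : FreeGroup J),
  (∀ κ κ' : FreeGroup J → ℤ, fx i u (fun g => κ g + κ' g) = fx i u κ + fx i u κ') ∧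
  (∀ (m : ℤ) (κ : FreeGroup J → ℤ), fx i u (fun g => m * κ g) = m * fx i u κ) ∧
  (∀ (Q : Type) (S : Finset Q) (κ : Q → FreeGroup J → ℤ),
    fx i u (fun g => ∑ q ∈ S, κ q g) = ∑ q ∈ S, fx i u (κ q)) ∧
  (∀ κ κ' : FreeGroup J → ℤ, (∀ g : FreeGroup J, g.norm ≤ u.norm → κ g = κ' g) →
    fx i u κ = fx i u κ') ∧
  (∀ m : ℤ, fx i u (fun _ => m) = m * fx i u (fun _ => 1))

/-- FUN (40 lines, uses FXL). The fundamental formula `∑ ∂_i u (x_i - 1) = u - 1`.  `snoc_ind` on `u`, for all `κ`: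
`u * of j`: `fx_mul`, `fx_of`: the new terms sum to `κ (u * of j) - κ u`; `u * (of j)⁻¹`: `fx_mul`, `fx_inv`, `fx_of`:
the new terms are `-(κ (u * (of j)⁻¹ * of j) - κ (u * (of j)⁻¹))`. -/
def Stmt_FUN : Prop := ∀ (J : Type) [Fintype J] [DecidableEq J] (u : FreeGroup J)
  (κ : FreeGroup J → ℤ),
  ∑ i : J, fx i u (fun g => κ (g * FreeGroup.of i) - κ g) = κ u - κ 1

/-- CHR (60 lines, uses FXL). The chain rule `∂_j θ(u) = ∑_k θ(∂_k u) ∂_j θ(x_k)`.  `snoc_ind` on `u`, for all `κ`: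
`u * of m`: left side `fx j (θ u) κ + fx j (θ (of m)) (fun s => κ (θ u * s))`, the right side changes by the same
term (`fx_mul`, `fx_of`); `u * (of m)⁻¹`: `fx_mul`, `fx_inv`. -/
def Stmt_CHR : Prop := ∀ (J : Type) [Fintype J] [DecidableEq J] (θ : FreeGroup J →* FreeGroup J)
  (j : J) (u : FreeGroup J) (κ : FreeGroup J → ℤ),
  fx j (θ u) κ = ∑ k : J, fx k u (fun t => fx j (θ (FreeGroup.of k)) (fun s => κ (θ t * s)))

/-- FUB (40 lines, uses FXL). `snoc_ind` on `u` (for all `κ`) with `fx_mul`, `fx_of`, `fx_inv` and the linearity of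
`fx k v`. -/
def Stmt_FUB : Prop := ∀ (J : Type) [DecidableEq J] (i k : J) (u v : FreeGroup J)
  (κ : FreeGroup J → FreeGroup J → ℤ),
  fx i u (fun t => fx k v (fun s => κ t s)) = fx k v (fun s => fx i u (fun t => κ t s))

/-- IN1 (100 lines, uses FXL CHR FUB). `(κ ∘ c) 1 = κ 1`.  CHR for `c⁻¹` and for `θ`:
`fx i (c⁻¹ (θ (c x_i))) (κ ∘ c) = ∑_k fx k (θ (c x_i)) (fun t => fx i (c⁻¹ x_k) (fun s => κ (t * c s)))`
`= ∑_k ∑_l fx l (c x_i) (fun r => fx k (θ x_l) (fun t => fx i (c⁻¹ x_k) (fun s => κ (θ r * t * c s))))`.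
`κ (θ r * t') = κ (t' * r)` (from `Inv`).  Reorder by FUB:
`fx k (θ x_l) (fun t => fx i (c⁻¹ x_k) (fun s => fx l (c x_i) (fun r => κ (t * c s * r))))`.  Sum over `i` (`FXL` (3)): by
CHR for `c` and `u = c⁻¹ x_k` the sum over `i` of the inner part is `fx l (c (c⁻¹ x_k)) (fun r => κ (t * r)) = fx l x_k (…)`,
which is `κ t` if `k = l` and `0` otherwise (`fx_of`).  So the total is `∑_l fx l (θ x_l) κ`. -/
def Stmt_IN1 : Prop := ∀ (J : Type) [Fintype J] [DecidableEq J] (θ c : MulAut (FreeGroup J))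
  (κ : FreeGroup J → ℤ), Inv θ κ → Lk (fun t => κ (c t)) (c⁻¹ * θ * c) = Lk κ θ

/-- IN2 (60 lines, uses FXL FUN). `fx i (g * θ x_i * g⁻¹) (κ (g⁻¹ ·))`
`= fx i g (κ (g⁻¹ ·)) + fx i (θ x_i) κ - fx i g (fun t => κ (θ x_i * g⁻¹ * t))` (`fx_mul`, `fx_inv`) and
`κ (θ x_i * (g⁻¹ * t)) = κ (g⁻¹ * t * x_i)` (`Inv`).  The sum over `i` is `∑ fx i (θ x_i) κ - (κ (g⁻¹ g) - κ (g⁻¹))` by FUN for
`κ (g⁻¹ ·)`. -/
def Stmt_IN2 : Prop := ∀ (J : Type) [Fintype J] [DecidableEq J] (θ : MulAut (FreeGroup J))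
  (g : FreeGroup J) (κ : FreeGroup J → ℤ), Inv θ κ →
    Lk (fun t => κ (g⁻¹ * t)) (MulAut.conj g * θ) = Lk κ θ

/-- CLS (80 lines, uses FXL). (1) `Lk κ θ` depends only on the values of `κ` on the ball of radius `nrm θ` (`FXL` (4), the
terms `fx i (θ x_i)`, `(θ x_i).norm ≤ nrm θ`, and `κ 1`).  (2) Let `B` be the (finite) ball of radius `nrm θ`
and `r : F → F` a choice of representatives of the twisted classes (`t ~ t'` iff `∃ s, t' = θ s * t * s⁻¹`, an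
equivalence; `Quot.out`).  On `B` the function `1` equals `∑ q ∈ B.image r, ind θ q`.  So
`Lk 1 θ = ∑ q ∈ B.image r, Lk (ind θ q) θ` and some `Lk (ind θ q) θ ≠ 0`, `q = r u`, `u ∈ B`, `ind θ q = ind θ u`.  Finiteness of
the ball: words of length `≤ N` over a finite alphabet (`List.finite_length_le`, `FreeGroup.toWord_injective`). -/
def Stmt_CLS : Prop := ∀ (J : Type) [Fintype J] [DecidableEq J] (θ : MulAut (FreeGroup J)),
  (∀ κ κ' : FreeGroup J → ℤ, (∀ g : FreeGroup J, g.norm ≤ nrm θ → κ g = κ' g) →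
    Lk κ θ = Lk κ' θ) ∧
  (Lk (fun _ => 1) θ ≠ 0 → ∃ u : FreeGroup J, u.norm ≤ nrm θ ∧ Lk (ind θ u) θ ≠ 0)

/-- NIE (60 lines, uses IN1 IN2 CLS). CLS: `u` with `Lk (ind θ u) θ ≠ 0`.  `κ = ind θ u` satisfies `Inv θ κ`.  `κ₀ t = κ (d (g * t))`
satisfies `Inv θ' κ₀` (`d (g * θ' s * t * s⁻¹) = θ (d s) * d (g * t) * (d s)⁻¹`, as `d (g * θ' s * g⁻¹) = θ (d s)`).  IN2 for
`θ'`, `κ₀` and IN1 for `c = d`: `Lk κ₀ θ' = Lk (fun t => κ (d t)) (conj g * θ') = Lk κ θ ≠ 0`.  By CLS (1) there is `v` in the ball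
with `κ₀ v ≠ 0` (`Lk 0 θ' = 0`), i.e. `d (g * v) = θ r * u * r⁻¹`.  Apply `d⁻¹`: `g * v = g * θ' r' * g⁻¹ * d⁻¹ u * r'⁻¹`, `r' = d⁻¹ r`.
So `s = r'⁻¹`. -/
def Stmt_NIE : Prop := ∀ (J : Type) [Fintype J] [DecidableEq J] (θ θ' d : MulAut (FreeGroup J))
  (g : FreeGroup J), d⁻¹ * θ * d = MulAut.conj g * θ' → Lk (fun _ => 1) θ ≠ 0 →
    ∃ u v s : FreeGroup J, u.norm ≤ nrm θ ∧ v.norm ≤ nrm θ' ∧ g⁻¹ * d⁻¹ u = θ' s * v * s⁻¹

/-- MAT (50 lines, uses FXL CHR). CHR with `κ = 1` and FXL (5); `mat 1 = 1` by `fx_of`; powers by induction. -/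
def Stmt_MAT : Prop := ∀ (J : Type) [Fintype J] [DecidableEq J],
  (∀ θ θ' : MulAut (FreeGroup J), mat (θ * θ') = mat θ' * mat θ) ∧ mat (1 : MulAut (FreeGroup J)) = 1 ∧
  ∀ (θ : MulAut (FreeGroup J)) (k : ℕ), mat (θ ^ k) = mat θ ^ k

/-- TRK (50 lines). Suppose `(A ^ k).trace = 1` for all `1 ≤ k ≤ n + 1`.  `P = A.charpoly * (X - 1)`, degree `n + 1`;
`Polynomial.aeval A P = 0` (`Matrix.aeval_self_charpoly`), `P.eval 1 = 0`.  `0 = trace (aeval A P) - P.eval 1 =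
∑_(i ≤ n+1) P.coeff i * ((A ^ i).trace - 1) = P.coeff 0 * (n - 1)` (`Polynomial.aeval_eq_sum_range'`, `eval_eq_sum_range'`).
`P.coeff 0 = - A.charpoly.coeff 0 = ± A.det ≠ 0` (`Matrix.det_eq_sign_charpoly_coeff`), `n ≠ 1`: contradiction. -/
def Stmt_TRK : Prop := ∀ n : ℕ, 2 ≤ n → ∀ A : Matrix (Fin n) (Fin n) ℤ, A.det ≠ 0 →
  ∃ k : ℕ, 1 ≤ k ∧ k ≤ n + 1 ∧ (A ^ k).trace ≠ 1

/-- NMP (40 lines). `(a h).norm ≤ nrm a * h.norm` (word of length `m`; `snoc_ind` is not enough: use `toWord`,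
`h = mk L`, `norm (a (mk L)) ≤ nrm a * L.length` by induction on `L`), so `nrm (a ^ k) ≤ nrm a ^ k` by induction. -/
def Stmt_NMP : Prop := ∀ (J : Type) [Fintype J] [DecidableEq J] (a : MulAut (FreeGroup J)) (k : ℕ),
  nrm (a ^ k) ≤ nrm a ^ k

/-- DAT (90 lines, uses NIE MAT TRK NMP). `mat a` has nonzero determinant (`mat a * mat a⁻¹ = 1` up to order), so by TRK, MAT
and `Lk_one` there is `k`, `1 ≤ k ≤ n + 1`, `Lk 1 (a ^ k) ≠ 0`.  `(conj g * b)^k = conj (gp b g k) * b^k` (induction: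
`(conj g * b) * (conj (g_k) * b^k) = conj (g * b g_k) * b^(k+1)`), so `d⁻¹ * a^k * d = conj g_k * b^k`.  NIE for
`θ = a^k`, `θ' = b^k`: `u`, `v`, `s`, `g_k⁻¹ * d⁻¹ u = (b^k) s * v * s⁻¹`.  Put `d' = d * conj s`, `g' = s⁻¹ * g * b s`, `w = u⁻¹`,
`w' = v⁻¹`.  `d'⁻¹ * a * d' = conj s⁻¹ * conj g * b * conj s = conj g' * b`.  `gp b g' k = s⁻¹ * g_k * (b^k) s` (induction).
`d'⁻¹ w * gp b g' k = s⁻¹ * (d⁻¹ u)⁻¹ * s * s⁻¹ * g_k * (b^k) s = s⁻¹ * (g_k⁻¹ * d⁻¹ u)⁻¹ * (b^k) s = v⁻¹`.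
Norms: NMP. -/
def Stmt_DAT : Prop := ∀ n : ℕ, 2 ≤ n → ∀ (a b d : MulAut (FreeGroup (Fin n)))
  (g : FreeGroup (Fin n)), d⁻¹ * a * d = MulAut.conj g * b →
    ∃ (k : ℕ) (d' : MulAut (FreeGroup (Fin n))) (g' w w' : FreeGroup (Fin n)), 1 ≤ k ∧ k ≤ n + 1 ∧
      d'⁻¹ * a * d' = MulAut.conj g' * b ∧ w' = d'⁻¹ w * gp b g' k ∧
      w.norm ≤ nrm a ^ k ∧ w'.norm ≤ nrm b ^ k

end Pool.OA
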